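import Pool.Agent.Helper1.KA.GeneralB
import Pool.Agent.Helper17.KL.Shift

set_option autoImplicit false
set_option linter.unusedSectionVars false

/-!
Project KA (MP_0b9e0b_ag), module KA-9: the proofs of `ModA1` and `ModA2`.
-/

namespace Pool.Agent.Helper17.KA

open Pool.Agent.Helper16
open Pool.Agent.Helper1.KL (Var VarF Key key fld spec cyc relations rat CH coef Idx)
open Pool.Agent.Helper1.KL (aff xc yc tr ec red xpt perp Prp ratf Vert Con At0 Quo cls IT RT
  charP_alg cast_pow_p)
open Pool.Agent.Helper17.KL (emb emb_X transcendental_add ker_eq ratFunc_mem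
  exists_lift trdeg_le_of_alg)
open Pool.Agent.Helper1.KA

section Curve

variable {k : Type} [Field k] {p : ℕ} [Fact p.Prime] [CharP k p] {a : ℕ} {n : ℕ} {c : Fin n → k}
  {N : Type} [Field N] [Algebra (RatFunc k) N]
  {r : ℕ} {I : Finset (Fin n)} {z : Fin n ⊕ Fin n → Option N} {ρ : Fin n → ZMod p}

theorem cast_zero' [CharP N p] : ((0 : ZMod p).cast : N) = 0 :=
  map_zero (ZMod.castHom (dvd_refl p) N)

/-- The value of `e` at a translate. -/
theorem ec_tr (hz : Good p a c r I z) (hρ : ∀ i ∉ I, ρ i = 0) (h : Fin n → ZMod p) :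
    ec ρ (tr h z) = ec ρ z + ((∑ i, ρ i * h i : ZMod p).cast : N) := by
  have hp := charP_alg (k := k) (p := p) N
  have h1 : ((∑ i, ρ i * h i : ZMod p).cast : N) = ∑ i, (ρ i).cast * (h i).cast := by
    have h2 := map_sum (ZMod.castHom (dvd_refl p) N) (fun i => ρ i * h i) Finset.univ
    simp only [map_mul] at h2
    exact h2
  rw [h1]
  unfold ec
  rw [← Finset.sum_add_distrib]
  refine Finset.sum_congr rfl fun i _ => ?_
  by_cases hi : i ∈ I
  · have h2 := hz.aff i hi
    obtain ⟨c, hc⟩ := Option.ne_none_iff_exists'.1 h2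
    have h3 : yc (tr h z) i = yc z i + (h i).cast := by
      unfold yc tr
      simp only [hc, Option.map_some, Option.getD_some]
    rw [h3, mul_add]
  · rw [hρ i hi, cast_zero', zero_mul, zero_mul, zero_mul, zero_add]

/-- Equality of the keys of reduced points. -/
theorem key_red_eq {F : Type} [Field F] [Algebra F N] (h : Fin n → ZMod p)
    (h1 : RingHom.ker (MvPolynomial.aeval (R := F)
      (Sum.elim (fun i => xc z i) (fun _ : Unit => ec ρ z))) =
      RingHom.ker (MvPolynomial.aeval (R := F)
      (Sum.elim (fun i => xc z i) (fun _ : Unit => ec ρ (tr h z))))) :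
    key F (red ρ z) = key F (red ρ (tr h z)) := by
  unfold key
  have h2 : ∀ w : Fin n ⊕ Fin n → Option N, (fun j => (red ρ w j).getD 0) =
      Sum.elim (fun i => xc w i) (fun _ : Unit => ec ρ w) := by
    intro w
    funext j
    rcases j with i | u
    · rfl
    · rfl
  have h3 : (fun i => xc (tr h z) i) = fun i => xc z i := rfl
  rw [h2, h2, h3]
  refine Prod.ext ?_ h1
  ext j
  rcases j with i | u
  · exact Iff.rfl
  · exact ⟨fun _ => by simp [red], fun _ => by simp [red]⟩

/-- All elements of the field of a point are algebraic over a field which contains the base up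
to algebraic elements and the coordinates `x i` up to algebraic elements. -/
theorem alg_of_mem (hz : XV p a c N z) {L : Type} [Field L] [Algebra L N]
    (hF : ∀ u : RatFunc k, IsAlgebraic L (algebraMap (RatFunc k) N u))
    (hx : ∀ i, IsAlgebraic L (xc z i)) (u : N) (hu : u ∈ fld (RatFunc k) z) :
    IsAlgebraic L u := by
  unfold fld at hu
  induction hu using IntermediateField.adjoin_induction with
  | mem y hy =>
    obtain ⟨j, hj⟩ := hy
    rcases j with i | i
    · have h1 : xc z i = y := by unfold xc; rw [hj]; rfl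
      rw [← h1]
      exact hx i
    · have h1 : yc z i = y := by unfold yc; rw [hj]; rfl
      rcases hz.cases i with ⟨-, h0, -, -⟩ | ⟨-, -, h2⟩
      · rw [hj] at h0
        exact absurd h0 (Option.some_ne_none _)
      rw [← h1]
      have h3 : IsAlgebraic L (yc z i ^ p - yc z i) := by
        rw [h2]
        exact (((hF _).mul (hF _)).mul ((hx i).pow a)).add (hx i)
      have h4 : yc z i ^ p - yc z i =
          Polynomial.aeval (yc z i) (Polynomial.X ^ p - Polynomial.X : Polynomial L) := by
        simp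
      rw [h4] at h3
      refine IsAlgebraic.of_aeval _ ?_ ?_ h3
      · have h5 : (Polynomial.X ^ p - Polynomial.X : Polynomial L).natDegree = p :=
          FiniteField.X_pow_card_sub_X_natDegree_eq L (Fact.out : p.Prime).one_lt
        rw [h5]
        exact (Fact.out : p.Prime).ne_zero
      · have h5 : (Polynomial.X ^ p - Polynomial.X : Polynomial L).natDegree = p :=
          FiniteField.X_pow_card_sub_X_natDegree_eq L (Fact.out : p.Prime).one_lt
        rw [Polynomial.leadingCoeff, h5, Polynomial.coeff_sub, Polynomial.coeff_X_pow_self,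
          Polynomial.coeff_X_of_ne_one (Fact.out : p.Prime).one_lt.ne', sub_zero]
        exact one_mem _
  | algebraMap c => exact hF c
  | add y w hy hw ihy ihw => exact ihy.add ihw
  | mul y w hy hw ihy ihw => exact ihy.mul ihw
  | inv y hy ihy => exact ihy.inv

end Curve

section Vertical

variable {k : Type} [Field k] {p : ℕ} [Fact p.Prime] [CharP k p] {a : ℕ} {n : ℕ} {c : Fin n → k}
  {N : Type} [Field N] {r : ℕ} {z : Fin n ⊕ Fin n → Option N}

theorem xc_mem_fld [Algebra k N] (i : Fin n) : xc z i ∈ fld k (xpt z) := by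
  cases h : z (Sum.inl i) with
  | none =>
    have h1 : xc z i = 0 := by unfold xc; rw [h]; rfl
    rw [h1]
    exact zero_mem _
  | some a =>
    have h1 : xc z i = a := by unfold xc; rw [h]; rfl
    rw [h1]
    exact IntermediateField.subset_adjoin _ _ ⟨i, h⟩

/-- The element `t` is transcendental over the field of the coordinates `x i` of a vertical
point. -/
theorem vert_transc [Algebra k N] [Algebra (RatFunc k) N] [IsScalarTower k (RatFunc k) N]
    (hz : XV p a c N z)
    (hdim : Algebra.trdeg (RatFunc k) (fld (RatFunc k) z) = r) (hv : Vert k r z) :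
    Transcendental (fld k (xpt z)) (algebraMap (RatFunc k) N RatFunc.X) := by
  intro hX
  have hF : ∀ u : RatFunc k, IsAlgebraic (fld k (xpt z)) (algebraMap (RatFunc k) N u) := by
    intro u
    have h1 := ratFunc_mem (algebraMap (RatFunc k) N)
      (algebraicClosure (fld k (xpt z)) N).toSubfield ?_ ?_ u
    · exact mem_algebraicClosure_iff.1 h1
    · intro c
      refine mem_algebraicClosure_iff.2 ?_
      have h2 : algebraMap (RatFunc k) N (RatFunc.C c) =
          algebraMap (fld k (xpt z)) N (algebraMap k (fld k (xpt z)) c) := by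
        rw [← IsScalarTower.algebraMap_apply k (fld k (xpt z)) N,
          IsScalarTower.algebraMap_apply k (RatFunc k) N]
        rfl
      rw [h2]
      exact isAlgebraic_algebraMap _
    · exact mem_algebraicClosure_iff.2 hX
  have hx : ∀ i, IsAlgebraic (fld k (xpt z)) (xc z i) := fun i =>
    isAlgebraic_algebraMap (⟨xc z i, xc_mem_fld i⟩ : fld k (xpt z))
  have : IsScalarTower k (fld (RatFunc k) z) N := IsScalarTower.of_algebraMap_eq fun a => rfl
  have h1 : Algebra.trdeg k (fld (RatFunc k) z) ≤ Algebra.trdeg k (fld k (xpt z)) :=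
    trdeg_le_of_alg (N := N) fun u => alg_of_mem hz hF hx u.1 u.2
  have h2 := Pool.Agent.HC.trdeg_base (k := k) (N := fld (RatFunc k) z)
  rw [h2, hdim] at h1
  have h3 := h1.trans hv
  exact absurd h3 (by exact_mod_cast Nat.not_succ_le_self r)

end Vertical

/-- KA-9a. -/
theorem modA1 (k : Type) [Field k] (p a : ℕ) [Fact p.Prime] [CharP k p] {n : ℕ} (c : Fin n → k)
    (r : ℕ) (ha : a ≠ 0) : ModA1 k p a c r := by
  intro N _ _ _ _ I z ρ hz hρ hv hX h
  have hp := charP_alg (k := k) (p := p) N
  have ht := vert_transc hz.mem hz.dim hv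
  have hcast : ∀ u : ZMod p, (u.cast : N) ∈ fld k (xpt z) := by
    intro u
    rw [← ZMod.natCast_val]
    exact natCast_mem _ _
  have hbase : ∀ d : k, algebraMap (RatFunc k) N (RatFunc.C d) = algebraMap k N d := by
    intro d
    rw [IsScalarTower.algebraMap_apply k (RatFunc k) N]
    rfl
  have hXL : Xc a c ρ z ∈ fld k (xpt z) := sum_mem fun i _ => mul_mem (mul_mem (hcast _)
    (by rw [hbase]; exact IntermediateField.algebraMap_mem _ _)) (pow_mem (xc_mem_fld i) a)
  have hBL : Bc ρ z ∈ fld k (xpt z) := sum_mem fun i _ => mul_mem (hcast _) (xc_mem_fld i)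
  have he0 := as_eq ha hz.mem ρ
  have htr := ec_tr hz hρ h
  set d : N := ((∑ i, ρ i * h i : ZMod p).cast : N) with hd
  have hdp : d ^ p = d := cast_pow_p _
  have hdL : d ∈ fld k (xpt z) := hcast _
  -- `e` is transcendental
  have he : Transcendental (fld k (xpt z)) (ec ρ z) := by
    intro hal
    refine ht ?_
    have h1 : algebraMap (RatFunc k) N RatFunc.X =
        (ec ρ z ^ p - ec ρ z - Bc ρ z) * (Xc a c ρ z)⁻¹ := by
      rw [he0]
      field_simp
      ring
    rw [h1]
    have h2 : IsAlgebraic (fld k (xpt z)) (Bc ρ z) :=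
      isAlgebraic_algebraMap (⟨Bc ρ z, hBL⟩ : fld k (xpt z))
    have h3 : IsAlgebraic (fld k (xpt z)) (Xc a c ρ z) :=
      isAlgebraic_algebraMap (⟨Xc a c ρ z, hXL⟩ : fld k (xpt z))
    exact (((hal.pow p).sub hal).sub h2).mul h3.inv
  have he' : Transcendental (fld k (xpt z)) (ec ρ z + d) :=
    transcendental_add he (⟨d, hdL⟩ : fld k (xpt z))
  -- the lift of `t`
  let T : RatFunc (fld k (xpt z)) := (RatFunc.X ^ p - RatFunc.X -
    algebraMap (fld k (xpt z)) _ ⟨Bc ρ z, hBL⟩) *
      (algebraMap (fld k (xpt z)) _ ⟨Xc a c ρ z, hXL⟩)⁻¹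
  have hT : ∀ (e : N) (h' : Transcendental (fld k (xpt z)) e), emb e h' T =
      (e ^ p - e - Bc ρ z) * (Xc a c ρ z)⁻¹ := by
    intro e h'
    simp only [T, map_mul, map_sub, map_pow, map_inv₀, emb_X, AlgHom.commutes]
    rfl
  have hT1 : emb (ec ρ z) he T = algebraMap (RatFunc k) N RatFunc.X := by
    rw [hT, he0]
    field_simp
    ring
  have hT2 : emb (ec ρ z + d) he' T = algebraMap (RatFunc k) N RatFunc.X := by
    rw [hT, add_pow_char, hdp]
    have h1 : ec ρ z ^ p + d - (ec ρ z + d) - Bc ρ z = ec ρ z ^ p - ec ρ z - Bc ρ z := by ring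
    rw [h1, he0]
    field_simp
    ring
  have hbk : ∀ (e : N) (h' : Transcendental (fld k (xpt z)) e) (u : k),
      emb e h' (algebraMap (fld k (xpt z)) _ (algebraMap k (fld k (xpt z)) u)) =
        algebraMap (RatFunc k) N (RatFunc.C u) := by
    intro e h' u
    rw [AlgHom.commutes, hbase]
    rfl
  obtain ⟨τ, hτ⟩ := exists_lift (emb (ec ρ z) he).toRingHom (algebraMap (RatFunc k) N)
    (fun u => ⟨_, hbk _ he u⟩) ⟨T, hT1⟩
  have hτC : ∀ u : k, τ (RatFunc.C u) =
      algebraMap (fld k (xpt z)) _ (algebraMap k (fld k (xpt z)) u) := by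
    intro u
    refine (emb (ec ρ z) he).toRingHom.injective ?_
    exact (RingHom.congr_fun hτ (RatFunc.C u)).trans (hbk _ he u).symm
  have hτX : τ RatFunc.X = T := by
    refine (emb (ec ρ z) he).toRingHom.injective ?_
    exact (RingHom.congr_fun hτ RatFunc.X).trans hT1.symm
  have hτ2 : (emb (ec ρ z + d) he').toRingHom.comp τ = algebraMap (RatFunc k) N := by
    refine Pool.Agent.Helper17.KL.ratFunc_hom_ext (fun u => ?_) ?_
    · rw [RingHom.comp_apply, hτC]
      exact hbk _ he' u
    · rw [RingHom.comp_apply, hτX]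
      exact hT2
  refine key_red_eq h ?_
  rw [htr]
  refine ker_eq _ _ τ hτ hτ2 (Sum.elim (fun i => algebraMap (fld k (xpt z)) _
    ⟨xc z i, xc_mem_fld i⟩) (fun _ => RatFunc.X)) _ _ ?_ ?_
  · rintro (i | u)
    · exact AlgHom.commutes (emb (ec ρ z) he) _
    · exact emb_X _ he
  · rintro (i | u)
    · exact AlgHom.commutes (emb (ec ρ z + d) he') _
    · exact emb_X _ he'

/-- KA-9b. -/
theorem modA2 (k : Type) [Field k] (p a : ℕ) [Fact p.Prime] [CharP k p] {n : ℕ} (c : Fin n → k)
    (r : ℕ) (ha : a ≠ 0) : ModA2 k p a c r := by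
  intro N _ _ I z ρ hz hρ hcon hX hB h
  have hp := charP_alg (k := k) (p := p) N
  have hcast : ∀ u : ZMod p, (u.cast : N) ∈ ratf (RatFunc k) z := by
    intro u
    rw [← ZMod.natCast_val]
    exact natCast_mem _ _
  have hq : ∀ i j, xc z i / xc z j ∈ ratf (RatFunc k) z := fun i j =>
    IntermediateField.subset_adjoin _ _ ⟨i, j, rfl⟩
  have he0 := as_eq ha hz.mem ρ
  rw [hX, mul_zero, zero_add] at he0
  have htr := ec_tr hz hρ h
  set d : N := ((∑ i, ρ i * h i : ZMod p).cast : N) with hd
  have hdp : d ^ p = d := cast_pow_p _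
  have hdL : d ∈ ratf (RatFunc k) z := hcast _
  obtain ⟨j, hj⟩ : ∃ j, xc z j ≠ 0 := by
    by_contra hcon
    push Not at hcon
    refine hB ?_
    unfold Bc
    refine Finset.sum_eq_zero fun i _ => ?_
    rw [hcon i, mul_zero]
  have hβL : Bc ρ z / xc z j ∈ ratf (RatFunc k) z := by
    unfold Bc
    rw [Finset.sum_div]
    refine sum_mem fun i _ => ?_
    rw [mul_div_assoc]
    exact mul_mem (hcast _) (hq i j)
  have hqx : ∀ i, xc z i = xc z i / xc z j * xc z j := fun i => (div_mul_cancel₀ _ hj).symm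
  -- `e` is transcendental
  have he : Transcendental (ratf (RatFunc k) z) (ec ρ z) := by
    intro hal
    have h1 : IsAlgebraic (ratf (RatFunc k) z) (Bc ρ z) := by
      rw [← he0]
      exact (hal.pow p).sub hal
    have h2 : xc z j = Bc ρ z * (Bc ρ z / xc z j)⁻¹ := by
      field_simp
    have h3 : IsAlgebraic (ratf (RatFunc k) z) (xc z j) := by
      rw [h2]
      exact h1.mul (isAlgebraic_algebraMap (⟨_, hβL⟩ : ratf (RatFunc k) z)).inv
    have h4 : ∀ i, IsAlgebraic (ratf (RatFunc k) z) (xc z i) := by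
      intro i
      rw [hqx i]
      exact (isAlgebraic_algebraMap (⟨_, hq i j⟩ : ratf (RatFunc k) z)).mul h3
    have h5 : ∀ u : RatFunc k, IsAlgebraic (ratf (RatFunc k) z) (algebraMap (RatFunc k) N u) :=
      fun u => isAlgebraic_algebraMap (algebraMap (RatFunc k) (ratf (RatFunc k) z) u)
    have h6 : Algebra.trdeg (RatFunc k) (fld (RatFunc k) z) ≤
        Algebra.trdeg (RatFunc k) (ratf (RatFunc k) z) :=
      trdeg_le_of_alg (N := N) fun u => alg_of_mem hz.mem h5 h4 u.1 u.2
    rw [hz.dim] at h6
    have h7 : ((r : ℕ) : Cardinal.{0}) + 1 ≤ r := (add_le_add_left h6 1).trans hcon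
    exact absurd h7 (by exact_mod_cast Nat.not_succ_le_self r)
  have he' : Transcendental (ratf (RatFunc k) z) (ec ρ z + d) :=
    transcendental_add he (⟨d, hdL⟩ : ratf (RatFunc k) z)
  -- the generic system
  let W : Fin n ⊕ Unit → RatFunc (ratf (RatFunc k) z) := Sum.elim
    (fun i => algebraMap (ratf (RatFunc k) z) _ ⟨_, hq i j⟩ *
      ((RatFunc.X ^ p - RatFunc.X) * (algebraMap (ratf (RatFunc k) z) _ ⟨_, hβL⟩)⁻¹))
    (fun _ => RatFunc.X)
  have hW : ∀ (e : N) (h' : Transcendental (ratf (RatFunc k) z) e) (i : Fin n),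
      e ^ p - e = Bc ρ z → emb e h' (W (Sum.inl i)) = xc z i := by
    intro e h' i h1
    have h2 : emb e h' (W (Sum.inl i)) =
        xc z i / xc z j * ((e ^ p - e) * (Bc ρ z / xc z j)⁻¹) := by
      simp only [W, Sum.elim_inl, map_mul, map_sub, map_pow, map_inv₀, emb_X, AlgHom.commutes]
      rfl
    rw [h2, h1]
    field_simp
  have hbk : ∀ (e : N) (h' : Transcendental (ratf (RatFunc k) z) e),
      (emb e h').toRingHom.comp ((algebraMap (ratf (RatFunc k) z) _).comp
        (algebraMap (RatFunc k) (ratf (RatFunc k) z))) = algebraMap (RatFunc k) N := by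
    intro e h'
    refine RingHom.ext fun u => ?_
    exact AlgHom.commutes (emb e h') (algebraMap (RatFunc k) (ratf (RatFunc k) z) u)
  refine key_red_eq h ?_
  rw [htr]
  refine ker_eq _ _ _ (hbk _ he) (hbk _ he') W _ _ ?_ ?_
  · rintro (i | u)
    · exact hW _ he i he0
    · exact emb_X _ he
  · rintro (i | u)
    · refine hW _ he' i ?_
      rw [add_pow_char, hdp, ← he0]
      ring
    · exact emb_X _ he'

end Pool.Agent.Helper17.KA
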