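import Pool.Agent.Helper1.KA.GeneralB
import Pool.Agent.Helper19.KL.N5

set_option autoImplicit false
set_option linter.unusedSectionVars false

/-!
Project KA (MP_0b9e0b_ag), module KA-17: cycles of dimension `0`.
-/

namespace Pool.Agent.Helper17.KA

open Pool.Agent.Helper16
open Pool.Agent.Helper1.KL (Var VarF Key key fld spec cyc relations rat CH coef Idx)
open Pool.Agent.Helper1.KL (At0 key_eq_iff key_map restr restr_map key_restr fld_restr
  trdeg_fld_restr trdeg_fld_map essFiniteType_fld)
open Pool.Agent.Helper1.KA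
open Pool.Agent.Helper19.KL (homK at0_res one_add_X_ne rank_zero_of rank_le_one_of coef_ne spec_some)
open scoped Classical

section basic

variable {k : Type} [Field k] {p a n : ℕ} {c : Fin n → k}
  {τ : Fin n → Option (ZMod p)} {N N' : Type} [Field N] [Algebra k N] [Field N'] [Algebra k N']

/-- The condition on pairs in the definition of the group `CHY`. -/
abbrev PY (a : ℕ) (c : Fin n → k) (τ : Fin n → Option (ZMod p)) : VarF k (Fin n) :=
  fun N _ _ x f => YV a c τ N x ∨ (AV a c τ N x ∧ f = Bfun τ x)

/-- The point `x`, multiplied by `g`. -/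
def sc (φ : N →ₐ[k] N') (g : N') (x : Fin n → Option N) : Fin n → Option N' :=
  fun i => (x i).map fun u => φ u * g

theorem getD_sc (φ : N →ₐ[k] N') (g : N') (x : Fin n → Option N) (i : Fin n) :
    (sc φ g x i).getD 0 = φ ((x i).getD 0) * g := by
  unfold sc
  cases x i <;> simp

theorem sc_none (φ : N →ₐ[k] N') (g : N') (x : Fin n → Option N) (i : Fin n) :
    sc φ g x i = none ↔ x i = none := by
  unfold sc
  simp

theorem sc_some (φ : N →ₐ[k] N') (g : N') {x : Fin n → Option N} {i : Fin n} {u : N}
    (h : x i = some u) : sc φ g x i = some (φ u * g) := by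
  unfold sc
  rw [h]
  rfl

theorem av_sc {x : Fin n → Option N} (h : AV a c τ N x) (φ : N →ₐ[k] N') (g : N') :
    AV a c τ N' (sc φ g x) := by
  refine ⟨fun i => by rw [sc_none]; exact h.1 i, ?_⟩
  have h1 : ∀ i, (coef τ i : N') * algebraMap k N' (c i) * (sc φ g x i).getD 0 ^ a =
      φ ((coef τ i : N) * algebraMap k N (c i) * (x i).getD 0 ^ a) * g ^ a := by
    intro i
    rw [getD_sc]
    simp only [map_mul, map_natCast, map_pow, AlgHom.commutes]
    ring
  rw [Finset.sum_congr rfl fun i _ => h1 i, ← Finset.sum_mul, ← map_sum, h.2, map_zero, zero_mul]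

theorem Bfun_sc (x : Fin n → Option N) (φ : N →ₐ[k] N') (g : N') :
    Bfun τ (sc φ g x) = φ (Bfun τ x) * g := by
  unfold Bfun
  rw [map_sum, Finset.sum_mul]
  refine Finset.sum_congr rfl fun i _ => ?_
  rw [getD_sc]
  simp only [map_mul, map_natCast]
  ring

theorem yv_sc {x : Fin n → Option N} (h : YV a c τ N x) (φ : N →ₐ[k] N') (g : N') :
    YV a c τ N' (sc φ g x) :=
  ⟨av_sc h.1 φ g, by rw [Bfun_sc, h.2, map_zero, zero_mul]⟩

theorem sc_one (x : Fin n → Option N) (φ : N →ₐ[k] N') : sc φ 1 x = fun i => (x i).map φ := by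
  funext i
  unfold sc
  cases x i <;> simp

theorem av_map {x : Fin n → Option N} (h : AV a c τ N x) (φ : N →ₐ[k] N') :
    AV a c τ N' fun i => (x i).map φ := by
  rw [← sc_one]
  exact av_sc h φ 1

theorem yv_map {x : Fin n → Option N} (h : YV a c τ N x) (φ : N →ₐ[k] N') :
    YV a c τ N' fun i => (x i).map φ := by
  rw [← sc_one]
  exact yv_sc h φ 1

theorem av_of_map {x : Fin n → Option N} (φ : N →ₐ[k] N')
    (h : AV a c τ N' fun i => (x i).map φ) : AV a c τ N x := by
  refine ⟨fun i => by rw [h.1 i]; simp, ?_⟩
  have h1 := h.2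
  have h2 : ∀ i, (coef τ i : N') * algebraMap k N' (c i) * ((x i).map φ).getD 0 ^ a =
      φ ((coef τ i : N) * algebraMap k N (c i) * (x i).getD 0 ^ a) := by
    intro i
    have h3 : ((x i).map φ).getD 0 = φ ((x i).getD 0) := by
      cases x i <;> simp
    rw [h3]
    simp only [map_mul, map_natCast, map_pow, AlgHom.commutes]
  rw [Finset.sum_congr rfl fun i _ => h2 i, ← map_sum, map_eq_zero] at h1
  exact h1

theorem Bfun_map (x : Fin n → Option N) (φ : N →ₐ[k] N') :
    Bfun τ (fun i => (x i).map φ) = φ (Bfun τ x) := by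
  rw [← sc_one, Bfun_sc, mul_one]

theorem yv_of_map {x : Fin n → Option N} (φ : N →ₐ[k] N')
    (h : YV a c τ N' fun i => (x i).map φ) : YV a c τ N x := by
  refine ⟨av_of_map φ h.1, ?_⟩
  have h1 := h.2
  rwa [Bfun_map, map_eq_zero] at h1

theorem av_restr {x : Fin n → Option N} (h : AV a c τ N x) : AV a c τ (fld k x) (restr k x) := by
  refine av_of_map (fld k x).val ?_
  rw [restr_map]
  exact h

theorem yv_restr {x : Fin n → Option N} (h : YV a c τ N x) : YV a c τ (fld k x) (restr k x) := by
  refine yv_of_map (fld k x).val ?_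
  rw [restr_map]
  exact h

theorem getD_restr (x : Fin n → Option N) (i : Fin n) :
    (((restr k x) i).getD 0 : fld k x) = (x i).getD 0 := by
  have := congrFun (restr_map (F := k) x) i
  conv_rhs => rw [← this]
  cases (restr k x) i with
  | none => simp
  | some u => simp

end basic

section move

variable {k : Type} [Field k] {p a n : ℕ} {c : Fin n → k}
  {τ : Fin n → Option (ZMod p)} {N : Type} [Field N] [Algebra k N]

/-- A place over `k` is trivial on elements which are algebraic over `k`. -/
theorem triv_of_trdeg (h : Algebra.trdeg k N = 0) (v : Place k (RatFunc N)) {u : N} (hu : u ≠ 0) :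
    v.val (algebraMap N (RatFunc N) u) = 1 := by
  refine Place.val_eq_one_of_algebraic v ?_ ?_
  · rw [trdeg_eq_zero_iff] at h
    exact (h.isAlgebraic u).algebraMap
  · rw [Ne, map_eq_zero]
    exact hu

/-- The points of dimension `0` with a nonzero coordinate. -/
theorem mem_ne {x : Fin n → Option N} (hx : YV a c τ N x)
    (hr : Algebra.trdeg k (fld k x) = (0 : ℕ)) {i : Fin n} (hi : (x i).getD 0 ≠ 0) :
    Finsupp.single (key k x) 1 ∈ rat (YV a c τ) (PY a c τ) 0 := by
  rw [← key_restr]
  have hx' := yv_restr hx
  have hi' : ((restr k x) i).getD 0 ≠ 0 := by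
    intro h0
    have h1 := getD_restr (k := k) x i
    rw [h0] at h1
    exact hi h1.symm
  have hr' := hr
  rw [← trdeg_fld_restr] at hr'
  set y := restr k x with hy
  have hr0 : Algebra.trdeg k (fld k x) = 0 := by exact_mod_cast hr
  obtain ⟨u, hu⟩ : ∃ u, y i = some u := by
    cases h : y i with
    | none => rw [h] at hi'; exact absurd rfl hi'
    | some u => exact ⟨u, rfl⟩
  have hu0 : u ≠ 0 := by rwa [hu] at hi'
  refine homK (V := YV a c τ) (P := PY a c τ) (essFiniteType_fld x) hr hr'
    (fun N' _ _ φ => yv_map hx' φ)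
    (z' := sc (IsScalarTower.toAlgHom k (fld k x) (RatFunc (fld k x))) (1 + RatFunc.X) y)
    (f := RatFunc.X) (Or.inl (yv_sc hx' _ _)) RatFunc.X_ne_zero
    (fun j hj => (sc_none _ _ _ _).2 hj) (fun j e hj => ⟨_, sc_some _ _ hj, ?_⟩) ?_ le_rfl ?_
  · refine ⟨Polynomial.C e * (1 + Polynomial.X), 1, by simp, by simp, ?_⟩
    rw [map_mul, map_add, map_one, RatFunc.algebraMap_X, RatFunc.algebraMap_C, div_one]
    rfl
  · exact ⟨Polynomial.X, 1, by simp, by simp, by rw [RatFunc.algebraMap_X, map_one, div_one]⟩
  · intro v hv hw hwr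
    left
    have htriv := fun (e : fld k x) (he : e ≠ 0) => triv_of_trdeg hr0 v he
    have hwi : spec v (sc (IsScalarTower.toAlgHom k (fld k x) (RatFunc (fld k x)))
        (1 + RatFunc.X) y) i ≠ none := by
      intro h0
      have h1 := (hw.1.1 i).2 h0
      rw [hx'.1.1 i, hu] at h1
      exact absurd h1 (Option.some_ne_none _)
    have hpos : 0 < v.ord (RatFunc.X : RatFunc (fld k x)) := by
      rcases lt_or_gt_of_ne hv with hneg | hpos
      · exfalso
        have h1 := (v.ord_neg_iff RatFunc.X_ne_zero).1 hneg
        obtain ⟨h3, -⟩ := spec_some v (sc_some _ _ hu) hwi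
        have h4 : v.val (algebraMap (fld k x) (RatFunc (fld k x)) u * (1 + RatFunc.X)) ≤ 1 := h3
        rw [map_mul, htriv u hu0, one_mul,
          Valuation.map_add_eq_of_lt_right _ (by rwa [map_one])] at h4
        exact absurd h4 (not_le.2 h1)
      · exact hpos
    refine ⟨?_, hpos⟩
    have hX1 := (v.ord_pos_iff RatFunc.X_ne_zero).1 hpos
    obtain ⟨φ, hφ⟩ := HC.exists_resHomL (K := k) v (L := fld k x) (N := RatFunc (fld k x)) htriv
    have hspec : spec v (sc (IsScalarTower.toAlgHom k (fld k x) (RatFunc (fld k x)))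
        (1 + RatFunc.X) y) = fun j => (y j).map φ := by
      funext j
      cases hj : y j with
      | none =>
        unfold spec
        rw [(sc_none _ _ _ _).2 hj]
        rfl
      | some e =>
        have hat : At0 (algebraMap (fld k x) (RatFunc (fld k x)) e * (1 + RatFunc.X)) e := by
          refine ⟨Polynomial.C e * (1 + Polynomial.X), 1, by simp, by simp, ?_⟩
          rw [map_mul, map_add, map_one, RatFunc.algebraMap_X, RatFunc.algebraMap_C, div_one]
          rfl
        obtain ⟨h1, h2⟩ := at0_res v htriv hX1 φ hφ hat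
        unfold spec
        rw [sc_some _ _ hj]
        simp only [Option.bind_some, Option.map_some]
        change (if algebraMap (fld k x) (RatFunc (fld k x)) e * (1 + RatFunc.X) ∈ v.ring then
          some (v.res (algebraMap (fld k x) (RatFunc (fld k x)) e * (1 + RatFunc.X))) else none) = _
        rw [if_pos h1, h2]
    rw [hspec, key_map]

theorem aeval_zero' {σ : Type} (P : MvPolynomial σ k) :
    MvPolynomial.aeval (fun _ : σ => (0 : N)) P = algebraMap k N (MvPolynomial.constantCoeff P) := by
  induction P using MvPolynomial.induction_on with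
  | C u => simp
  | add P Q hP hQ => rw [map_add, map_add, map_add, hP, hQ]
  | mul_X P i hP => simp

/-- The origin. -/
theorem key_origin {M : Type} [Field M] [Algebra k M] {x : Fin n → Option N}
    {y : Fin n → Option M} (h : ∀ i, x i = none ↔ y i = none) (hx : ∀ i, (x i).getD 0 = 0)
    (hy : ∀ i, (y i).getD 0 = 0) : key k x = key k y := by
  rw [key_eq_iff]
  refine ⟨h, fun P => ?_⟩
  have h1 : (fun i => (x i).getD 0) = fun _ => (0 : N) := funext hx
  have h2 : (fun i => (y i).getD 0) = fun _ => (0 : M) := funext hy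
  rw [h1, h2, aeval_zero', aeval_zero', map_eq_zero_iff _ (algebraMap k N).injective,
    map_eq_zero_iff _ (algebraMap k M).injective]

/-- The origin is equivalent to zero, if there is a point of `AV` different from it. -/
theorem mem_origin {w : Fin n → Option N} (hw : AV a c τ N w)
    (hr : Algebra.trdeg k (fld k w) = (0 : ℕ)) {i : Fin n} (hi : (w i).getD 0 ≠ 0)
    {M : Type} [Field M] [Algebra k M] {x : Fin n → Option M} (hx : YV a c τ M x)
    (h0 : ∀ i, (x i).getD 0 = 0) :
    Finsupp.single (key k x) 1 ∈ rat (YV a c τ) (PY a c τ) 0 := by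
  have hw' := av_restr hw
  have hi' : ((restr k w) i).getD 0 ≠ 0 := by
    intro h0
    have h1 := getD_restr (k := k) w i
    rw [h0] at h1
    exact hi h1.symm
  have hr0 : Algebra.trdeg k (fld k w) = 0 := by exact_mod_cast hr
  set y := restr k w with hy
  obtain ⟨u, hu⟩ : ∃ u, y i = some u := by
    cases h : y i with
    | none => rw [h] at hi'; exact absurd rfl hi'
    | some u => exact ⟨u, rfl⟩
  have hu0 : u ≠ 0 := by rwa [hu] at hi'
  set ι := IsScalarTower.toAlgHom k (fld k w) (RatFunc (fld k w)) with hι
  -- the point at `s = 0`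
  set z : Fin n → Option (fld k w) := fun j => (y j).map fun _ => 0 with hz
  have hz0 : ∀ j, (z j).getD 0 = 0 := by
    intro j
    change ((y j).map fun _ => (0 : fld k w)).getD 0 = 0
    rcases y j with _ | u
    · rfl
    · rfl
  have hzn : ∀ j, z j = none ↔ y j = none := by
    intro j
    rw [hz]
    simp
  have hzY : YV a c τ (fld k w) z := by
    refine ⟨⟨fun j => by rw [hzn]; exact hw'.1 j, ?_⟩, ?_⟩
    · have h1 := hx.1.2
      by_cases ha : a = 0
      · have h2 := hw'.2
        rw [ha] at h2 ⊢
        simpa using h2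
      · simp [hz0, ha]
    · unfold Bfun
      simp [hz0]
  have hkey : key k x = key k z := by
    refine key_origin (fun j => ?_) h0 hz0
    rw [hzn, ← hw'.1 j, ← hx.1.1 j]
  rw [hkey]
  have hzr : Algebra.trdeg k (fld k z) = (0 : ℕ) := by
    have h1 : Algebra.trdeg k (fld k z) ≤ Algebra.trdeg k (fld k w) :=
      HC.trdeg_le_of_inj (fld k z).val Subtype.val_injective
    rw [hr0] at h1
    exact_mod_cast nonpos_iff_eq_zero.1 h1
  obtain ⟨e, he, hP⟩ : ∃ e : fld k w, e ≠ 0 ∧ PY a c τ (RatFunc (fld k w))
      (sc ι RatFunc.X y) (algebraMap (fld k w) _ e * RatFunc.X) := by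
    by_cases hB : Bfun τ y = 0
    · exact ⟨1, one_ne_zero, Or.inl (yv_sc ⟨hw', hB⟩ _ _)⟩
    · refine ⟨_, hB, Or.inr ⟨av_sc hw' _ _, ?_⟩⟩
      rw [Bfun_sc]
      rfl
  have he' : algebraMap (fld k w) (RatFunc (fld k w)) e ≠ 0 := by
    rw [Ne, map_eq_zero]
    exact he
  refine homK (V := YV a c τ) (P := PY a c τ) (essFiniteType_fld w) hr hzr
    (fun N' _ _ φ => yv_map hzY φ)
    (z' := sc ι RatFunc.X y)
    (f := algebraMap (fld k w) _ e * RatFunc.X) hP (mul_ne_zero he' RatFunc.X_ne_zero)
    (fun j hj => (sc_none _ _ _ _).2 ((hzn j).1 hj)) (fun j d hj => ?_) ?_ le_rfl ?_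
  · obtain ⟨d', hd', hd⟩ := Option.map_eq_some_iff.1 hj
    refine ⟨_, sc_some _ _ hd', ?_⟩
    rw [← hd]
    refine ⟨Polynomial.C d' * Polynomial.X, 1, by simp, by simp, ?_⟩
    rw [map_mul, map_one, RatFunc.algebraMap_X, RatFunc.algebraMap_C, div_one]
    rfl
  · refine ⟨Polynomial.C e * Polynomial.X, 1, by simp, by simp, ?_⟩
    rw [map_mul, map_one, RatFunc.algebraMap_X, RatFunc.algebraMap_C, div_one]
    rfl
  · intro v hv hv1 hv2
    left
    have htriv := fun (e : fld k w) (he : e ≠ 0) => triv_of_trdeg hr0 v he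
    have hval : v.val (algebraMap (fld k w) (RatFunc (fld k w)) e * RatFunc.X) =
        v.val RatFunc.X := by
      rw [map_mul, htriv e he, one_mul]
    have hwi : spec v (sc ι RatFunc.X y) i ≠ none := by
      intro h0
      have h1 := (hv1.1.1 i).2 h0
      rw [hw'.1 i, hu] at h1
      exact absurd h1 (Option.some_ne_none _)
    have hpos : 0 < v.ord (algebraMap (fld k w) (RatFunc (fld k w)) e * RatFunc.X) := by
      rcases lt_or_gt_of_ne hv with hneg | hpos
      · exfalso
        have h1 := (v.ord_neg_iff (mul_ne_zero he' RatFunc.X_ne_zero)).1 hneg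
        rw [hval] at h1
        obtain ⟨h3, -⟩ := spec_some v (sc_some _ _ hu) hwi
        have h4 : v.val (algebraMap (fld k w) (RatFunc (fld k w)) u * RatFunc.X) ≤ 1 := h3
        rw [map_mul, htriv u hu0, one_mul] at h4
        exact absurd h4 (not_le.2 h1)
      · exact hpos
    refine ⟨?_, hpos⟩
    have hX1 := (v.ord_pos_iff (mul_ne_zero he' RatFunc.X_ne_zero)).1 hpos
    rw [hval] at hX1
    obtain ⟨φ, hφ⟩ := HC.exists_resHomL (K := k) v (L := fld k w) (N := RatFunc (fld k w)) htriv
    have hspec : spec v (sc ι RatFunc.X y) = fun j => (z j).map φ := by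
      funext j
      cases hj : y j with
      | none =>
        have h5 : z j = none := (hzn j).2 hj
        unfold spec
        rw [(sc_none _ _ _ _).2 hj, h5]
        rfl
      | some d =>
        have hat : At0 (algebraMap (fld k w) (RatFunc (fld k w)) d * RatFunc.X) 0 := by
          refine ⟨Polynomial.C d * Polynomial.X, 1, by simp, by simp, ?_⟩
          rw [map_mul, map_one, RatFunc.algebraMap_X, RatFunc.algebraMap_C, div_one]
          rfl
        obtain ⟨h1, h2⟩ := at0_res v htriv hX1 φ hφ hat
        have h5 : z j = some 0 := by rw [hz]; simp only [hj]; rfl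
        unfold spec
        rw [sc_some _ _ hj, h5]
        simp only [Option.bind_some, Option.map_some]
        change (if algebraMap (fld k w) (RatFunc (fld k w)) d * RatFunc.X ∈ v.ring then
          some (v.res (algebraMap (fld k w) (RatFunc (fld k w)) d * RatFunc.X)) else none) = _
        rw [if_pos h1, h2]
    rw [hspec, key_map]

end move

section exist

variable {k : Type} [Field k] {p a n : ℕ} {c : Fin n → k} {τ : Fin n → Option (ZMod p)}

theorem coef_none {i : Fin n} (h : τ i = none) : coef τ i = 0 := by
  unfold coef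
  rw [h]
  simp

/-- There is a point of `AV` with a nonzero coordinate, if there are two finite coordinates. -/
theorem exists_av (ha : a ≠ 0) {i j : Fin n} (hij : i ≠ j) (hi : τ i ≠ none) (hj : τ j ≠ none) :
    ∃ w : Fin n → Option (AlgebraicClosure k), AV a c τ (AlgebraicClosure k) w ∧
      ∃ l, (w l).getD 0 ≠ 0 := by
  set K := AlgebraicClosure k with hK
  -- the coordinates
  obtain ⟨u, v, huv, hs⟩ : ∃ u v : K, (u ≠ 0 ∨ v ≠ 0) ∧
      (coef τ j : K) * algebraMap k K (c j) * u ^ a +
        (coef τ i : K) * algebraMap k K (c i) * v ^ a = 0 := by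
    by_cases h0 : (coef τ j : K) * algebraMap k K (c j) = 0
    · exact ⟨1, 0, Or.inl one_ne_zero, by rw [h0, zero_pow ha]; ring⟩
    · obtain ⟨u, hu⟩ := IsAlgClosed.exists_pow_nat_eq
        (-((coef τ i : K) * algebraMap k K (c i)) / ((coef τ j : K) * algebraMap k K (c j)))
        (Nat.pos_of_ne_zero ha)
      refine ⟨u, 1, Or.inr one_ne_zero, ?_⟩
      rw [hu, one_pow, mul_one, mul_div_cancel₀ _ h0]
      ring
  set g : Fin n → K := fun l => if l = j then u else if l = i then v else 0 with hg
  set w : Fin n → Option K := fun l => if τ l = none then none else some (g l) with hw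
  have hgd : ∀ l, (coef τ l : K) * algebraMap k K (c l) * (w l).getD 0 ^ a =
      (coef τ l : K) * algebraMap k K (c l) * g l ^ a := by
    intro l
    by_cases hl : τ l = none
    · rw [coef_none hl]
      simp
    · have : w l = some (g l) := if_neg hl
      rw [this]
      rfl
  refine ⟨w, ⟨fun l => ?_, ?_⟩, ?_⟩
  · by_cases hl : τ l = none
    · have : w l = none := if_pos hl
      exact ⟨fun _ => this, fun _ => hl⟩
    · have : w l = some (g l) := if_neg hl
      exact ⟨fun h => absurd h hl, fun h => by rw [this] at h; exact absurd h (Option.some_ne_none _)⟩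
  · rw [Finset.sum_congr rfl fun l _ => hgd l, ← hs]
    have hji : j ≠ i := hij.symm
    rw [← Finset.sum_subset (Finset.subset_univ ({j, i} : Finset (Fin n))) ?_,
      Finset.sum_pair hji]
    · have h1 : g j = u := if_pos rfl
      have h2 : g i = v := by
        change (if i = j then u else if i = i then v else 0) = v
        rw [if_neg hij, if_pos rfl]
      rw [h1, h2]
    · intro l _ hl
      rw [Finset.mem_insert, Finset.mem_singleton, not_or] at hl
      have h1 : g l = 0 := by
        change (if l = j then u else if l = i then v else 0) = 0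
        rw [if_neg hl.1, if_neg hl.2]
      rw [h1, zero_pow ha, mul_zero]
  · rcases huv with h | h
    · refine ⟨j, ?_⟩
      have h1 : w j = some (g j) := if_neg hj
      have h2 : g j = u := if_pos rfl
      rw [h1, h2]
      exact h
    · refine ⟨i, ?_⟩
      have h1 : w i = some (g i) := if_neg hi
      have h2 : g i = v := by
        change (if i = j then u else if i = i then v else 0) = v
        rw [if_neg hij, if_pos rfl]
      rw [h1, h2]
      exact h

/-- The group vanishes if there are two finite coordinates. -/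
theorem rank_zero_two (ha : a ≠ 0) {i j : Fin n} (hij : i ≠ j) (hi : τ i ≠ none)
    (hj : τ j ≠ none) : Module.rank ℚ (CHY a c τ 0) = 0 := by
  refine rank_zero_of fun N _ _ x hx hr => ?_
  by_cases h : ∃ l, (x l).getD 0 ≠ 0
  · obtain ⟨l, hl⟩ := h
    exact mem_ne hx hr hl
  · push Not at h
    obtain ⟨w, hw, l, hl⟩ := exists_av (c := c) ha hij hi hj
    refine mem_origin hw ?_ hl hx h
    rw [Nat.cast_zero, trdeg_eq_zero_iff]
    infer_instance

/-- The group has rank at most one if there is only one finite coordinate. -/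
theorem rank_zero_one [Fact p.Prime] [CharP k p] {i : Fin n} (hi : coef τ i ≠ 0)
    (h : ∀ j, j ≠ i → τ j = none) : Module.rank ℚ (CHY a c τ 0) ≤ 1 := by
  refine rank_le_one_of (key k fun l => if τ l = none then none else some (0 : k))
    fun N _ _ x hx hr => ?_
  refine Submodule.mem_sup_right ?_
  have hN : CharP N p := charP_of_injective_algebraMap (algebraMap k N).injective p
  have hx0 : ∀ l, (x l).getD 0 = 0 := by
    intro l
    by_cases hl : l = i
    · subst hl
      have h1 := hx.2
      unfold Bfun at h1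
      rw [Finset.sum_eq_single l] at h1
      · have h2 : (coef τ l : N) ≠ 0 := by
          rw [Ne, CharP.cast_eq_zero_iff N p]
          intro h3
          have h4 : coef τ l < p := ZMod.val_lt _
          exact absurd (Nat.le_of_dvd (Nat.pos_of_ne_zero hi) h3) (not_le.2 h4)
        exact (mul_eq_zero.1 h1).resolve_left h2
      · intro j _ hj
        rw [coef_none (h j hj), Nat.cast_zero, zero_mul]
      · intro h3
        exact absurd (Finset.mem_univ _) h3
    · rw [(hx.1.1 l).1 (h l hl)]
      rfl
  have hkey : key k x = key k fun l => if τ l = none then none else some (0 : k) := by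
    refine key_origin (fun l => ?_) hx0 fun l => ?_
    · rw [← hx.1.1 l]
      by_cases hl : τ l = none
      · simp [hl]
      · simp [hl]
    · by_cases hl : τ l = none
      · simp [hl]
      · simp [hl]
  rw [hkey]
  exact Submodule.mem_span_singleton_self _

end exist

/-- KA-17. The rank of the group of cycles of dimension `0` on `X`. -/
theorem rank_zero (k : Type) [Field k] (p a : ℕ) [Fact p.Prime] [CharP k p] (n : ℕ) (c : Fin n → k)
    (ha : a ≠ 0) (h : Main k p a n c 0) :
    Module.rank ℚ (CHX p a c 0) ≤ ((1 + n * (p - 1) : ℕ) : Cardinal.{0}) := by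
  classical
  have : NeZero p := ⟨(Fact.out : p.Prime).ne_zero⟩
  refine h.trans ?_
  rw [Nat.choose_zero_right, Nat.cast_add]
  refine add_le_add le_rfl ?_
  set T : Finset (Fin n → Option (ZMod p)) :=
    (Finset.univ ×ˢ Finset.univ.erase (0 : ZMod p)).image
      (fun q : Fin n × ZMod p => fun j => if j = q.1 then some q.2 else none) with hT
  have hcard : T.card ≤ n * (p - 1) := by
    refine Finset.card_image_le.trans ?_
    rw [Finset.card_product, Finset.card_univ, Fintype.card_fin,
      Finset.card_erase_of_mem (Finset.mem_univ _), Finset.card_univ, ZMod.card]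
  have h1 : (∑ τ : Fin n → Option (ZMod p) with τ ∈ Idx p n, Module.rank ℚ (CHY a c τ 0)) ≤
      ∑ τ : Fin n → Option (ZMod p), ((if τ ∈ T then 1 else 0 : ℕ) : Cardinal.{0}) := by
    rw [Finset.sum_filter]
    refine Finset.sum_le_sum fun τ _ => ?_
    by_cases hτ : τ ∈ Idx p n
    · rw [if_pos hτ]
      obtain ⟨i, hi⟩ := hτ
      by_cases h2 : ∀ j, j ≠ i → τ j = none
      · have h3 : τ ∈ T := by
          rw [hT, Finset.mem_image]
          obtain ⟨ρ, hρ⟩ := Option.ne_none_iff_exists'.1 (coef_ne hi)
          refine ⟨(i, ρ), ?_, ?_⟩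
          · rw [Finset.mem_product]
            refine ⟨Finset.mem_univ _, Finset.mem_erase.2 ⟨?_, Finset.mem_univ _⟩⟩
            rintro h0
            apply hi
            unfold coef
            rw [hρ]
            simp only [Option.getD_some]
            rw [show ρ = 0 from h0, ZMod.val_zero]
          · funext j
            by_cases hj : j = i
            · subst hj
              simp [hρ]
            · simp [hj, h2 j hj]
        rw [if_pos h3, Nat.cast_one]
        exact rank_zero_one hi h2
      · push Not at h2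
        obtain ⟨j, hj, hj'⟩ := h2
        rw [rank_zero_two ha hj.symm (coef_ne hi) hj']
        exact bot_le
    · rw [if_neg hτ]
      exact bot_le
  refine h1.trans ?_
  rw [← Nat.cast_sum, Nat.cast_le, ← Finset.card_filter, Finset.filter_mem_eq_inter,
    Finset.univ_inter]
  exact hcard

end Pool.Agent.Helper17.KA
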