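import Pool.Agent.Helper17.KA.Three

set_option autoImplicit false
set_option linter.unusedSectionVars false

/-!
Project KA (MP_0b9e0b_ag), cycles of dimension `1`: the number of the points of `YV a c τ` over
finite fields, three finite coordinates with nonzero coefficients.
-/

namespace Pool.Agent.Helper17.KA

open Pool.Agent.Helper16
open Pool.Agent.Helper1.KL (Var VarF Key key fld spec cyc relations rat CH coef Idx)
open Pool.Agent.Helper1.KL (At0 key_eq_iff key_map restr restr_map key_restr fld_restr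
  trdeg_fld_restr trdeg_fld_map essFiniteType_fld fld_eq_range IT exists_hom_of_key getD_map)
open Pool.Agent.Helper1.KA
open Pool.Agent.Helper19.KL (IsCone transc_of coef_ne mem_IT cz cz_some cz_none key_cone)

section cz

variable {k : Type} [Field k] {n : ℕ} {E κ : Type} [Field E] [Algebra k E] [Field κ]
  [Algebra k κ]

theorem getD_cz (d : Fin n → Option E) (o : Fin n) :
    (cz d o).getD 0 = algebraMap E (RatFunc E) ((d o).getD 0) * RatFunc.X := by
  unfold cz
  cases d o <;> simp

theorem cz_none_iff (d : Fin n → Option E) (o : Fin n) : cz d o = none ↔ d o = none := by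
  unfold cz
  simp

theorem transcX (k : Type) [Field k] (E : Type) [Field E] [Algebra k E] :
    Transcendental k (RatFunc.X : RatFunc E) := by
  intro h1
  exact RatFunc.transcendental_X (h1.extendScalars (algebraMap k E).injective)

theorem hom_of_key {d : Fin n → Option E} {D : Fin n → Option κ} {m : Fin n}
    (hdm : d m = some 1) (htop : fld k d = ⊤) (h : key k (cz d) = key k (cz D)) :
    ∃ (φ : E →ₐ[k] κ) (g : κˣ), D = sc φ g d := by
  obtain ⟨Φ, hΦ⟩ := exists_hom_of_key h
  have hgd : ∀ o, Φ ((restr k (cz d) o).getD 0) = (cz D o).getD 0 := by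
    intro o
    rw [← hΦ o, getD_map]
  have hval : ∀ o, (((restr k (cz d) o).getD 0 : fld k (cz d)) : RatFunc E) =
      (cz d o).getD 0 := by
    intro o
    have h1 := congrFun (restr_map (F := k) (cz d)) o
    rw [← h1, getD_map]
    rfl
  have hXE : (RatFunc.X : RatFunc E) ≠ 0 := RatFunc.X_ne_zero
  have hXκ : (RatFunc.X : RatFunc κ) ≠ 0 := RatFunc.X_ne_zero
  have hm0 : ((restr k (cz d) m).getD 0 : fld k (cz d)) ≠ 0 := by
    intro h0
    have h1 := hval m
    rw [h0, getD_cz, hdm] at h1
    simp only [ZeroMemClass.coe_zero, Option.getD_some, map_one, one_mul] at h1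
    exact hXE h1.symm
  have hDm : (D m).getD 0 ≠ 0 := by
    intro h0
    have h1 := hgd m
    rw [getD_cz, h0, map_zero, zero_mul, map_eq_zero] at h1
    exact hm0 h1
  set u : Fin n → fld k (cz d) := fun o =>
    (restr k (cz d) o).getD 0 / (restr k (cz d) m).getD 0 with hu
  have hu1 : ∀ o, ((u o : fld k (cz d)) : RatFunc E) =
      algebraMap E (RatFunc E) ((d o).getD 0) := by
    intro o
    rw [hu]
    change (((restr k (cz d) o).getD 0 : fld k (cz d)) : RatFunc E) /
      (((restr k (cz d) m).getD 0 : fld k (cz d)) : RatFunc E) = _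
    rw [hval, hval, getD_cz, getD_cz, hdm]
    simp only [Option.getD_some, map_one, one_mul]
    field_simp
  have hu2 : ∀ o, Φ (u o) = algebraMap κ (RatFunc κ) ((D o).getD 0 * ((D m).getD 0)⁻¹) := by
    intro o
    rw [hu]
    simp only [map_div₀]
    rw [hgd, hgd, getD_cz, getD_cz, map_mul, map_inv₀]
    have h1 : algebraMap κ (RatFunc κ) ((D m).getD 0) ≠ 0 := by rwa [Ne, map_eq_zero]
    field_simp
  set D' : Fin n → Option κ := sc (AlgHom.id k κ) ((D m).getD 0)⁻¹ D with hD'
  have hkey : key k d = key k D' := by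
    rw [key_eq_iff]
    refine ⟨fun j => ?_, fun P => ?_⟩
    · rw [hD', sc_none, ← cz_none_iff d, ← cz_none_iff D]
      exact ((key_eq_iff _ _).1 h).1 j
    · have h1 : algebraMap E (RatFunc E) (MvPolynomial.aeval (fun j => (d j).getD 0) P) =
          ((MvPolynomial.aeval u P : fld k (cz d)) : RatFunc E) := by
        have e1 := MvPolynomial.comp_aeval_apply (R := k)
          (IsScalarTower.toAlgHom k E (RatFunc E)) (f := fun j => (d j).getD 0) (p := P)
        have e2 := MvPolynomial.comp_aeval_apply (R := k) (fld k (cz d)).val (f := u) (p := P)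
        refine (e1.trans ?_).trans e2.symm
        congr 1
        congr 1
        funext j
        exact (hu1 j).symm
      have h2 : algebraMap κ (RatFunc κ) (MvPolynomial.aeval (fun j => (D' j).getD 0) P) =
          Φ (MvPolynomial.aeval u P) := by
        have e1 := MvPolynomial.comp_aeval_apply (R := k)
          (IsScalarTower.toAlgHom k κ (RatFunc κ)) (f := fun j => (D' j).getD 0) (p := P)
        have e2 := MvPolynomial.comp_aeval_apply (R := k) Φ (f := u) (p := P)
        refine (e1.trans ?_).trans e2.symm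
        congr 1
        congr 1
        funext j
        rw [hu2 j, hD', getD_sc]
        rfl
      rw [← map_eq_zero (algebraMap E (RatFunc E)), h1, ← map_eq_zero (algebraMap κ (RatFunc κ)),
        h2, map_eq_zero, ZeroMemClass.coe_eq_zero]
  obtain ⟨φ0, hφ0⟩ := exists_hom_of_key hkey
  have hmem : ∀ e : E, e ∈ fld k d := fun e => by rw [htop]; trivial
  let φ : E →ₐ[k] κ := φ0.comp
    ((IntermediateField.equivOfEq htop.symm).toAlgHom.comp IntermediateField.topEquiv.symm.toAlgHom)
  have hφ : ∀ e : fld k d, φ (e : E) = φ0 e := by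
    intro e
    rfl
  refine ⟨φ, Units.mk0 _ hDm, ?_⟩
  funext o
  have h1 := congrFun (restr_map (F := k) d) o
  have h2 : (d o).map φ = D' o := by
    rw [← h1, ← hφ0 o, Option.map_map]
    rfl
  change D o = (d o).map fun u => φ u * (D m).getD 0
  have h3 : (d o).map (fun u => φ u * (D m).getD 0) = (D' o).map fun u => u * (D m).getD 0 := by
    rw [← h2, Option.map_map]
    rfl
  rw [h3, hD']
  unfold sc
  rw [Option.map_map]
  have h4 : (fun u => u * (D m).getD 0) ∘ (fun u => (AlgHom.id k κ) u * ((D m).getD 0)⁻¹) =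
      (id : κ → κ) := by
    funext u
    simp only [Function.comp_apply, AlgHom.coe_id, id_eq]
    rw [inv_mul_cancel_right₀ hDm]
  rw [h4, Option.map_id]
  rfl

theorem key_of_hom [Algebra.IsAlgebraic k E] {d : Fin n → Option E} (φ : E →ₐ[k] κ) (g : κˣ) :
    key k (cz d) = key k (cz (sc φ g d)) := by
  refine key_cone (IsScalarTower.toAlgHom k E (RatFunc E))
    ((IsScalarTower.toAlgHom k κ (RatFunc κ)).comp φ) (fun o => (d o).getD 0)
    (a' := algebraMap κ (RatFunc κ) g * RatFunc.X) (transcX k E) ?_ (getD_cz d) ?_ ?_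
  · intro h1
    have h2 : IsAlgebraic κ (algebraMap κ (RatFunc κ) g * RatFunc.X) :=
      h1.extendScalars (algebraMap k κ).injective
    have h3 := (isAlgebraic_algebraMap (A := RatFunc κ) (g : κ)⁻¹).mul h2
    have h4 : algebraMap κ (RatFunc κ) (g : κ)⁻¹ * (algebraMap κ (RatFunc κ) g * RatFunc.X) =
        RatFunc.X := by
      rw [← mul_assoc, ← map_mul, inv_mul_cancel₀ g.ne_zero, map_one, one_mul]
    rw [h4] at h3
    exact RatFunc.transcendental_X h3
  · intro o
    rw [getD_cz, getD_sc, map_mul]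
    simp only [AlgHom.comp_apply]
    exact mul_assoc _ _ _
  · intro o
    rw [cz_none_iff, cz_none_iff, sc_none]

theorem sc_inj {d : Fin n → Option E} {m : Fin n} (hdm : d m = some 1) (htop : fld k d = ⊤)
    {φ φ' : E →ₐ[k] κ} {g g' : κˣ} (h : sc φ (g : κ) d = sc φ' g' d) : φ = φ' ∧ g = g' := by
  have hg : (g : κ) = g' := by
    have h1 := congrFun h m
    rw [sc_some _ _ hdm, sc_some _ _ hdm, map_one, map_one, one_mul, one_mul,
      Option.some.injEq] at h1
    exact h1
  refine ⟨?_, Units.ext hg⟩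
  have h1 : ∀ o, φ ((d o).getD 0) = φ' ((d o).getD 0) := by
    intro o
    have h2 := congrArg (fun D => (D o).getD 0) h
    simp only [getD_sc] at h2
    rw [hg] at h2
    exact mul_right_cancel₀ g'.ne_zero h2
  have h2 : IntermediateField.adjoin k (Set.range fun o => (d o).getD 0) = ⊤ := by
    rw [← fld_eq_range, htop]
  have h3 : ∀ e : E, φ e = φ' e := by
    intro e
    have he : e ∈ IntermediateField.adjoin k (Set.range fun o => (d o).getD 0) := by
      rw [h2]
      trivial
    induction he using IntermediateField.adjoin_induction with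
    | mem x hx =>
      obtain ⟨o, rfl⟩ := hx
      exact h1 o
    | algebraMap x => rw [φ.commutes, φ'.commutes]
    | add x y _ _ hx hy => rw [map_add, map_add, hx, hy]
    | inv x _ hx => rw [map_inv₀, map_inv₀, hx]
    | mul x y _ _ hx hy => rw [map_mul, map_mul, hx, hy]
  exact AlgHom.ext h3

end cz

section closed

variable {k : Type} [Field k] {p a : ℕ} [Fact p.Prime] [CharP k p] {n : ℕ} {c : Fin n → k}
  {τ : Fin n → Option (ZMod p)}

/-- The finite extension generated by the quotients of the coordinates. -/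
theorem key_data (ha : 2 ≤ a) (hak : (a : k) ≠ 0) (hc : ∀ i, c i ≠ 0)
    (hall : ∀ i ∈ IT τ, coef τ i ≠ 0) (hcard : (IT τ).card = 3) {Q : Key k (Fin n)}
    (hQ : Q ∈ KK a c τ) : ∃ (E : Type) (_ : Field E) (_ : Algebra k E)
      (_ : FiniteDimensional k E) (d : Fin n → Option E) (m : Fin n),
      YV a c τ E d ∧ d m = some 1 ∧ fld k d = ⊤ ∧ Q = key k (cz d) := by
  obtain ⟨N, _, _, x, hx, hr, rfl⟩ := hQ
  obtain ⟨m, κ, _, _, _, φ, d, am, hd, hdm, ham, hxd⟩ :=
    cone_data hx hr (cone_three ha hak hc hall hcard hx)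
  have hnone : ∀ o, restr k d o = none ↔ d o = none := by
    intro o
    conv_rhs => rw [← congrFun (restr_map (F := k) d) o]
    simp
  have hval : ∀ o, (((restr k d o).getD 0 : fld k d) : κ) = (d o).getD 0 := by
    intro o
    have h1 := congrFun (restr_map (F := k) d) o
    rw [← h1, getD_map]
    rfl
  refine ⟨fld k d, inferInstance, inferInstance, inferInstance, restr k d, m, yv_restr hd, ?_,
    fld_restr d, ?_⟩
  · obtain ⟨e, he⟩ := Option.ne_none_iff_exists'.1
      fun h0 => absurd ((hnone m).1 h0) (by rw [hdm]; exact Option.some_ne_none _)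
    have h1 := hval m
    rw [he, hdm] at h1
    rw [he]
    congr 1
    exact Subtype.ext h1
  · refine key_cone (φ.comp (fld k d).val)
      (IsScalarTower.toAlgHom k (fld k d) (RatFunc (fld k d)))
      (fun o => (restr k d o).getD 0) ham (transcX k (fld k d)) ?_ (getD_cz _) ?_
    · intro o
      rw [hxd, AlgHom.comp_apply]
      congr 2
      exact (hval o).symm
    · intro o
      rw [cz_none_iff, hnone, ← hx.1.1, ← hd.1.1]

theorem transc_mul_X {κ : Type} [Field κ] [Algebra k κ] {g : κ} (hg : g ≠ 0) :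
    Transcendental k (algebraMap κ (RatFunc κ) g * RatFunc.X) := by
  intro h1
  have h2 : IsAlgebraic κ (algebraMap κ (RatFunc κ) g * RatFunc.X) :=
    h1.extendScalars (algebraMap k κ).injective
  have h3 := (isAlgebraic_algebraMap (A := RatFunc κ) g⁻¹).mul h2
  have h4 : algebraMap κ (RatFunc κ) g⁻¹ * (algebraMap κ (RatFunc κ) g * RatFunc.X) =
      RatFunc.X := by
    rw [← mul_assoc, ← map_mul, inv_mul_cancel₀ hg, map_one, one_mul]
  rw [h4] at h3
  exact RatFunc.transcendental_X h3

theorem cz_mem_KK {κ : Type} [Field κ] [Algebra k κ] [Algebra.IsAlgebraic k κ]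
    {D : Fin n → Option κ} (hD : YV a c τ κ D) (h0 : ∃ o, (D o).getD 0 ≠ 0) :
    key k (cz D) ∈ KK a c τ := by
  refine ⟨RatFunc κ, inferInstance, inferInstance, cz D,
    yv_sc hD (IsScalarTower.toAlgHom k κ (RatFunc κ)) RatFunc.X, ?_, rfl⟩
  obtain ⟨o, ho⟩ := h0
  have h1 : Algebra.trdeg k κ = ((0 : ℕ) : Cardinal) := by
    rw [Nat.cast_zero, trdeg_eq_zero_iff]
    infer_instance
  have h2 := HC.trdeg_ratFuncL (K := k) (L := κ) h1
  have h3 : Algebra.trdeg k (fld k (cz D)) ≤ Algebra.trdeg k (RatFunc κ) :=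
    HC.trdeg_le_of_inj (fld k (cz D)).val (RingHom.injective _)
  have h4 : Algebra.trdeg k (fld k (cz D)) ≠ 0 := by
    rw [Ne, trdeg_eq_zero_iff]
    intro h5
    have h6 : IsAlgebraic k (⟨_, Helper1.KL.getD_mem_fld (cz D) o⟩ : fld k (cz D)) :=
      h5.isAlgebraic _
    have h7 := h6.algHom (fld k (cz D)).val
    have h8 : (fld k (cz D)).val ⟨_, Helper1.KL.getD_mem_fld (cz D) o⟩ =
        algebraMap κ (RatFunc κ) ((D o).getD 0) * RatFunc.X := getD_cz D o
    rw [h8] at h7
    exact transc_mul_X ho h7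
  rw [h2, Nat.cast_zero, zero_add] at h3
  rw [Nat.cast_one]
  exact le_antisymm h3 (Cardinal.one_le_iff_ne_zero.2 h4)

/-- The data of a one-dimensional subscheme. -/
structure Dat {k : Type} [Field k] (a : ℕ) {p n : ℕ} (c : Fin n → k)
    (τ : Fin n → Option (ZMod p)) (Q : Key k (Fin n)) where
  E : Type
  [fE : Field E]
  [aE : Algebra k E]
  [dE : FiniteDimensional k E]
  d : Fin n → Option E
  m : Fin n
  hd : YV a c τ E d
  hdm : d m = some 1
  htop : fld k d = ⊤
  hQ : Q = key k (cz d)

attribute [instance] Dat.fE Dat.aE Dat.dE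

theorem nonempty_dat (ha : 2 ≤ a) (hak : (a : k) ≠ 0) (hc : ∀ i, c i ≠ 0)
    (hall : ∀ i ∈ IT τ, coef τ i ≠ 0) (hcard : (IT τ).card = 3) {Q : Key k (Fin n)}
    (hQ : Q ∈ KK a c τ) : Nonempty (Dat a c τ Q) := by
  obtain ⟨E, _, _, _, d, m, h1, h2, h3, h4⟩ := key_data ha hak hc hall hcard hQ
  exact ⟨⟨E, d, m, h1, h2, h3, h4⟩⟩

/-- The points other than the origin. -/
theorem card_algHom [Finite k] (E : Type) [Field E] [Algebra k E] (κ : Type)
    [Field κ] [Algebra k κ] [Finite κ] : Nat.card (E →ₐ[k] κ) =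
      if Module.finrank k E ∣ Module.finrank k κ then Module.finrank k E else 0 := by
  split_ifs with h
  · exact FiniteField.natCard_algHom_of_finrank_dvd h
  · have : IsEmpty (E →ₐ[k] κ) := by
      rw [← not_nonempty_iff]
      exact fun h1 => h (FiniteField.nonempty_algHom_iff_finrank_dvd.1 h1)
    exact Nat.card_of_isEmpty

theorem card_points [Finite k] (ha : 2 ≤ a) (hak : (a : k) ≠ 0) (hc : ∀ i, c i ≠ 0)
    (hall : ∀ i ∈ IT τ, coef τ i ≠ 0) (hcard : (IT τ).card = 3) :
    ∃ deg : Key k (Fin n) → ℕ, (∀ Q ∈ KK a c τ, 0 < deg Q) ∧ ∀ (κ : Type) [Field κ] [Finite κ]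
      [Algebra k κ], Nat.card {D : Fin n → Option κ // YV a c τ κ D} =
        1 + (Nat.card κ - 1) * ∑ Q ∈ (finite_KK ha hak hc hall hcard).toFinset,
          if deg Q ∣ Module.finrank k κ then deg Q else 0 := by
  classical
  have hfinKK := finite_KK (c := c) (a := a) ha hak hc hall hcard
  let dat : ∀ Q : KK a c τ, Dat a c τ Q.1 := fun Q =>
    Classical.choice (nonempty_dat ha hak hc hall hcard Q.2)
  refine ⟨fun Q => if h : Q ∈ KK a c τ then Module.finrank k (dat ⟨Q, h⟩).E else 0, ?_, ?_⟩
  · intro Q hQ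
    simp only [dif_pos hQ]
    exact Module.finrank_pos
  intro κ _ _ _
  have halg : Algebra.IsAlgebraic k κ := by
    have : Module.Finite k κ := Module.Finite.of_finite
    infer_instance
  let org : Fin n → Option κ := fun o => if τ o = none then none else some 0
  have horg : YV a c τ κ org := by
    refine ⟨⟨fun o => ?_, ?_⟩, ?_⟩
    · simp only [org]
      split_ifs with h <;> simp [h]
    · refine Finset.sum_eq_zero fun o _ => ?_
      simp only [org]
      split_ifs <;> simp [show a ≠ 0 by omega]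
    · unfold Bfun
      refine Finset.sum_eq_zero fun o _ => ?_
      simp only [org]
      split_ifs <;> simp
  let F : Option (Σ Q : KK a c τ, ((dat Q).E →ₐ[k] κ) × κˣ) →
      {D : Fin n → Option κ // YV a c τ κ D} := fun w => match w with
    | none => ⟨org, horg⟩
    | some ⟨Q, φ, g⟩ => ⟨sc φ (g : κ) (dat Q).d, yv_sc (dat Q).hd φ g⟩
  have hne : ∀ (Q : KK a c τ) (φ : (dat Q).E →ₐ[k] κ) (g : κˣ),
      sc φ (g : κ) (dat Q).d ≠ org := by
    intro Q φ g h
    have h1 := congrArg (fun D => (D (dat Q).m).getD 0) h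
    simp only [getD_sc, (dat Q).hdm, Option.getD_some, map_one, one_mul] at h1
    have h2 : (org (dat Q).m).getD 0 = 0 := by
      simp only [org]
      split_ifs <;> simp
    rw [h2] at h1
    exact g.ne_zero h1
  have hF : Function.Bijective F := by
    constructor
    · rintro (_ | ⟨Q, φ, g⟩) (_ | ⟨Q', φ', g'⟩) h
      · rfl
      · exact absurd (congrArg Subtype.val h).symm (hne Q' φ' g')
      · exact absurd (congrArg Subtype.val h) (hne Q φ g)
      · have h1 : sc φ (g : κ) (dat Q).d = sc φ' (g' : κ) (dat Q').d := congrArg Subtype.val h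
        have hQ : Q = Q' := by
          apply Subtype.ext
          rw [(dat Q).hQ, (dat Q').hQ, key_of_hom φ g, key_of_hom φ' g', h1]
        subst hQ
        obtain ⟨h2, h3⟩ := sc_inj (dat Q).hdm (dat Q).htop h1
        rw [h2, h3]
    · rintro ⟨D, hD⟩
      by_cases h0 : ∃ o, (D o).getD 0 ≠ 0
      · have hK := cz_mem_KK hD h0
        obtain ⟨φ, g, h1⟩ := hom_of_key (dat ⟨_, hK⟩).hdm (dat ⟨_, hK⟩).htop
          (dat ⟨_, hK⟩).hQ.symm
        exact ⟨some ⟨⟨_, hK⟩, φ, g⟩, Subtype.ext h1.symm⟩
      · push Not at h0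
        refine ⟨none, Subtype.ext ?_⟩
        funext o
        change org o = D o
        simp only [org]
        split_ifs with ho
        · exact ((hD.1.1 o).1 ho).symm
        · cases h : D o with
          | none => exact absurd ((hD.1.1 o).2 h) ho
          | some e =>
            have h2 := h0 o
            rw [h] at h2
            rw [show e = 0 from h2]
  have hfinS : Fintype (KK a c τ) := hfinKK.fintype
  have hfinH : ∀ Q : KK a c τ, Finite ((dat Q).E →ₐ[k] κ) := fun Q => inferInstance
  rw [← Nat.card_congr (Equiv.ofBijective F hF), Finite.card_option, Nat.card_sigma, add_comm]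
  congr 1
  have h1 : ∀ Q : KK a c τ, Nat.card (((dat Q).E →ₐ[k] κ) × κˣ) = (Nat.card κ - 1) *
      if Module.finrank k (dat Q).E ∣ Module.finrank k κ then Module.finrank k (dat Q).E
        else 0 := by
    intro Q
    rw [Nat.card_prod, card_algHom, Nat.card_units, mul_comm]
  rw [Finset.sum_congr rfl fun Q _ => h1 Q, ← Finset.mul_sum]
  congr 1
  refine Eq.trans (Finset.sum_congr rfl fun Q _ => ?_)
    (Finset.sum_subtype (p := fun Q => Q ∈ KK a c τ) hfinKK.toFinset
      (fun Q => hfinKK.mem_toFinset) _).symm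
  simp only [dif_pos Q.2]

end closed

end Pool.Agent.Helper17.KA
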