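import Pool.Agent.Helper17.KA.CodimDefs
import Pool.Agent.HC.Tdeg

set_option autoImplicit false
set_option linter.unusedSectionVars false

/-!
Project KA (MP_0b9e0b_ag), cycles of codimension one and two: the dimension of `YV a c τ`, and its
points of maximal dimension.
-/

namespace Pool.Agent.Helper17.KA

open Pool.Agent.Helper16
open Pool.Agent.Helper1.KL (Key key fld coef IT key_eq_iff fld_eq_range)
open Pool.Agent.Helper1.KA
open Pool.Agent.Helper19.KL (coef_ne mem_IT)

section gen

variable {k : Type} [Field k] {n : ℕ} {N N' : Type} [Field N] [Algebra k N] [Field N']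
  [Algebra k N']

/-- The key of a point whose coordinates are given polynomials in algebraically independent
elements. -/
theorem key_unique_gen {β : Type} (L : Fin n → MvPolynomial β k) {x : Fin n → Option N}
    {x' : Fin n → Option N'} {y : β → N} {y' : β → N'} (hy : AlgebraicIndependent k y)
    (hy' : AlgebraicIndependent k y') (hx : ∀ o, (x o).getD 0 = MvPolynomial.aeval y (L o))
    (hx' : ∀ o, (x' o).getD 0 = MvPolynomial.aeval y' (L o)) (hn : ∀ o, x o = none ↔ x' o = none) :
    key k x = key k x' := by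
  rw [key_eq_iff]
  refine ⟨hn, fun P => ?_⟩
  have h1 : MvPolynomial.aeval (fun j => (x j).getD 0) P =
      MvPolynomial.aeval y (MvPolynomial.bind₁ L P) := by
    rw [MvPolynomial.aeval_bind₁]
    congr 1
    congr 1
    funext j
    exact hx j
  have h2 : MvPolynomial.aeval (fun j => (x' j).getD 0) P =
      MvPolynomial.aeval y' (MvPolynomial.bind₁ L P) := by
    rw [MvPolynomial.aeval_bind₁]
    congr 1
    congr 1
    funext j
    exact hx' j
  rw [h1, h2, map_eq_zero_iff _ hy, map_eq_zero_iff _ hy']

end gen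

section dim

variable {k : Type} [Field k] {p a : ℕ} [Fact p.Prime] [CharP k p] {n : ℕ} {c : Fin n → k}
  {τ : Fin n → Option (ZMod p)} {N N' : Type} [Field N] [Algebra k N] [Field N'] [Algebra k N']

/-- The coordinates as polynomials in all finite coordinates but one. -/
noncomputable def LL (k : Type) [Field k] {p n : ℕ} (τ : Fin n → Option (ZMod p)) (i : Fin n) :
    Fin n → MvPolynomial {o // o ∈ (IT τ).erase i} k := fun o =>
  if h : o ∈ (IT τ).erase i then MvPolynomial.X ⟨o, h⟩ else
    if o = i then -∑ b : {o // o ∈ (IT τ).erase i},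
      MvPolynomial.C ((coef τ b : k) / (coef τ i : k)) * MvPolynomial.X b else 0

theorem aeval_LL {E : Type} [CommRing E] [Algebra k E] {i : Fin n} (hi : coef τ i ≠ 0)
    {w : Fin n → E} (hw : ∀ o, τ o = none → w o = 0)
    (hs : ∑ o, algebraMap k E (coef τ o : k) * w o = 0) (o : Fin n) :
    MvPolynomial.aeval (fun b : {o // o ∈ (IT τ).erase i} => w b) (LL k τ i o) = w o := by
  classical
  unfold LL
  by_cases h : o ∈ (IT τ).erase i
  · rw [dif_pos h, MvPolynomial.aeval_X]
  rw [dif_neg h]
  by_cases hoi : o = i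
  · subst hoi
    rw [if_pos rfl, map_neg, map_sum]
    have hik : (coef τ o : k) ≠ 0 := coef_cast_ne k k hi
    have h1 : ∑ b : {o' // o' ∈ (IT τ).erase o}, algebraMap k E (coef τ b : k) * w b =
        ∑ o' ∈ (IT τ).erase o, algebraMap k E (coef τ o' : k) * w o' :=
      Finset.sum_coe_sort ((IT τ).erase o) fun o' => algebraMap k E (coef τ o' : k) * w o'
    have h2 : ∑ o' ∈ (IT τ).erase o, algebraMap k E (coef τ o' : k) * w o' =
        ∑ o' ∈ Finset.univ.erase o, algebraMap k E (coef τ o' : k) * w o' := by
      refine Finset.sum_subset (Finset.erase_subset_erase _ (Finset.subset_univ _))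
        fun o' ho' ho'' => ?_
      have h3 : τ o' = none := by
        by_contra h4
        exact ho'' (Finset.mem_erase.2 ⟨(Finset.mem_erase.1 ho').1, mem_IT.2 h4⟩)
      rw [hw o' h3, mul_zero]
    have h3 := Finset.add_sum_erase Finset.univ (fun o' => algebraMap k E (coef τ o' : k) * w o')
      (Finset.mem_univ o)
    rw [hs, ← h2, ← h1] at h3
    have h4 : ∑ b : {o' // o' ∈ (IT τ).erase o}, MvPolynomial.aeval
        (fun b : {o' // o' ∈ (IT τ).erase o} => w b)
        (MvPolynomial.C ((coef τ b : k) / (coef τ o : k)) * MvPolynomial.X b) =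
        algebraMap k E ((coef τ o : k)⁻¹) *
          ∑ b : {o' // o' ∈ (IT τ).erase o}, algebraMap k E (coef τ b : k) * w b := by
      rw [Finset.mul_sum]
      refine Finset.sum_congr rfl fun b _ => ?_
      rw [map_mul, MvPolynomial.aeval_C, MvPolynomial.aeval_X, div_eq_mul_inv, map_mul]
      ring
    rw [h4, eq_neg_of_add_eq_zero_right h3, mul_neg, neg_neg, ← mul_assoc, ← map_mul,
      inv_mul_cancel₀ hik, map_one, one_mul]
  · rw [if_neg hoi, map_zero]
    have h3 : τ o = none := by
      by_contra h4
      exact h (Finset.mem_erase.2 ⟨hoi, mem_IT.2 h4⟩)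
    exact (hw o h3).symm

theorem getD_none {x : Fin n → Option N} (hx : YV a c τ N x) {o : Fin n} (ho : τ o = none) :
    (x o).getD 0 = 0 := by
  rw [(hx.1.1 o).1 ho]
  rfl

theorem sum_coef {x : Fin n → Option N} (hx : YV a c τ N x) :
    ∑ o, algebraMap k N (coef τ o : k) * (x o).getD 0 = 0 := by
  have h1 := hx.2
  unfold Bfun at h1
  simpa only [map_natCast] using h1

theorem eval_LL {i : Fin n} (hi : coef τ i ≠ 0) {x : Fin n → Option N} (hx : YV a c τ N x)
    (o : Fin n) : (x o).getD 0 =
      MvPolynomial.aeval (fun b : {o // o ∈ (IT τ).erase i} => (x b).getD 0) (LL k τ i o) :=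
  (aeval_LL hi (w := fun o => (x o).getD 0) (fun _ ho => getD_none hx ho) (sum_coef hx) o).symm

theorem fld_erase {i : Fin n} (hi : coef τ i ≠ 0) {x : Fin n → Option N} (hx : YV a c τ N x) :
    fld k x = IntermediateField.adjoin k
      (Set.range fun b : {o // o ∈ (IT τ).erase i} => (x b).getD 0) := by
  rw [fld_eq_range]
  refine le_antisymm ?_ ?_
  · rw [IntermediateField.adjoin_le_iff]
    rintro _ ⟨o, rfl⟩
    change (x o).getD 0 ∈ _
    rw [eval_LL hi hx o]
    have h1 : MvPolynomial.aeval (fun b : {o // o ∈ (IT τ).erase i} => (x b).getD 0)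
        (LL k τ i o) ∈ (Algebra.adjoin k
          (Set.range fun b : {o // o ∈ (IT τ).erase i} => (x b).getD 0)) := by
      rw [Algebra.adjoin_range_eq_range_aeval]
      exact ⟨_, rfl⟩
    exact IntermediateField.algebra_adjoin_le_adjoin k _ h1
  · refine IntermediateField.adjoin.mono k _ _ ?_
    rintro _ ⟨b, rfl⟩
    exact ⟨b, rfl⟩

theorem trdeg_le (hs : (sp τ).Nonempty) {x : Fin n → Option N} (hx : YV a c τ N x) :
    Algebra.trdeg k (fld k x) ≤ (((IT τ).card - 1 : ℕ) : Cardinal.{0}) := by
  classical
  obtain ⟨i, hi⟩ := hs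
  have hi' : coef τ i ≠ 0 := (Finset.mem_filter.1 hi).2
  rw [fld_erase hi' hx]
  refine (HC.trdeg_adjoin_le _ (Set.finite_range _)).trans ?_
  rw [Nat.cast_le]
  have h1 : (Set.range fun b : {o // o ∈ (IT τ).erase i} => (x b).getD 0).ncard ≤
      Nat.card {o // o ∈ (IT τ).erase i} := by
    rw [← Set.image_univ]
    refine (Set.ncard_image_le Set.finite_univ).trans (le_of_eq ?_)
    exact Set.ncard_univ _
  rw [Nat.card_eq_fintype_card, Fintype.card_coe,
    Finset.card_erase_of_mem (mem_IT.2 (coef_ne hi'))] at h1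
  exact h1

theorem indep_top {i : Fin n} (hi : coef τ i ≠ 0) {x : Fin n → Option N} (hx : YV a c τ N x)
    (htr : Algebra.trdeg k (fld k x) = (((IT τ).card - 1 : ℕ) : Cardinal.{0})) :
    AlgebraicIndependent k fun b : {o // o ∈ (IT τ).erase i} => (x b).getD 0 := by
  classical
  refine HC.indep_of_trdeg _ ?_
  rw [← fld_erase hi hx, htr, Fintype.card_coe,
    Finset.card_erase_of_mem (mem_IT.2 (coef_ne hi))]

theorem key_unique_top (hs : (sp τ).Nonempty) {x : Fin n → Option N} {x' : Fin n → Option N'}
    (hx : YV a c τ N x) (hx' : YV a c τ N' x')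
    (htr : Algebra.trdeg k (fld k x) = (((IT τ).card - 1 : ℕ) : Cardinal.{0}))
    (htr' : Algebra.trdeg k (fld k x') = (((IT τ).card - 1 : ℕ) : Cardinal.{0})) :
    key k x = key k x' := by
  obtain ⟨i, hi⟩ := hs
  have hi' : coef τ i ≠ 0 := (Finset.mem_filter.1 hi).2
  exact key_unique_gen (LL k τ i) (indep_top hi' hx htr) (indep_top hi' hx' htr')
    (eval_LL hi' hx) (eval_LL hi' hx') fun o => by rw [← hx.1.1 o, ← hx'.1.1 o]

theorem form_zero {i : Fin n} (hi : coef τ i ≠ 0) {x : Fin n → Option N} (hx : YV a c τ N x)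
    (htr : Algebra.trdeg k (fld k x) = (((IT τ).card - 1 : ℕ) : Cardinal.{0}))
    {E : Type} [CommRing E] [Algebra k E] {w : Fin n → E} (hw : ∀ o, τ o = none → w o = 0)
    (hsw : ∑ o, algebraMap k E (coef τ o : k) * w o = 0) :
    ∑ o, algebraMap k E ((coef τ o : k) * c o) * w o ^ a = 0 := by
  classical
  set G : MvPolynomial {o // o ∈ (IT τ).erase i} k :=
    ∑ o, MvPolynomial.C ((coef τ o : k) * c o) * LL k τ i o ^ a with hG
  have hG0 : G = 0 := by
    have h1 := indep_top hi hx htr
    refine (map_eq_zero_iff _ h1).1 ?_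
    rw [hG, map_sum]
    refine Eq.trans (Finset.sum_congr rfl fun o _ => ?_) hx.1.2
    rw [map_mul, map_pow, MvPolynomial.aeval_C, ← eval_LL hi hx o, map_mul, map_natCast]
  have h1 := congrArg (MvPolynomial.aeval (fun b : {o // o ∈ (IT τ).erase i} => w b)) hG0
  rw [map_zero, hG, map_sum] at h1
  rw [← h1]
  refine Finset.sum_congr rfl fun o _ => Eq.symm ?_
  rw [map_mul (MvPolynomial.aeval _), map_pow (MvPolynomial.aeval _), MvPolynomial.aeval_C,
    aeval_LL hi hw hsw]

theorem flat_of (ha : 2 ≤ a) (hak : (a : k) ≠ 0) (hc : ∀ i, c i ≠ 0) (hs : (sp τ).Nonempty)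
    {x : Fin n → Option N} (hx : YV a c τ N x)
    (htr : Algebra.trdeg k (fld k x) = (((IT τ).card - 1 : ℕ) : Cardinal.{0})) :
    Flat a c τ := by
  classical
  have hsp : ∀ {o}, o ∈ sp τ ↔ coef τ o ≠ 0 := fun {o} => by simp [sp]
  rcases Nat.lt_or_ge (sp τ).card 2 with h | h
  · left
    have h1 : (sp τ).card = 1 := by
      have := Finset.card_pos.2 hs
      omega
    exact Finset.card_eq_one.1 h1
  right
  rcases Nat.lt_or_ge (sp τ).card 3 with h3 | h3
  · obtain ⟨i, j, hij, hI⟩ := Finset.card_eq_two.1 (show (sp τ).card = 2 by omega)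
    refine ⟨i, j, hij, hI, ?_⟩
    have hi : coef τ i ≠ 0 := hsp.1 (by rw [hI]; simp)
    have hj : coef τ j ≠ 0 := hsp.1 (by rw [hI]; simp)
    have hjk := coef_cast_ne k k hj
    let w : Fin n → k := fun o => if o = i then 1 else if o = j then
      -(coef τ i : k) / (coef τ j : k) else 0
    have hwi : w i = 1 := by simp [w]
    have hwj : w j = -(coef τ i : k) / (coef τ j : k) := by simp [w, hij.symm]
    have hzero : ∀ o, o ∉ ({i, j} : Finset (Fin n)) → coef τ o = 0 := by
      intro o ho
      by_contra h4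
      rw [← hI] at ho
      exact ho (hsp.2 h4)
    have h4 := form_zero (c := c) hi hx htr (E := k) (w := w) ?_ ?_
    · rw [← Finset.sum_subset (Finset.subset_univ ({i, j} : Finset (Fin n)))] at h4
      · rw [Finset.sum_pair hij, hwi, hwj, one_pow, mul_one] at h4
        exact h4
      · intro o _ ho
        rw [hzero o ho, Nat.cast_zero, zero_mul, map_zero, zero_mul]
    · intro o ho
      have hoi : o ≠ i := by
        rintro rfl
        exact coef_ne hi ho
      have hoj : o ≠ j := by
        rintro rfl
        exact coef_ne hj ho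
      simp [w, hoi, hoj]
    · rw [← Finset.sum_subset (Finset.subset_univ ({i, j} : Finset (Fin n)))]
      · rw [Finset.sum_pair hij, hwi, hwj]
        simp only [Algebra.algebraMap_self, RingHom.id_apply]
        field_simp
        ring
      · intro o _ ho
        rw [hzero o ho, Nat.cast_zero, map_zero, zero_mul]
  · exfalso
    obtain ⟨i, hi, j, hj, l, hl, hij, hil, hjl⟩ := Finset.two_lt_card.1 h3
    rw [hsp] at hi hj hl
    have hik := coef_cast_ne k k hi
    have hjk := coef_cast_ne k k hj
    have hlk := coef_cast_ne k k hl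
    let w : Fin n → Polynomial k := fun o => if o = j then Polynomial.X else if o = l then 1 else
      if o = i then Polynomial.C (-(coef τ i : k)⁻¹) * (Polynomial.C (coef τ j : k) *
        Polynomial.X + Polynomial.C (coef τ l : k)) else 0
    have hwj : w j = Polynomial.X := by simp [w]
    have hwl : w l = 1 := by simp [w, hjl.symm]
    have hwi : w i = Polynomial.C (-(coef τ i : k)⁻¹) * (Polynomial.C (coef τ j : k) *
        Polynomial.X + Polynomial.C (coef τ l : k)) := by simp [w, hij, hil]
    have hw0 : ∀ o, o ∉ ({j, l, i} : Finset (Fin n)) → w o = 0 := by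
      intro o ho
      simp only [Finset.mem_insert, Finset.mem_singleton, not_or] at ho
      simp [w, ho.1, ho.2.1, ho.2.2]
    have hsum : ∀ f : Fin n → Polynomial k, (∀ o, o ∉ ({j, l, i} : Finset (Fin n)) → f o = 0) →
        ∑ o, f o = f j + (f l + f i) := by
      intro f hf
      rw [← Finset.sum_subset (Finset.subset_univ ({j, l, i} : Finset (Fin n)))
        fun o _ ho => hf o ho, Finset.sum_insert, Finset.sum_insert, Finset.sum_singleton]
      · simp only [Finset.mem_singleton]
        exact hil.symm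
      · simp only [Finset.mem_insert, Finset.mem_singleton, not_or]
        exact ⟨hjl, hij.symm⟩
    have h4 := form_zero (c := c) hi hx htr (E := Polynomial k) (w := w) ?_ ?_
    · rw [hsum _ fun o ho => by rw [hw0 o ho, zero_pow (by omega), mul_zero], hwj, hwl, hwi,
        one_pow, mul_one, mul_pow] at h4
      refine Hf_ne (b1 := (coef τ j : k) * c j) (b2 := (coef τ l : k) * c l) ha hak
        (mul_ne_zero hik (hc i)) hjk hlk hik ?_
      unfold Hf
      rw [← h4]
      simp only [Polynomial.algebraMap_eq, Polynomial.C_mul, Polynomial.C_pow]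
      ring
    · intro o ho
      refine hw0 o ?_
      simp only [Finset.mem_insert, Finset.mem_singleton, not_or]
      refine ⟨?_, ?_, ?_⟩
      · rintro rfl
        exact coef_ne hj ho
      · rintro rfl
        exact coef_ne hl ho
      · rintro rfl
        exact coef_ne hi ho
    · rw [hsum _ fun o ho => by rw [hw0 o ho, mul_zero], hwj, hwl, hwi, mul_one]
      have h5 : (algebraMap k (Polynomial k)) (coef τ i : k) * (Polynomial.C (-(coef τ i : k)⁻¹) *
          (Polynomial.C (coef τ j : k) * Polynomial.X + Polynomial.C (coef τ l : k))) =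
          -(Polynomial.C (coef τ j : k) * Polynomial.X + Polynomial.C (coef τ l : k)) := by
        rw [← mul_assoc, Polynomial.algebraMap_eq, ← Polynomial.C_mul, mul_neg,
          mul_inv_cancel₀ hik, Polynomial.C_neg, Polynomial.C_1]
        ring
      rw [h5, Polynomial.algebraMap_eq]
      ring

end dim

end Pool.Agent.Helper17.KA
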