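import Pool.Agent.Helper17.KA.DivB
import Pool.Agent.Helper17.KA.CodA

set_option autoImplicit false
set_option linter.unusedSectionVars false

/-!
Project KA (MP_0b9e0b_ag), cycles of codimension two: the divisor of `∑ ρ_i x_i` on the
hypersurface `∑ ρ_i c_i x_i ^ a = 0`.
-/

namespace Pool.Agent.Helper17.KA

open Pool.Agent.Helper16
open Pool.Agent.Helper1.KL (Var VarF Key key fld spec cyc relations rat CH coef Idx)
open Pool.Agent.Helper1.KL (At0 key_eq_iff key_map restr restr_map key_restr fld_restr
  trdeg_fld_restr trdeg_fld_map essFiniteType_fld fld_eq_range IT getD_map)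
open Pool.Agent.Helper1.KA
open Pool.Agent.Helper19.KL (coef_ne mem_IT spec_none spec_some res_sum res_natCast solve
  rank_le_of cyc_le at0_const at0_X at0_add at0_sum at0_mul rank_zero_of)

section moving

variable {n : ℕ} {κ : Type} [Field κ] {a : ℕ} {b D : Fin n → κ} {i j : Fin n}

/-- A curve through a point of a hypersurface. -/
theorem exists_moving_two (ha : a ≠ 0) (hb : b j ≠ 0) (hD : ∑ o, b o * D o ^ a = 0)
    (hij : i ≠ j) :
    ∃ (M : Type) (_ : Field M) (_ : Algebra κ M) (_ : Algebra (RatFunc κ) M)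
      (_ : IsScalarTower κ (RatFunc κ) M) (w : Place κ M) (vals : Fin n → M),
      FiniteDimensional (RatFunc κ) M ∧ ∑ o, algebraMap κ M (b o) * vals o ^ a = 0 ∧
      vals i = algebraMap κ M (D i) + algebraMap (RatFunc κ) M RatFunc.X ∧
      (∀ o, o ≠ i → o ≠ j → vals o = algebraMap κ M (D o)) ∧
      ∀ o, w.val (vals o - algebraMap κ M (D o)) < 1 := by
  classical
  obtain ⟨E0, hE0⟩ : ∃ E0 : κ, E0 = ∑ o ∈ Finset.univ.erase j, b o * D o ^ a := ⟨_, rfl⟩
  have hval : b j * D j ^ a + E0 = 0 := by
    rw [hE0, Finset.add_sum_erase _ (fun o => b o * D o ^ a) (Finset.mem_univ j)]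
    exact hD
  obtain ⟨P0, hP0⟩ : ∃ P0 : Polynomial κ, P0 = Polynomial.C (b j) * Polynomial.X ^ a +
      Polynomial.C E0 := ⟨_, rfl⟩
  have h0 : P0 ≠ 0 := by
    intro h0
    have h1 := congrArg (fun P => Polynomial.coeff P a) h0
    rw [hP0] at h1
    simp only [Polynomial.coeff_add, Polynomial.coeff_C_mul, Polynomial.coeff_X_pow_self,
      Polynomial.coeff_C_of_ne_zero ha, Polynomial.coeff_zero, mul_one, add_zero] at h1
    exact hb h1
  let V : Fin n → RatFunc κ := fun o => algebraMap κ (RatFunc κ) (D o) +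
    (if o = i then RatFunc.X else 0)
  have hV : ∀ o, At0 (V o) (D o) := by
    intro o
    have h : At0 ((if o = i then RatFunc.X else 0 : RatFunc κ)) (0 : κ) := by
      split_ifs
      · exact at0_X
      · have := at0_const (0 : κ)
        rwa [map_zero] at this
    have := at0_add (at0_const (D o)) h
    rwa [add_zero] at this
  obtain ⟨E, hE⟩ : ∃ E : RatFunc κ,
      E = ∑ o ∈ Finset.univ.erase j, algebraMap κ (RatFunc κ) (b o) * V o ^ a := ⟨_, rfl⟩
  have hEt : At0 E E0 := by
    rw [hE, hE0]
    exact at0_sum _ _ _ fun o _ => at0_mul (at0_const _) (at0_pow (hV o) a)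
  obtain ⟨P, hP⟩ : ∃ P : Polynomial (RatFunc κ),
      P = Polynomial.C (algebraMap κ (RatFunc κ) (b j)) * Polynomial.X ^ a + Polynomial.C E :=
    ⟨_, rfl⟩
  have hPAt : PAt P P0 := by
    rw [hP, hP0]
    exact pat_add (pat_mul (pat_C (at0_const _)) (pat_pow pat_X a)) (pat_C hEt)
  have hy : At0 (P.eval (algebraMap κ (RatFunc κ) (D j))) (0 : κ) := by
    rw [hP]
    simp only [Polynomial.eval_add, Polynomial.eval_mul, Polynomial.eval_pow, Polynomial.eval_C,
      Polynomial.eval_X]
    rw [← hval]
    exact at0_add (at0_mul (at0_const _) (at0_pow (at0_const _) a)) hEt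
  obtain ⟨M, _, _, _, _, w, y, hfin, hw, hy1, hy2⟩ := exists_root hPAt h0 hy
  have hκ : ∀ e : κ, algebraMap (RatFunc κ) M (algebraMap κ (RatFunc κ) e) = algebraMap κ M e :=
    fun e => (IsScalarTower.algebraMap_apply κ (RatFunc κ) M e).symm
  let vals : Fin n → M := fun o => if o = j then y else algebraMap (RatFunc κ) M (V o)
  have hvj : vals j = y := if_pos rfl
  have hvo : ∀ o, o ≠ j → vals o = algebraMap (RatFunc κ) M (V o) := fun o ho => if_neg ho
  refine ⟨M, inferInstance, inferInstance, inferInstance, inferInstance, w, vals, hfin, ?_, ?_, ?_,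
    fun o => ?_⟩
  · rw [← Finset.add_sum_erase _ _ (Finset.mem_univ j), hvj, Finset.sum_congr rfl fun o ho => by
      rw [hvo o (Finset.ne_of_mem_erase ho)]]
    rw [hP] at hy1
    simp only [Polynomial.map_add, Polynomial.map_mul, Polynomial.map_pow, Polynomial.map_C,
      Polynomial.map_X, Polynomial.eval_add, Polynomial.eval_mul, Polynomial.eval_pow,
      Polynomial.eval_C, Polynomial.eval_X, hκ] at hy1
    rw [← hy1, hE]
    simp only [map_sum, map_mul, map_pow, hκ]
  · rw [hvo i hij]
    simp only [V]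
    rw [if_pos trivial, map_add, hκ]
  · intro o hoi hoj
    rw [hvo o hoj]
    simp only [V]
    rw [if_neg hoi, add_zero, hκ]
  · by_cases ho : o = j
    · rw [ho, hvj]
      exact hy2
    · rw [hvo o ho]
      exact Helper7.KL.at0_val w hw (hV o)

/-- If a line through the point lies on the hypersurface, it is special. -/
theorem line_special {M : Type} [Field M] [Algebra κ M] (ha : 2 ≤ a) (haκ : (a : κ) ≠ 0)
    {bi bj Di Dj l : κ} {T : M} (hT : Transcendental κ T)
    (h : algebraMap κ M bi * (algebraMap κ M Di + T) ^ a +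
      algebraMap κ M bj * (algebraMap κ M Dj - algebraMap κ M l * T) ^ a =
      algebraMap κ M (bi * Di ^ a + bj * Dj ^ a)) (hbi : bi ≠ 0) :
    bi + bj * (-l) ^ a = 0 ∧ l * Di + Dj = 0 := by
  have hT0 : T ≠ 0 := by
    rintro rfl
    exact hT isAlgebraic_zero
  obtain ⟨E, hE⟩ : ∃ E : κ, E = bi * Di ^ a + bj * Dj ^ a := ⟨_, rfl⟩
  set H : Polynomial κ := Polynomial.C bi * (1 + Polynomial.C Di * Polynomial.X) ^ a +
    Polynomial.C bj * (Polynomial.C Dj * Polynomial.X - Polynomial.C l) ^ a -
    Polynomial.C E * Polynomial.X ^ a with hH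
  have hTi : Transcendental κ T⁻¹ := by
    intro h1
    have h2 := h1.inv
    rw [inv_inv] at h2
    exact hT h2
  have hH0 : H = 0 := by
    refine (transcendental_iff.1 hTi) H ?_
    rw [hH]
    simp only [map_add, map_sub, map_mul, map_pow, map_one, Polynomial.aeval_C,
      Polynomial.aeval_X]
    have e1 : (1 + algebraMap κ M Di * T⁻¹) = (algebraMap κ M Di + T) * T⁻¹ := by
      field_simp
      ring
    have e2 : (algebraMap κ M Dj * T⁻¹ - algebraMap κ M l) =
        (algebraMap κ M Dj - algebraMap κ M l * T) * T⁻¹ := by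
      field_simp
    rw [e1, e2, mul_pow, mul_pow, hE, ← h]
    ring
  have h1 := congrArg (Polynomial.eval 0) hH0
  have h2 := congrArg (fun P => (Polynomial.derivative P).eval 0) hH0
  rw [hH] at h1 h2
  simp only [Polynomial.eval_add, Polynomial.eval_sub, Polynomial.eval_mul, Polynomial.eval_pow,
    Polynomial.eval_C, Polynomial.eval_X, Polynomial.eval_one, mul_zero, add_zero, one_pow,
    mul_one, zero_sub, zero_pow (show a ≠ 0 by omega), sub_zero, Polynomial.eval_zero] at h1
  simp only [Polynomial.derivative_add, Polynomial.derivative_sub, Polynomial.derivative_mul,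
    Polynomial.derivative_C, Polynomial.derivative_pow, Polynomial.derivative_X,
    Polynomial.derivative_one, Polynomial.eval_add, Polynomial.eval_sub, Polynomial.eval_mul,
    Polynomial.eval_pow, Polynomial.eval_C, Polynomial.eval_X, Polynomial.eval_one,
    Polynomial.derivative_zero, Polynomial.eval_zero, mul_zero, zero_mul, add_zero, zero_add,
    one_pow, mul_one, zero_sub, sub_zero, zero_pow (show a - 1 ≠ 0 by omega)] at h2
  refine ⟨h1, ?_⟩
  have h3 : (-l) ^ a = (-l) ^ (a - 1) * (-l) := by
    rw [← pow_succ]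
    congr 1
    omega
  rw [h3] at h1
  have h4 : (a : κ) * (bi * Di + bj * (-l) ^ (a - 1) * Dj) = 0 := by
    linear_combination h2
  have h5 := (mul_eq_zero.1 h4).resolve_left haκ
  have h6 : bi * (l * Di + Dj) = 0 := by
    linear_combination l * h5 + Dj * h1
  exact (mul_eq_zero.1 h6).resolve_left hbi

end moving

section top

variable {k : Type} [Field k] {p a : ℕ} [Fact p.Prime] [CharP k p] {n : ℕ} {c : Fin n → k}
  {τ : Fin n → Option (ZMod p)} {N : Type} [Field N] [Algebra k N]

theorem mem_top_aux {r : ℕ} (ha : 2 ≤ a) (hak : (a : k) ≠ 0) (hc : ∀ i, c i ≠ 0)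
    (hfin : ∀ o, τ o ≠ none) {i j : Fin n} (hij : i ≠ j) (hi : coef τ i ≠ 0) (hj : coef τ j ≠ 0)
    {κ : Type} [Field κ] [Algebra k κ] (hκE : Algebra.EssFiniteType k κ)
    (hκr : Algebra.trdeg k κ = (r : ℕ)) {d : Fin n → Option κ} (hd : YV a c τ κ d)
    (hdr : Algebra.trdeg k (fld k d) = (r : ℕ))
    (hne : ¬ ((coef τ i : k) * c i + (coef τ j : k) * c j *
      (-(coef τ i : k) / (coef τ j : k)) ^ a = 0 ∧
        (coef τ i : κ) * (d i).getD 0 + (coef τ j : κ) * (d j).getD 0 = 0)) :
    Finsupp.single (key k d) 1 ∈ rat (YV a c τ) (PY a c τ) r ⊔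
      Submodule.span ℚ {q | ∃ Q ∈ KT a c τ r, Q ≠ key k d ∧ q = Finsupp.single Q 1} := by
  classical
  have hsome : ∀ o, d o = some ((d o).getD 0) := by
    intro o
    cases h : d o with
    | none => exact absurd ((hd.1.1 o).2 h) (hfin o)
    | some e => rfl
  have hiκ : (coef τ i : κ) ≠ 0 := coef_cast_ne k κ hi
  have hjκ : (coef τ j : κ) ≠ 0 := coef_cast_ne k κ hj
  have hbj : (coef τ j : κ) * algebraMap k κ (c j) ≠ 0 :=
    mul_ne_zero hjκ (by rw [Ne, map_eq_zero]; exact hc j)
  have hbi : (coef τ i : κ) * algebraMap k κ (c i) ≠ 0 :=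
    mul_ne_zero hiκ (by rw [Ne, map_eq_zero]; exact hc i)
  obtain ⟨M, _, _, _, _, w, vals, hfinM, h1, h3, h4, h5⟩ :=
    exists_moving_two (a := a) (b := fun o => (coef τ o : κ) * algebraMap k κ (c o))
      (D := fun o => (d o).getD 0) (by omega) hbj hd.1.2 hij
  let _ : Algebra k M := ((algebraMap κ M).comp (algebraMap k κ)).toAlgebra
  have _ : IsScalarTower k κ M := IsScalarTower.of_algebraMap_eq fun _ => rfl
  have _ : IsScalarTower k (RatFunc κ) M := IsScalarTower.of_algebraMap_eq fun r => by
    rw [IsScalarTower.algebraMap_apply k κ (RatFunc κ), ← IsScalarTower.algebraMap_apply κ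
      (RatFunc κ) M]
    rfl
  have hkM : ∀ r : k, algebraMap k M r = algebraMap κ M (algebraMap k κ r) := fun _ => rfl
  have hME : Algebra.EssFiniteType k M := by
    have h6 : Algebra.EssFiniteType k (RatFunc κ) := HC.essFiniteType_ratFuncL hκE
    exact Algebra.EssFiniteType.comp k (RatFunc κ) M
  have hMr : Algebra.trdeg k M = (r : Cardinal) + 1 := by
    have h6 : Algebra.trdeg (RatFunc κ) M = 0 := by
      rw [trdeg_eq_zero_iff]
      infer_instance
    rw [← trdeg_add_eq k (RatFunc κ) (A := M), HC.trdeg_ratFuncL hκr, h6, add_zero]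
  set u := mk τ vals with hu
  have huo : ∀ o, u o = some (vals o) := fun o => mk_some vals (hfin o)
  have huA : AV a c τ M u := by
    refine av_mk vals ?_
    rw [← h1]
    refine Finset.sum_congr rfl fun o _ => ?_
    rw [map_mul, map_natCast, hkM]
  have hBu : Bfun τ u = (coef τ i : M) * (vals i - algebraMap κ M ((d i).getD 0)) +
      (coef τ j : M) * (vals j - algebraMap κ M ((d j).getD 0)) := by
    have h6 : Bfun τ u = ∑ o, (coef τ o : M) * (vals o - algebraMap κ M ((d o).getD 0)) := by
      have h7 := congrArg (algebraMap κ M) hd.2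
      unfold Bfun at h7 ⊢
      rw [map_zero, map_sum] at h7
      rw [← sub_zero (∑ i, (coef τ i : M) * (u i).getD 0), ← h7, ← Finset.sum_sub_distrib]
      refine Finset.sum_congr rfl fun o _ => ?_
      rw [map_mul, map_natCast, mul_sub, huo, Option.getD_some]
    rw [h6, ← Finset.sum_subset (Finset.subset_univ ({i, j} : Finset (Fin n))),
      Finset.sum_pair hij]
    intro o _ ho
    rw [Finset.mem_insert, Finset.mem_singleton, not_or] at ho
    rw [h4 o ho.1 ho.2, sub_self, mul_zero]
  -- `∑ ρ_i u_i` does not vanish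
  have hB : Bfun τ u ≠ 0 := by
    intro h0
    apply hne
    rw [hBu, h3] at h0
    set T : M := algebraMap (RatFunc κ) M RatFunc.X with hT
    have hTt : Transcendental κ T := by
      intro h6
      rw [hT, isAlgebraic_algebraMap_iff (algebraMap (RatFunc κ) M).injective] at h6
      exact RatFunc.transcendental_X h6
    obtain ⟨l, hl⟩ : ∃ l : κ, l = (coef τ i : κ) / (coef τ j : κ) := ⟨_, rfl⟩
    have hjM : (coef τ j : M) ≠ 0 := by
      rw [← map_natCast (algebraMap κ M), Ne, map_eq_zero]
      exact hjκ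
    have h6 : vals j = algebraMap κ M ((d j).getD 0) - algebraMap κ M l * T := by
      rw [hl, map_div₀, map_natCast, map_natCast]
      field_simp
      linear_combination h0
    have h7 : algebraMap κ M ((coef τ i : κ) * algebraMap k κ (c i)) *
          (algebraMap κ M ((d i).getD 0) + T) ^ a +
        algebraMap κ M ((coef τ j : κ) * algebraMap k κ (c j)) *
          (algebraMap κ M ((d j).getD 0) - algebraMap κ M l * T) ^ a =
        algebraMap κ M ((coef τ i : κ) * algebraMap k κ (c i) * (d i).getD 0 ^ a +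
          (coef τ j : κ) * algebraMap k κ (c j) * (d j).getD 0 ^ a) := by
      have h8 := congrArg (algebraMap κ M) hd.1.2
      rw [map_zero, map_sum] at h8
      have h9 : ∑ o, (algebraMap κ M ((coef τ o : κ) * algebraMap k κ (c o)) * vals o ^ a -
          algebraMap κ M ((coef τ o : κ) * algebraMap k κ (c o) * (d o).getD 0 ^ a)) = 0 := by
        rw [Finset.sum_sub_distrib, h1, h8, sub_zero]
      rw [← Finset.sum_subset (Finset.subset_univ ({i, j} : Finset (Fin n))),
        Finset.sum_pair hij, h3, h6] at h9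
      · rw [map_add (algebraMap κ M) ((coef τ i : κ) * algebraMap k κ (c i) * (d i).getD 0 ^ a)]
        linear_combination h9
      · intro o _ ho
        rw [Finset.mem_insert, Finset.mem_singleton, not_or] at ho
        rw [h4 o ho.1 ho.2, map_mul (algebraMap κ M) ((coef τ o : κ) * algebraMap k κ (c o)),
          map_pow, sub_self]
    have haκ : (a : κ) ≠ 0 := by
      rw [← map_natCast (algebraMap k κ), Ne, map_eq_zero]
      exact hak
    obtain ⟨h8, h9⟩ := line_special ha haκ hTt h7 hbi
    refine ⟨?_, ?_⟩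
    · apply (algebraMap k κ).injective
      rw [map_zero, ← h8, hl]
      simp only [map_add, map_mul, map_pow, map_div₀, map_neg, map_natCast]
      rw [neg_div]
    · rw [hl] at h9
      have h10 : (coef τ i : κ) * (d i).getD 0 + (coef τ j : κ) * (d j).getD 0 =
          (coef τ j : κ) * ((coef τ i : κ) / (coef τ j : κ) * (d i).getD 0 + (d j).getD 0) := by
        field_simp
      rw [h10, h9, mul_zero]
  -- it is small at the place
  have hBw : w.val (Bfun τ u) < 1 := by
    rw [hBu]
    have h6 : ∀ o, w.val ((coef τ o : M) * (vals o - algebraMap κ M ((d o).getD 0))) < 1 := by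
      intro o
      rw [← map_natCast (algebraMap κ M), map_mul, mul_comm]
      exact mul_lt_one_of_lt_of_le (h5 o) (w.val_algebraMap_le _)
    exact (w.val.map_add _ _).trans_lt (max_lt (h6 i) (h6 j))
  set v0 : Place k M := HC.under k w with hv0
  obtain ⟨φ', hφ'⟩ := HC.exists_resHomL (K := k) v0 (L := κ) (N := M) fun b hb => w.triv b hb
  have hspec : spec v0 u = fun o => (d o).map φ' := by
    funext o
    have h6 : vals o ∈ v0.ring := near_le (w := w) (h5 o)
    unfold spec
    rw [huo, Option.bind_some, if_pos h6]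
    conv_rhs => rw [hsome o]
    rw [Option.map_some, (hφ' _).2]
    congr 1
    exact near_res (w := w) (h5 o)
  refine solve (V := YV a c τ) (P := PY a c τ) hME hMr (z := u)
    (f := Bfun τ u) (Or.inr ⟨huA, rfl⟩) hB le_sup_left ?_ ?_
  · intro v hv hw hwr
    by_cases hkey : key k (spec v u) = key k d
    · left
      refine ⟨hkey, ?_⟩
      have h6 := (Bfun_spec (τ := τ) v (z := u) fun o e he =>
        (spec_some v he fun h0 => hfin o ((hw.1.1 o).2 h0)).1).1
      exact lt_of_le_of_ne ((v.ord_nonneg_iff hB).2 h6) (Ne.symm hv)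
    · right
      exact Submodule.mem_sup_right (Submodule.subset_span
        ⟨_, ⟨_, _, _, spec v u, hw, hwr, rfl⟩, hkey, rfl⟩)
  · refine ⟨v0, ?_, ?_, (v0.ord_pos_iff hB).2 hBw, ?_⟩
    · rw [hspec]
      exact yv_map hd φ'
    · rw [hspec, ← hdr]
      exact trdeg_fld_map φ' d
    · rw [hspec]
      exact key_map φ' d

theorem mem_top {r : ℕ} (ha : 2 ≤ a) (hak : (a : k) ≠ 0) (hc : ∀ i, c i ≠ 0)
    (hfin : ∀ o, τ o ≠ none) {i j : Fin n} (hij : i ≠ j) (hi : coef τ i ≠ 0) (hj : coef τ j ≠ 0)
    {x : Fin n → Option N} (hx : YV a c τ N x)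
    (hr : Algebra.trdeg k (fld k x) = (r : ℕ))
    (hne : ¬ ((coef τ i : k) * c i + (coef τ j : k) * c j *
      (-(coef τ i : k) / (coef τ j : k)) ^ a = 0 ∧
        (coef τ i : N) * (x i).getD 0 + (coef τ j : N) * (x j).getD 0 = 0)) :
    Finsupp.single (key k x) 1 ∈ rat (YV a c τ) (PY a c τ) r ⊔
      Submodule.span ℚ {q | ∃ Q ∈ KT a c τ r, Q ≠ key k x ∧ q = Finsupp.single Q 1} := by
  have h1 := mem_top_aux ha hak hc hfin hij hi hj (essFiniteType_fld x) hr (yv_restr hx)
    (by rw [trdeg_fld_restr]; exact hr) (fun h => hne ⟨h.1, ?_⟩)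
  · rwa [key_restr] at h1
  · have hval : ∀ o, (((restr k x o).getD 0 : fld k x) : N) = (x o).getD 0 := by
      intro o
      have h1 := congrFun (restr_map (F := k) x) o
      rw [← h1, getD_map]
      rfl
    have h2 := congrArg (fun e : fld k x => (e : N)) h.2
    simpa [hval] using h2

theorem trdeg_le_of {x : Fin n → Option N} (J : Finset (Fin n))
    (h : ∀ o, (x o).getD 0 ∈ IntermediateField.adjoin k ((fun o => (x o).getD 0) '' (J : Set (Fin n)))) :
    Algebra.trdeg k (fld k x) ≤ ((J.card : ℕ) : Cardinal.{0}) := by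
  classical
  have h1 : fld k x = IntermediateField.adjoin k ((fun o => (x o).getD 0) '' (J : Set (Fin n))) := by
    rw [fld_eq_range]
    refine le_antisymm ?_ ?_
    · rw [IntermediateField.adjoin_le_iff]
      rintro _ ⟨o, rfl⟩
      exact h o
    · refine IntermediateField.adjoin.mono k _ _ ?_
      rintro _ ⟨o, -, rfl⟩
      exact ⟨o, rfl⟩
  rw [h1]
  refine (HC.trdeg_adjoin_le _ ((Finset.finite_toSet J).image _)).trans ?_
  rw [Nat.cast_le]
  refine (Set.ncard_image_le (Finset.finite_toSet J)).trans (le_of_eq ?_)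
  exact Set.ncard_coe_finset J

theorem exists_pair {r : ℕ} (hs : (sp τ).Nonempty) (hflat : ¬ Flat a c τ) (hn : r + 2 = n)
    {x : Fin n → Option N} (hx : YV a c τ N x) (hr : Algebra.trdeg k (fld k x) = (r : ℕ)) :
    ∃ i j, i ≠ j ∧ coef τ i ≠ 0 ∧ coef τ j ≠ 0 ∧
      ¬ ((coef τ i : k) * c i + (coef τ j : k) * c j *
        (-(coef τ i : k) / (coef τ j : k)) ^ a = 0 ∧
          (coef τ i : N) * (x i).getD 0 + (coef τ j : N) * (x j).getD 0 = 0) := by
  classical
  have hsp : ∀ {o}, o ∈ sp τ ↔ coef τ o ≠ 0 := fun {o} => by simp [sp]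
  rcases Nat.lt_or_ge (sp τ).card 2 with h | h
  · exfalso
    apply hflat
    left
    have h1 : (sp τ).card = 1 := by
      have := Finset.card_pos.2 hs
      omega
    exact Finset.card_eq_one.1 h1
  rcases Nat.lt_or_ge (sp τ).card 3 with h3 | h3
  · obtain ⟨i, j, hij, hI⟩ := Finset.card_eq_two.1 (show (sp τ).card = 2 by omega)
    have hi : coef τ i ≠ 0 := hsp.1 (by rw [hI]; simp)
    have hj : coef τ j ≠ 0 := hsp.1 (by rw [hI]; simp)
    exact ⟨i, j, hij, hi, hj, fun h4 => hflat (Or.inr ⟨i, j, hij, hI, h4.1⟩)⟩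
  by_contra hcon
  push Not at hcon
  have hz : ∀ i j, i ≠ j → coef τ i ≠ 0 → coef τ j ≠ 0 →
      (coef τ i : N) * (x i).getD 0 + (coef τ j : N) * (x j).getD 0 = 0 :=
    fun i j hij hi hj => (hcon i j hij hi hj).2
  obtain ⟨i, hi, j, hj, l, hl, hij, hil, hjl⟩ := Finset.two_lt_card.1 h3
  rw [hsp] at hi hj hl
  have hcN : ∀ {o}, coef τ o ≠ 0 → (coef τ o : N) ≠ 0 := fun ho => coef_cast_ne k N ho
  rcases Nat.lt_or_ge (sp τ).card 4 with h4 | h4
  · -- all coordinates with nonzero coefficients vanish
    have hcard : ({i, j, l} : Finset (Fin n)).card = 3 := by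
      rw [Finset.card_insert_of_notMem, Finset.card_insert_of_notMem, Finset.card_singleton]
      · simp only [Finset.mem_singleton]
        exact hjl
      · simp only [Finset.mem_insert, Finset.mem_singleton, not_or]
        exact ⟨hij, hil⟩
    have hsub : ({i, j, l} : Finset (Fin n)) = sp τ := by
      refine Finset.eq_of_subset_of_card_le ?_ ?_
      · intro o ho
        simp only [Finset.mem_insert, Finset.mem_singleton] at ho
        rcases ho with rfl | rfl | rfl
        · exact hsp.2 hi
        · exact hsp.2 hj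
        · exact hsp.2 hl
      · omega
    have hsum : (coef τ i : N) * (x i).getD 0 + ((coef τ j : N) * (x j).getD 0 +
        (coef τ l : N) * (x l).getD 0) = 0 := by
      have h5 := hx.2
      unfold Bfun at h5
      rw [← Finset.sum_subset (Finset.subset_univ ({i, j, l} : Finset (Fin n))),
        Finset.sum_insert, Finset.sum_insert, Finset.sum_singleton] at h5
      · exact h5
      · simp only [Finset.mem_singleton]
        exact hjl
      · simp only [Finset.mem_insert, Finset.mem_singleton, not_or]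
        exact ⟨hij, hil⟩
      · intro o _ ho
        rw [hsub] at ho
        have h6 : coef τ o = 0 := by
          by_contra h7
          exact ho (hsp.2 h7)
        rw [h6, Nat.cast_zero, zero_mul]
    have hi0 : (x i).getD 0 = 0 := by
      rw [hz j l hjl hj hl, add_zero] at hsum
      exact (mul_eq_zero.1 hsum).resolve_left (hcN hi)
    have hall : ∀ o ∈ sp τ, (x o).getD 0 = 0 := by
      intro o ho
      by_cases hoi : o = i
      · rw [hoi, hi0]
      · have h5 := hz o i hoi (hsp.1 ho) hi
        rw [hi0, mul_zero, add_zero] at h5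
        exact (mul_eq_zero.1 h5).resolve_left (hcN (hsp.1 ho))
    have h5 := trdeg_le_of (k := k) (x := x) (Finset.univ \ sp τ) fun o => by
      by_cases ho : o ∈ sp τ
      · rw [hall o ho]
        exact zero_mem _
      · exact IntermediateField.subset_adjoin k _ ⟨o, by simp [ho], rfl⟩
    rw [hr, Nat.cast_le, Finset.card_sdiff_of_subset (Finset.subset_univ _), Finset.card_univ,
      Fintype.card_fin] at h5
    omega
  · have h5 := trdeg_le_of (k := k) (x := x) (insert i (Finset.univ \ sp τ)) fun o => by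
      by_cases ho : o ∈ sp τ
      · by_cases hoi : o = i
        · exact IntermediateField.subset_adjoin k _ ⟨o, by simp [hoi], rfl⟩
        · have h6 := hz o i hoi (hsp.1 ho) hi
          have h7 : (x o).getD 0 = algebraMap k N (-(coef τ i : k) / (coef τ o : k)) *
              (x i).getD 0 := by
            rw [map_div₀, map_neg, map_natCast, map_natCast]
            have := hcN (hsp.1 ho)
            field_simp
            linear_combination h6
          rw [h7]
          exact mul_mem (IntermediateField.algebraMap_mem _ _)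
            (IntermediateField.subset_adjoin k _ ⟨i, by simp, rfl⟩)
      · exact IntermediateField.subset_adjoin k _ ⟨o, by simp [ho], rfl⟩
    have h6 : (insert i (Finset.univ \ sp τ)).card ≤ (n - (sp τ).card) + 1 := by
      refine (Finset.card_insert_le _ _).trans ?_
      rw [Finset.card_sdiff_of_subset (Finset.subset_univ _), Finset.card_univ, Fintype.card_fin]
    rw [hr, Nat.cast_le] at h5
    have h7 : (sp τ).card ≤ n := by
      have := Finset.card_le_univ (sp τ)
      rwa [Fintype.card_fin] at this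
    omega

/-- Cycles of codimension two, if the hypersurface does not contain the hyperplane. -/
theorem rank_top {r : ℕ} (ha : 2 ≤ a) (hak : (a : k) ≠ 0) (hc : ∀ i, c i ≠ 0)
    (hfin : ∀ o, τ o ≠ none) (hs : (sp τ).Nonempty) (hflat : ¬ Flat a c τ) (hn : r + 2 = n)
    (hK : (KT a c τ r).Finite) :
    Module.rank ℚ (CHY a c τ r) ≤ ((Nat.card (KT a c τ r) - 1 : ℕ) : Cardinal.{0}) := by
  classical
  by_cases hne : (KT a c τ r).Nonempty
  swap
  · rw [Set.not_nonempty_iff_eq_empty] at hne
    have h1 : Module.rank ℚ (CHY a c τ r) = 0 := by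
      refine rank_zero_of fun N _ _ x hx hr => ?_
      have h2 : key k x ∈ KT a c τ r := ⟨N, _, _, x, hx, hr, rfl⟩
      rw [hne] at h2
      exact absurd h2 (Set.notMem_empty _)
    rw [h1]
    exact bot_le
  obtain ⟨Q0, hQ0⟩ := hne
  obtain ⟨N0, _, _, x0, hx0, hr0, rfl⟩ := hQ0
  obtain ⟨i, j, hij, hi, hj, h4⟩ := exists_pair hs hflat hn hx0 hr0
  have hmem := mem_top ha hak hc hfin hij hi hj hx0 hr0 h4
  set S : Set (Key k (Fin n) →₀ ℚ) :=
    {q | ∃ Q ∈ KT a c τ r, Q ≠ key k x0 ∧ q = Finsupp.single Q 1} with hS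
  have hSim : S = (fun Q => Finsupp.single Q (1 : ℚ)) '' (KT a c τ r \ {key k x0}) := by
    ext q
    rw [hS]
    constructor
    · rintro ⟨Q, h1, h2, rfl⟩
      exact ⟨Q, ⟨h1, h2⟩, rfl⟩
    · rintro ⟨Q, ⟨h1, h2⟩, rfl⟩
      exact ⟨Q, h1, h2, rfl⟩
  refine (rank_le_of (W := Submodule.span ℚ S) (cyc_le fun N _ _ x hx hr => ?_)).trans ?_
  · by_cases hkey : key k x = key k x0
    · rw [hkey]
      exact hmem
    · exact Submodule.mem_sup_right (Submodule.subset_span
        ⟨_, ⟨N, _, _, x, hx, hr, rfl⟩, hkey, rfl⟩)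
  · refine (rank_span_le _).trans ?_
    rw [hSim]
    have hfin' : (KT a c τ r \ {key k x0}).Finite := hK.subset Set.sdiff_subset
    refine Cardinal.mk_image_le.trans ?_
    have h1 : (KT a c τ r \ {key k x0}).ncard = Nat.card (KT a c τ r) - 1 := by
      have hx0K : key k x0 ∈ KT a c τ r := ⟨N0, _, _, x0, hx0, hr0, rfl⟩
      rw [Set.ncard_sdiff_singleton_of_mem hx0K]
      rfl
    have := hfin'.to_subtype
    rw [← h1, ← Nat.card_coe_set_eq, Nat.cast_card]

end top

end Pool.Agent.Helper17.KA
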