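import Pool.Agent.Helper17.KA.Three

set_option autoImplicit false

/-!
Project KA (MP_0b9e0b_ag), cycles of codimension one and two. Definitions.
-/

namespace Pool.Agent.Helper17.KA

open Pool.Agent.Helper1.KL (Key key fld coef IT)
open Pool.Agent.Helper1.KA

/-- The `r`-dimensional integral closed subschemes of `YV a c τ`. -/
def KT {k : Type} [Field k] (a : ℕ) {p n : ℕ} (c : Fin n → k) (τ : Fin n → Option (ZMod p))
    (r : ℕ) : Set (Key k (Fin n)) :=
  {Q | ∃ (N : Type) (_ : Field N) (_ : Algebra k N) (x : Fin n → Option N), YV a c τ N x ∧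
    Algebra.trdeg k (fld k x) = (r : ℕ) ∧ Q = key k x}

/-- The indices with nonzero coefficients. -/
def sp {p n : ℕ} (τ : Fin n → Option (ZMod p)) : Finset (Fin n) :=
  Finset.univ.filter fun o => coef τ o ≠ 0

/-- The form `∑ ρ_i c_i x_i ^ a` vanishes on the hyperplane `∑ ρ_i x_i = 0`. -/
def Flat {k : Type} [Field k] (a : ℕ) {p n : ℕ} (c : Fin n → k)
    (τ : Fin n → Option (ZMod p)) : Prop :=
  (∃ i, sp τ = {i}) ∨ ∃ i j, i ≠ j ∧ sp τ = {i, j} ∧
    (coef τ i : k) * c i + (coef τ j : k) * c j * (-(coef τ i : k) / (coef τ j : k)) ^ a = 0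

/-- Only the coordinates with nonzero coefficients are finite. -/
noncomputable def cut {p n : ℕ} (τ : Fin n → Option (ZMod p)) : Fin n → Option (ZMod p) :=
  fun o => if coef τ o = 0 then none else τ o

end Pool.Agent.Helper17.KA
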