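import Pool.Agent.Helper17.KA.Three

set_option autoImplicit false
set_option linter.unusedSectionVars false

/-!
Project KA (MP_0b9e0b_ag), cycles of dimension `1`: the divisor of `∑ ρ_i x_i` on the cone
`∑ ρ_i c_i x_i ^ a = 0` in three variables.
-/

namespace Pool.Agent.Helper17.KA

open Pool.Agent.Helper16
open Pool.Agent.Helper1.KL (Var VarF Key key fld spec cyc relations rat CH coef Idx)
open Pool.Agent.Helper1.KL (At0 key_eq_iff key_map restr restr_map key_restr fld_restr
  trdeg_fld_restr trdeg_fld_map essFiniteType_fld fld_eq_range IT)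
open Pool.Agent.Helper1.KA
open Pool.Agent.Helper19.KL (IsCone transc_of coef_ne mem_IT cz cz_some cz_none key_cone
  exists_gauss spec_none spec_some res_sum res_natCast solve rank_le_of cyc_le at0_const at0_X
  at0_add at0_sum at0_mul alg_of_adjoin)

section moving

variable {n : ℕ} {κ : Type} [Field κ] {a : ℕ} {b D : Fin n → κ} {j : Fin n}

/-- A curve through a point of a hypersurface. -/
theorem exists_moving_one (ha : a ≠ 0) (hb : b j ≠ 0) (hD : ∑ o, b o * D o ^ a = 0) {i m : Fin n}
    (him : i ≠ m) (hij : i ≠ j) (hmj : m ≠ j) (hDm : D m = 1) :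
    ∃ (M : Type) (_ : Field M) (_ : Algebra κ M) (_ : Algebra (RatFunc κ) M)
      (_ : IsScalarTower κ (RatFunc κ) M) (w : Place κ M) (vals : Fin n → M),
      FiniteDimensional (RatFunc κ) M ∧ ∑ o, algebraMap κ M (b o) * vals o ^ a = 0 ∧
      vals m = 1 ∧ vals i = algebraMap κ M (D i) + algebraMap (RatFunc κ) M RatFunc.X ∧
      ∀ o, w.val (vals o - algebraMap κ M (D o)) < 1 := by
  classical
  obtain ⟨E0, hE0⟩ : ∃ E0 : κ, E0 = ∑ o ∈ Finset.univ.erase j, b o * D o ^ a := ⟨_, rfl⟩
  have hval : b j * D j ^ a + E0 = 0 := by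
    rw [hE0, Finset.add_sum_erase _ (fun o => b o * D o ^ a) (Finset.mem_univ j)]
    exact hD
  obtain ⟨P0, hP0⟩ : ∃ P0 : Polynomial κ, P0 = Polynomial.C (b j) * Polynomial.X ^ a +
      Polynomial.C E0 := ⟨_, rfl⟩
  have h0 : P0 ≠ 0 := by
    intro h0
    have h1 := congrArg (fun P => Polynomial.coeff P a) h0
    rw [hP0] at h1
    simp only [Polynomial.coeff_add, Polynomial.coeff_C_mul, Polynomial.coeff_X_pow_self,
      Polynomial.coeff_C_ne_zero ha, Polynomial.coeff_zero, mul_one, add_zero] at h1
    exact hb h1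
  let V : Fin n → RatFunc κ := fun o => algebraMap κ (RatFunc κ) (D o) +
    (if o = i then RatFunc.X else 0)
  have hV : ∀ o, At0 (V o) (D o) := by
    intro o
    have h : At0 ((if o = i then RatFunc.X else 0 : RatFunc κ)) (0 : κ) := by
      split_ifs
      · exact at0_X
      · have := at0_const (0 : κ)
        rwa [map_zero] at this
    have := at0_add (at0_const (D o)) h
    rwa [add_zero] at this
  obtain ⟨E, hE⟩ : ∃ E : RatFunc κ,
      E = ∑ o ∈ Finset.univ.erase j, algebraMap κ (RatFunc κ) (b o) * V o ^ a := ⟨_, rfl⟩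
  have hEt : At0 E E0 := by
    rw [hE, hE0]
    exact at0_sum _ _ _ fun o _ => at0_mul (at0_const _) (at0_pow (hV o) a)
  obtain ⟨P, hP⟩ : ∃ P : Polynomial (RatFunc κ),
      P = Polynomial.C (algebraMap κ (RatFunc κ) (b j)) * Polynomial.X ^ a + Polynomial.C E :=
    ⟨_, rfl⟩
  have hPAt : PAt P P0 := by
    rw [hP, hP0]
    exact pat_add (pat_mul (pat_C (at0_const _)) (pat_pow pat_X a)) (pat_C hEt)
  have hy : At0 (P.eval (algebraMap κ (RatFunc κ) (D j))) (0 : κ) := by
    rw [hP]
    simp only [Polynomial.eval_add, Polynomial.eval_mul, Polynomial.eval_pow, Polynomial.eval_C,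
      Polynomial.eval_X]
    rw [← hval]
    exact at0_add (at0_mul (at0_const _) (at0_pow (at0_const _) a)) hEt
  obtain ⟨M, _, _, _, _, w, y, hfin, hw, hy1, hy2⟩ := exists_root hPAt h0 hy
  have hκ : ∀ e : κ, algebraMap (RatFunc κ) M (algebraMap κ (RatFunc κ) e) = algebraMap κ M e :=
    fun e => (IsScalarTower.algebraMap_apply κ (RatFunc κ) M e).symm
  let vals : Fin n → M := fun o => if o = j then y else algebraMap (RatFunc κ) M (V o)
  have hvj : vals j = y := if_pos rfl
  have hvo : ∀ o, o ≠ j → vals o = algebraMap (RatFunc κ) M (V o) := fun o ho => if_neg ho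
  refine ⟨M, inferInstance, inferInstance, inferInstance, inferInstance, w, vals, hfin, ?_, ?_, ?_,
    fun o => ?_⟩
  · rw [← Finset.add_sum_erase _ _ (Finset.mem_univ j), hvj, Finset.sum_congr rfl fun o ho => by
      rw [hvo o (Finset.ne_of_mem_erase ho)]]
    rw [hP] at hy1
    simp only [Polynomial.map_add, Polynomial.map_mul, Polynomial.map_pow, Polynomial.map_C,
      Polynomial.map_X, Polynomial.eval_add, Polynomial.eval_mul, Polynomial.eval_pow,
      Polynomial.eval_C, Polynomial.eval_X, hκ] at hy1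
    rw [← hy1, hE]
    simp only [map_sum, map_mul, map_pow, hκ]
  · rw [hvo m hmj]
    simp only [V]
    rw [if_neg him.symm, add_zero, hκ, hDm, map_one]
  · rw [hvo i hij]
    simp only [V]
    rw [if_pos trivial, map_add, hκ]
  · by_cases ho : o = j
    · rw [ho, hvj]
      exact hy2
    · rw [hvo o ho]
      exact Helper7.KL.at0_val w hw (hV o)

end moving

section divB

variable {k : Type} [Field k] {p a : ℕ} {n : ℕ} {c : Fin n → k}
  {τ : Fin n → Option (ZMod p)} {M N : Type} [Field M] [Algebra k M] [Field N] [Algebra k N]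

theorem Bfun_spec (v : Place k M) {z : Fin n → Option M}
    (h : ∀ i u, z i = some u → u ∈ v.ring) :
    Bfun τ z ∈ v.ring ∧ v.res (Bfun τ z) = Bfun τ (spec v z) := by
  classical
  have hg : ∀ i, (z i).getD 0 ∈ v.ring ∧ (spec v z i).getD 0 = v.res ((z i).getD 0) := by
    intro i
    cases hi : z i with
    | none =>
      rw [spec_none v hi]
      simp only [Option.getD_none, v.res_zero, and_true]
      exact zero_mem _
    | some u =>
      have h1 : spec v z i = some (v.res u) := by
        unfold spec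
        rw [hi, Option.bind_some, if_pos (h i u hi)]
      rw [h1]
      exact ⟨h i u hi, rfl⟩
  have hnat : ∀ m : ℕ, ((m : ℕ) : M) ∈ v.ring ∧ v.res (m : M) = (m : v.resField) :=
    fun m => ⟨natCast_mem _ _, res_natCast v m⟩
  obtain ⟨h1, h2⟩ := res_sum v Finset.univ (fun i => (coef τ i : M) * (z i).getD 0)
    fun i _ => mul_mem (hnat _).1 (hg i).1
  refine ⟨h1, ?_⟩
  unfold Bfun
  rw [h2]
  refine Finset.sum_congr rfl fun i _ => ?_
  rw [v.res_mul (hnat _).1 (hg i).1, (hnat _).2, (hg i).2]

theorem av_spec (v : Place k M) {z : Fin n → Option M} (hz : AV a c τ M z)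
    (h : ∀ i u, z i = some u → u ∈ v.ring) : AV a c τ v.resField (spec v z) := by
  classical
  have hs : ∀ i u, z i = some u → spec v z i = some (v.res u) := by
    intro i u hu
    unfold spec
    rw [hu, Option.bind_some, if_pos (h i u hu)]
  have hg : ∀ i, (z i).getD 0 ∈ v.ring ∧ (spec v z i).getD 0 = v.res ((z i).getD 0) := by
    intro i
    cases hi : z i with
    | none =>
      rw [spec_none v hi]
      simp only [Option.getD_none, v.res_zero, and_true]
      exact zero_mem _
    | some u =>
      rw [hs i u hi]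
      exact ⟨h i u hi, rfl⟩
  have hnat : ∀ m : ℕ, ((m : ℕ) : M) ∈ v.ring ∧ v.res (m : M) = (m : v.resField) :=
    fun m => ⟨natCast_mem _ _, res_natCast v m⟩
  have halg : ∀ a : k, algebraMap k M a ∈ v.ring ∧
      v.res (algebraMap k M a) = algebraMap k v.resField a :=
    fun a => ⟨v.ring.algebraMap_mem a, v.res_algebraMap a⟩
  refine ⟨fun i => ?_, ?_⟩
  · rw [hz.1 i]
    constructor
    · intro hi
      exact spec_none v hi
    · intro hi
      cases hzi : z i with
      | none => rfl
      | some u =>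
        rw [hs i u hzi] at hi
        exact absurd hi (Option.some_ne_none _)
  · have h1 := (res_sum v Finset.univ
      (fun i => (coef τ i : M) * algebraMap k M (c i) * (z i).getD 0 ^ a)
      fun i _ => mul_mem (mul_mem (hnat _).1 (halg _).1) (pow_mem (hg i).1 _)).2
    rw [hz.2, v.res_zero] at h1
    refine Eq.trans ?_ h1.symm
    refine Finset.sum_congr rfl fun i _ => ?_
    rw [v.res_mul (mul_mem (hnat _).1 (halg _).1) (pow_mem (hg i).1 _),
      v.res_mul (hnat _).1 (halg _).1, (hnat _).2, (halg _).2, v.res_pow (hg i).1, (hg i).2]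

theorem av_mk (vals : Fin n → M)
    (h1 : ∑ o, (coef τ o : M) * algebraMap k M (c o) * vals o ^ a = 0) :
    AV a c τ M (mk τ vals) := by
  refine ⟨fun o => (mk_none vals o).symm, ?_⟩
  rw [← h1]
  refine Finset.sum_congr rfl fun o _ => ?_
  by_cases ho : τ o = none
  · rw [coef_none ho]
    simp
  · rw [mk_some vals ho]
    rfl

variable [Fact p.Prime] [CharP k p]

/-- The relation given by the divisor of `∑ ρ_i x_i`. -/
theorem mem_three (ha : 2 ≤ a) (hak : (a : k) ≠ 0) (hc : ∀ i, c i ≠ 0)
    (hall : ∀ i ∈ IT τ, coef τ i ≠ 0) (hcard : (IT τ).card = 3) {x : Fin n → Option N}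
    (hx : YV a c τ N x) (hr : Algebra.trdeg k (fld k x) = (1 : ℕ)) :
    Finsupp.single (key k x) 1 ∈ rat (YV a c τ) (PY a c τ) 1 ⊔
      Submodule.span ℚ {q | ∃ Q ∈ KK a c τ, Q ≠ key k x ∧ q = Finsupp.single Q 1} := by
  classical
  obtain ⟨m, κ, _, _, _, φ, d, am, hd, hdm, ham, hxd⟩ :=
    cone_data hx hr (cone_three ha hak hc hall hcard hx)
  have hτm : τ m ≠ none := by
    intro h0
    rw [(hd.1.1 m).1 h0] at hdm
    exact Option.some_ne_none _ hdm.symm
  obtain ⟨i, hi, him⟩ := Finset.exists_mem_notMem_of_card_lt_card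
    (s := {m}) (t := IT τ) (by rw [Finset.card_singleton]; omega)
  rw [Finset.mem_singleton] at him
  obtain ⟨j, hj, hji, hjm, hI⟩ := exists_three hcard hi (mem_IT.2 hτm) him
  have hbj : (coef τ j : κ) * algebraMap k κ (c j) ≠ 0 :=
    mul_ne_zero (coef_cast_ne k κ (hall j hj)) (by rw [Ne, map_eq_zero]; exact hc j)
  obtain ⟨M, _, _, _, _, w, vals, hfin, h1, h3, h4, h5⟩ :=
    exists_moving_one (a := a) (b := fun o => (coef τ o : κ) * algebraMap k κ (c o))
      (D := fun o => (d o).getD 0) (by omega) hbj hd.1.2 him (Ne.symm hji) (Ne.symm hjm)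
      (by rw [hdm]; rfl)
  let _ : Algebra k M := ((algebraMap κ M).comp (algebraMap k κ)).toAlgebra
  have _ : IsScalarTower k κ M := IsScalarTower.of_algebraMap_eq fun _ => rfl
  have _ : IsScalarTower k (RatFunc κ) M := IsScalarTower.of_algebraMap_eq fun r => by
    rw [IsScalarTower.algebraMap_apply k κ (RatFunc κ), ← IsScalarTower.algebraMap_apply κ
      (RatFunc κ) M]
    rfl
  have hM : IsFunctionField k M := isFunctionField_ext (κ := κ)
  have hkM : ∀ r : k, algebraMap k M r = algebraMap κ M (algebraMap k κ r) := fun _ => rfl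
  set u := mk τ vals with hu
  have huA : AV a c τ M u := by
    refine av_mk vals ?_
    rw [← h1]
    refine Finset.sum_congr rfl fun o _ => ?_
    rw [map_mul, map_natCast, hkM]
  have hτi := mem_IT.1 hi
  -- `∑ ρ_i u_i` does not vanish
  have hB : Bfun τ u ≠ 0 := by
    intro h0
    have h6 := cone_three ha hak hc hall hcard (x := u) ⟨huA, h0⟩ i m
    rw [hu, mk_some vals hτi, mk_some vals hτm, Option.getD_some, Option.getD_some, h3,
      div_one] at h6
    have h7 : IsAlgebraic k (algebraMap (RatFunc κ) M RatFunc.X) := by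
      have h8 : algebraMap (RatFunc κ) M RatFunc.X = vals i -
          algebraMap κ M ((d i).getD 0) := by
        rw [h4]
        ring
      rw [h8]
      exact h6.sub (Algebra.IsAlgebraic.isAlgebraic (R := k) ((d i).getD 0)).algebraMap
    rw [isAlgebraic_algebraMap_iff (algebraMap (RatFunc κ) M).injective] at h7
    exact RatFunc.transcendental_X (h7.extendScalars (algebraMap k κ).injective)
  -- it is small at the place
  have hBw : w.val (Bfun τ u) < 1 := by
    have h6 : Bfun τ u = ∑ o, (coef τ o : M) * (vals o - algebraMap κ M ((d o).getD 0)) := by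
      have h7 := congrArg (algebraMap κ M) hd.2
      unfold Bfun at h7 ⊢
      rw [map_zero, map_sum] at h7
      rw [← sub_zero (∑ i, (coef τ i : M) * (u i).getD 0), ← h7, ← Finset.sum_sub_distrib]
      refine Finset.sum_congr rfl fun o _ => ?_
      rw [map_mul, map_natCast, mul_sub]
      congr 1
      by_cases ho : τ o = none
      · rw [coef_none ho]
        simp
      · rw [hu, mk_some vals ho]
        rfl
    rw [h6]
    refine w.val.map_sum_lt one_ne_zero fun o _ => ?_
    rw [← map_natCast (algebraMap κ M), map_mul, mul_comm]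
    exact mul_lt_one_of_lt_of_le (h5 o) (w.val_algebraMap_le _)
  set v0 : Place k M := HC.under k w with hv0
  obtain ⟨φ', hφ'⟩ := HC.exists_resHomL (K := k) v0 (L := κ) (N := M) fun b hb => w.triv b hb
  have hint : ∀ o e, u o = some e → v0.val e ≤ 1 := by
    intro o e he
    have ho : τ o ≠ none := by
      intro h0
      rw [hu, (mk_none vals o).2 h0] at he
      exact Option.some_ne_none _ he.symm
    rw [hu, mk_some vals ho] at he
    rw [← Option.some.inj he]
    exact near_le (w := w) (h5 o)
  have hures : ∀ o, v0.res ((u o).getD 0) = φ' ((d o).getD 0) := by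
    intro o
    rw [(hφ' _).2]
    by_cases ho : τ o = none
    · rw [hu, (mk_none vals o).2 ho, (hd.1.1 o).1 ho]
      simp only [Option.getD_none, map_zero]
    · rw [hu, mk_some vals ho, Option.getD_some]
      exact near_res (w := w) (h5 o)
  have hum : u m = some 1 := by
    rw [hu, mk_some vals hτm, h3]
  have htr2 : Algebra.trdeg k (RatFunc M) = ((1 : ℕ) : Cardinal) + 1 :=
    HC.trdeg_ratFuncL (by rw [hM.2]; rfl)
  have hzA : AV a c τ (RatFunc M) (cz u) :=
    av_sc huA (IsScalarTower.toAlgHom k M (RatFunc M)) RatFunc.X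
  have hBz : Bfun τ (cz u) = algebraMap M (RatFunc M) (Bfun τ u) * RatFunc.X :=
    Bfun_sc u (IsScalarTower.toAlgHom k M (RatFunc M)) RatFunc.X
  have hBR : algebraMap M (RatFunc M) (Bfun τ u) ≠ 0 := by
    rwa [Ne, map_eq_zero]
  have hf : Bfun τ (cz u) ≠ 0 := by
    rw [hBz]
    exact mul_ne_zero hBR RatFunc.X_ne_zero
  refine solve (V := YV a c τ) (P := PY a c τ) (HC.essFiniteType_ratFuncL hM.1) htr2 (z := cz u)
    (f := Bfun τ (cz u)) (Or.inr ⟨hzA, rfl⟩) hf le_sup_left ?_ ?_
  · intro v hv hw hwr
    by_cases hkey : key k (spec v (cz u)) = key k x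
    · left
      refine ⟨hkey, ?_⟩
      have hsn : ∀ o e, cz u o = some e → spec v (cz u) o ≠ none := by
        intro o e he h0
        have h6 := (hw.1.1 o).2 h0
        rw [hzA.1 o, he] at h6
        exact absurd h6 (Option.some_ne_none _)
      have h6 := (Bfun_spec (τ := τ) v (z := cz u) fun o e he =>
        (spec_some v he (hsn o e he)).1).1
      exact lt_of_le_of_ne ((v.ord_nonneg_iff hf).2 h6) (Ne.symm hv)
    · right
      exact Submodule.mem_sup_right (Submodule.subset_span
        ⟨_, ⟨_, _, _, spec v (cz u), hw, hwr, rfl⟩, hkey, rfl⟩)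
  · obtain ⟨v, hv, hX, hXt⟩ := exists_gauss v0
    obtain ⟨ψ, h6, h7, h8⟩ := cone_limit v0 hint v (fun b => by rw [hv]) (fun b => by rw [hv]) hX
      ham φ φ' (fun o => (d o).getD 0) hxd hures
      (fun o => by rw [hu, mk_none, ← hx.1.1 o])
    have hunit : ∀ o b, cz u o = some b → b ∈ v.ring := by
      intro o b hb
      cases hi : u o with
      | none =>
        rw [cz_none hi] at hb
        exact absurd hb.symm (Option.some_ne_none _)
      | some b' =>
        rw [cz_some hi] at hb
        rw [← Option.some.inj hb]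
        refine mul_mem ?_ ?_
        · change v.val _ ≤ 1
          rw [hv]
          exact hint o b' hi
        · exact hX.le
    have hBv : v.val (Bfun τ (cz u)) < 1 := by
      rw [hBz, map_mul, hX, mul_one, hv]
      exact hBw
    have hB0 : Bfun τ (spec v (cz u)) = 0 := by
      obtain ⟨h9, h10⟩ := Bfun_spec (τ := τ) v hunit
      rw [← h10]
      exact (v.res_eq_zero_iff h9).2 hBv
    refine ⟨v, ⟨av_spec v hzA hunit, hB0⟩, ?_, (v.ord_pos_iff hf).2 hBv, h8 hXt⟩
    have h9 : Algebra.trdeg k (fld k (spec v (cz u))) ≤ ((1 : ℕ) : Cardinal) := by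
      have h10 := HC.abh_adjoin (k₀ := k) v (M := RatFunc M) (s := 1) htr2.le
        ⟨Bfun τ (cz u), hf, by
          rw [Algebra.algebraMap_self_apply]
          exact hBv.ne⟩
        (fun i : Fin n => (cz u i).getD 0) (fun i => by
          rw [Algebra.algebraMap_self_apply]
          cases hi : cz u i with
          | none => simp
          | some b => exact hunit i b hi)
      have h11 : (fun j => (spec v (cz u) j).getD 0) = fun i =>
          v.res (algebraMap (RatFunc M) (RatFunc M) ((cz u i).getD 0)) := by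
        funext i
        rw [Algebra.algebraMap_self_apply]
        cases hi : cz u i with
        | none => rw [spec_none v hi, Option.getD_none, Option.getD_none, v.res_zero]
        | some b =>
          have h12 : b ∈ v.ring := hunit i b hi
          unfold spec
          rw [hi, Option.bind_some, if_pos h12]
          rfl
      rw [fld_eq_range, h11]
      exact h10
    refine le_antisymm h9 ?_
    rw [Nat.cast_one, Cardinal.one_le_iff_ne_zero]
    intro h0
    rw [fld_eq_range] at h0
    have h10 := alg_of_adjoin h0 ⟨m, rfl⟩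
    simp only [h6 m] at h10
    rw [hdm, Option.getD_some, map_one, one_mul] at h10
    exact hXt h10

/-- Cycles of dimension `1`, three finite coordinates with nonzero coefficients. -/
theorem rank_three (ha : 2 ≤ a) (hak : (a : k) ≠ 0) (hc : ∀ i, c i ≠ 0)
    (hall : ∀ i ∈ IT τ, coef τ i ≠ 0) (hcard : (IT τ).card = 3) :
    Module.rank ℚ (CHY a c τ 1) ≤ ((Nat.card (KK a c τ) - 1 : ℕ) : Cardinal.{0}) := by
  classical
  have hfin := finite_KK ha hak hc hall hcard
  by_cases hne : (KK a c τ).Nonempty
  swap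
  · rw [Set.not_nonempty_iff_eq_empty] at hne
    have h1 : Module.rank ℚ (CHY a c τ 1) = 0 := by
      refine Helper19.KL.rank_zero_of fun N _ _ x hx hr => ?_
      have h2 : key k x ∈ KK a c τ := ⟨N, _, _, x, hx, hr, rfl⟩
      rw [hne] at h2
      exact absurd h2 (Set.notMem_empty _)
    rw [h1]
    exact bot_le
  obtain ⟨Q0, hQ0⟩ := hne
  obtain ⟨N0, _, _, x0, hx0, hr0, rfl⟩ := hQ0
  have hmem := mem_three ha hak hc hall hcard hx0 hr0
  set S : Set (Key k (Fin n) →₀ ℚ) :=
    {q | ∃ Q ∈ KK a c τ, Q ≠ key k x0 ∧ q = Finsupp.single Q 1} with hS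
  have hSim : S = (fun Q => Finsupp.single Q (1 : ℚ)) '' (KK a c τ \ {key k x0}) := by
    ext q
    rw [hS]
    constructor
    · rintro ⟨Q, h1, h2, rfl⟩
      exact ⟨Q, ⟨h1, h2⟩, rfl⟩
    · rintro ⟨Q, ⟨h1, h2⟩, rfl⟩
      exact ⟨Q, h1, h2, rfl⟩
  refine (rank_le_of (W := Submodule.span ℚ S) (cyc_le fun N _ _ x hx hr => ?_)).trans ?_
  · by_cases hkey : key k x = key k x0
    · rw [hkey]
      exact hmem
    · exact Submodule.mem_sup_right (Submodule.subset_span
        ⟨_, ⟨N, _, _, x, hx, hr, rfl⟩, hkey, rfl⟩)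
  · refine (rank_span_le _).trans ?_
    rw [hSim]
    have hfin' : (KK a c τ \ {key k x0}).Finite := hfin.subset Set.diff_subset
    refine Cardinal.mk_image_le.trans ?_
    have h1 : (KK a c τ \ {key k x0}).ncard = Nat.card (KK a c τ) - 1 := by
      have hx0K : key k x0 ∈ KK a c τ := ⟨N0, _, _, x0, hx0, hr0, rfl⟩
      rw [Set.ncard_diff_singleton_of_mem hx0K]
      rfl
    have := hfin'.to_subtype
    rw [← h1, ← Nat.card_coe_set_eq, Nat.cast_card]

end divB

end Pool.Agent.Helper17.KA
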