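import Pool.Agent.Helper17.KA.Final
import Pool.Agent.Helper79.KA2.Exp
import Pool.Agent.Helper1.KA.AMain

set_option autoImplicit false

/-!
Project KA (MP_0b9e0b_ag): cycles of dimension one over a finite field, final form.
-/

namespace Pool.Agent.Helper17.KA

open Pool.Agent.Helper1.KA

/-- The bound for cycles of dimension one on `X`, over a finite field. -/
theorem explicit_one {k : Type} [Field k] [Finite k] {p a : ℕ} [Fact p.Prime] [CharP k p]
    {n : ℕ} {c : Fin n → k} (ha : 2 ≤ a) (hpa : ¬ p ∣ a) (hc : ∀ i, c i ≠ 0) :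
    ExplicitOne p a c := by
  have : NeZero p := ⟨(Fact.out : p.Prime).ne_zero⟩
  have hak : (a : k) ≠ 0 := by
    rw [Ne, CharP.cast_eq_zero_iff k p]
    exact hpa
  exact explicit_one' ha hak hc Helper79.KA2.exists_exp (ka_main k p a ha n c hc 1)

end Pool.Agent.Helper17.KA
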