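import Pool.Agent.Helper17.KA.One
import Pool.Agent.Helper68.KA.Beta

set_option autoImplicit false

/-!
Project KA (MP_0b9e0b_ag), cycles of dimension `1` over a finite field: the explicit bound.
-/

namespace Pool.Agent.Helper17.KA

open Pool.Agent.Helper16
open Pool.Agent.Helper1.KL (CH coef Idx)
open Pool.Agent.Helper1.KA

open scoped Classical in
/-- The Chow group of cycles of dimension one on `X`, over a finite field. -/
theorem rank_one (k : Type) [Field k] [Finite k] (p a : ℕ) [Fact p.Prime] [NeZero p] [CharP k p]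
    (n : ℕ) (c : Fin n → k) (ha : 2 ≤ a) (hak : (a : k) ≠ 0) (hc : ∀ i, c i ≠ 0)
    (h : Main k p a n c 1) :
    Module.rank ℚ (CHX p a c 1) ≤ ((n + n * (n - 1) * (p - 1) +
      ∑ τ ∈ Full p n 2, Nat.card (KK a c τ) + ∑ τ ∈ Full p n 3, (Nat.card (KK a c τ) - 1) : ℕ) :
        Cardinal.{0}) :=
  sum_bound ha hak hc
    (fun {_} _ hcone _ _ _ _ hx hr => Helper68.KA.mem_beta le_rfl hcone hx hr)
    (fun hij hil hjl hi hj hl hl0 =>
      Helper68.KA.rank_alpha (by omega) hij hil hjl hi hj hl hl0)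
    (fun hil hi hl hl0 h => Helper68.KA.rank_alpha_two hil hi hl hl0 h) h

end Pool.Agent.Helper17.KA
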