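import Pool.Agent.Helper17.KA.Two
import Pool.Agent.Helper68.KA2.Z
import Pool.Agent.Helper17.KA.RankOne

set_option autoImplicit false

/-!
Project KA (MP_0b9e0b_ag): cycles of dimension one over a finite field, final form.
-/

namespace Pool.Agent.Helper17.KA

open Pool.Agent.Helper1.KA

theorem explicit_one' {k : Type} [Field k] [Finite k] {p a : ℕ} [Fact p.Prime] [NeZero p]
    [CharP k p] {n : ℕ} {c : Fin n → k} (ha : 2 ≤ a) (hak : (a : k) ≠ 0) (hc : ∀ i, c i ≠ 0)
    (hB : BoundB) (h : Main k p a n c 1) : ExplicitOne p a c := by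
  obtain ⟨C, hA⟩ := Helper68.KA.sum_trX_bound_z (p := p) (n := n) (a := a) (by omega) hc
  obtain ⟨L, h1, h2⟩ := exists_L1 ha hak hc hA hB
  refine ⟨L, _, h1, h2, (rank_one k p a n c ha hak hc h).trans ?_⟩
  have htwo := sum_two (k := k) (p := p) (c := c) ha
  rw [Nat.cast_le]
  omega

end Pool.Agent.Helper17.KA
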