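import Pool.Agent.Helper16.FF10
import Pool.Agent.Helper73.KL.Restr

set_option autoImplicit false
set_option linter.unusedSectionVars false

/-!
Project KA (MP_0b9e0b_ag), cycles of dimension `1` over a finite field: a function with a single
zero and prescribed poles up to a multiple.
-/

namespace Pool.Agent.Helper17.KA

open Pool.Agent.Helper16

section fn

variable {k : Type} [Field k] {M : Type} [Field M] [Algebra k M]

theorem exists_fun_aux [Finite k] (hM : IsFunctionField k M) (w0 : Place k M)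
    (mm : Place k M → ℕ) (S : Finset (Place k M)) (h0 : w0 ∉ S) :
    ∃ (g : M) (e : ℕ), g ≠ 0 ∧ 0 < e ∧ 0 ≤ w0.ord g ∧ ((∃ w ∈ S, mm w ≠ 0) → 0 < w0.ord g) ∧
      (∀ w ∈ S, w.ord g = -((e : ℤ) * mm w)) ∧ ∀ w ∉ S, w ≠ w0 → w.ord g = 0 := by
  classical
  induction S using Finset.induction_on with
  | empty =>
    refine ⟨1, 1, one_ne_zero, one_pos, by rw [w0.ord_one], ?_, ?_, ?_⟩
    · rintro ⟨w, hw, -⟩
      exact absurd hw (Finset.notMem_empty w)
    · intro w hw
      exact absurd hw (Finset.notMem_empty w)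
    · intro w _ _
      rw [w.ord_one]
  | insert w1 S hw1 ih =>
    rw [Finset.mem_insert, not_or] at h0
    obtain ⟨g, e, hg0, he, hg1, hg2, hg3, hg4⟩ := ih h0.2
    obtain ⟨φ, hφtr, hφ1, hφ2, hφ3⟩ := hM.exists_zero_pole w0 w1 h0.1
    have hφ0 : φ ≠ 0 := by
      rintro rfl
      exact hφtr isAlgebraic_zero
    have hA : 0 < w0.ord φ := (w0.ord_pos_iff hφ0).2 hφ1
    have hoth : ∀ w : Place k M, w ≠ w0 → w ≠ w1 → w.ord φ = 0 := by
      intro w h1 h2
      rw [w.ord_eq_zero_iff hφ0]
      refine le_antisymm ?_ ?_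
      · by_contra h3
        exact h2 (hφ3 w (not_le.1 h3))
      · by_contra h3
        exact h1 (hφ2 w (not_le.1 h3))
    have hB : w1.ord φ < 0 := by
      by_contra hcon
      rw [not_lt] at hcon
      have h1 : ∀ v : Place k M, ¬ 1 < v.val φ := by
        intro v hv
        have h2 := hφ3 v hv
        subst h2
        exact absurd ((v.ord_neg_iff hφ0).2 hv) (not_lt.2 hcon)
      obtain ⟨T, hT, hs, hpos⟩ := hM.zeros φ⁻¹ (transcendental_inv hφtr)
      have hne : T.Nonempty := by
        by_contra hemp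
        rw [Finset.not_nonempty_iff_eq_empty] at hemp
        rw [hemp, Finset.sum_empty] at hs
        omega
      obtain ⟨v', hv'⟩ := hne
      rw [hT, map_inv₀, inv_lt_one₀ (zero_lt_iff.2 (by simpa using hφ0))] at hv'
      exact h1 v' hv'
    obtain ⟨B, hB'⟩ : ∃ B : ℕ, w1.ord φ = -(B : ℤ) := ⟨(-w1.ord φ).toNat, by omega⟩
    have hBpos : 0 < B := by omega
    have hord : ∀ w : Place k M, w.ord (g ^ B * φ ^ (e * mm w1)) =
        B * w.ord g + (e * mm w1 : ℕ) * w.ord φ := by
      intro w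
      rw [w.ord_mul (pow_ne_zero _ hg0) (pow_ne_zero _ hφ0), Helper73.KL.ord_pow w hg0,
        Helper73.KL.ord_pow w hφ0]
    refine ⟨g ^ B * φ ^ (e * mm w1), e * B, mul_ne_zero (pow_ne_zero _ hg0) (pow_ne_zero _ hφ0),
      Nat.mul_pos he hBpos, ?_, ?_, ?_, ?_⟩
    · rw [hord]
      positivity
    · rintro ⟨w, hw, hmw⟩
      rw [hord]
      rw [Finset.mem_insert] at hw
      rcases hw with rfl | hw
      · have h1 : (0 : ℤ) < ((e * mm w : ℕ) : ℤ) := by
          exact_mod_cast Nat.mul_pos he (Nat.pos_of_ne_zero hmw)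
        have h2 : (0 : ℤ) ≤ B * w0.ord g := by positivity
        have h3 := mul_pos h1 hA
        omega
      · have h1 := hg2 ⟨w, hw, hmw⟩
        have h2 : (0 : ℤ) < B * w0.ord g := mul_pos (by exact_mod_cast hBpos) h1
        have h3 : (0 : ℤ) ≤ ((e * mm w1 : ℕ) : ℤ) * w0.ord φ := by positivity
        omega
    · intro w hw
      rw [hord]
      rw [Finset.mem_insert] at hw
      rcases hw with rfl | hw
      · rw [hg4 w hw1 (fun h => h0.1 h.symm), hB']
        push_cast
        ring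
      · have h1 : w ≠ w1 := fun h => hw1 (h ▸ hw)
        have h2 : w ≠ w0 := fun h => h0.2 (h ▸ hw)
        rw [hg3 w hw, hoth w h2 h1]
        push_cast
        ring
    · intro w hw hw0
      rw [hord]
      rw [Finset.mem_insert, not_or] at hw
      rw [hg4 w hw.2 hw0, hoth w hw0 hw.1, mul_zero, mul_zero, add_zero]

/-- A function whose divisor is a positive multiple of `w0` minus a multiple of a given
effective divisor. -/
theorem exists_fun [Finite k] (hM : IsFunctionField k M) (w0 : Place k M)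
    (mm : Place k M → ℕ) (hfin : {w | mm w ≠ 0}.Finite) (h0 : mm w0 = 0)
    (hne : ∃ w, mm w ≠ 0) :
    ∃ (g : M) (e : ℕ), g ≠ 0 ∧ 0 < e ∧ 0 < w0.ord g ∧
      ∀ w, w ≠ w0 → w.ord g = -((e : ℤ) * mm w) := by
  obtain ⟨g, e, h1, h2, -, h4, h5, h6⟩ := exists_fun_aux hM w0 mm hfin.toFinset (by
    rw [Set.Finite.mem_toFinset]
    exact fun h => h h0)
  refine ⟨g, e, h1, h2, h4 ?_, fun w hw => ?_⟩
  · obtain ⟨w, hw⟩ := hne
    exact ⟨w, by rw [Set.Finite.mem_toFinset]; exact hw, hw⟩
  · by_cases h7 : mm w = 0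
    · rw [h6 w (by rw [Set.Finite.mem_toFinset]; exact fun h => h h7) hw, h7]
      simp
    · exact h5 w (by rw [Set.Finite.mem_toFinset]; exact h7)

end fn

end Pool.Agent.Helper17.KA
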