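import Pool.Agent.Helper17.KA.Zero
import Pool.Agent.Helper17.KA.Fn
import Pool.Agent.Helper19.KL.N12

set_option autoImplicit false
set_option linter.unusedSectionVars false

/-!
Project KA (MP_0b9e0b_ag), cycles of dimension `1` over a finite field: the relation given by a
cone over a curve.
-/

namespace Pool.Agent.Helper17.KA

open Pool.Agent.Helper16
open Pool.Agent.Helper1.KL (Var VarF Key key fld spec cyc relations rat CH coef Idx)
open Pool.Agent.Helper1.KL (At0 key_eq_iff key_map restr restr_map key_restr fld_restr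
  trdeg_fld_restr trdeg_fld_map essFiniteType_fld fld_eq_range)
open Pool.Agent.Helper1.KA
open Pool.Agent.Helper19.KL (homK at0_res one_add_X_ne rank_zero_of rank_le_one_of coef_ne spec_some
  spec_none res_sum res_natCast solve exists_gauss cz cz_some cz_none exists_resHomK key_cone
  transc_of alg_of_adjoin trdeg_adjoin_of_alg)

section rel

variable {k : Type} [Field k] {p a n : ℕ} {c : Fin n → k}
  {τ : Fin n → Option (ZMod p)} {M : Type} [Field M] [Algebra k M]
  {N κ : Type} [Field N] [Algebra k N] [Field κ] [Algebra k κ]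

/-- Points with integral coordinates specialise to points. -/
theorem yv_spec (v : Place k M) {z : Fin n → Option M} (hz : YV a c τ M z)
    (h : ∀ i u, z i = some u → u ∈ v.ring) : YV a c τ v.resField (spec v z) := by
  classical
  have hs : ∀ i u, z i = some u → spec v z i = some (v.res u) := by
    intro i u hu
    unfold spec
    rw [hu, Option.bind_some, if_pos (h i u hu)]
  have hg : ∀ i, (z i).getD 0 ∈ v.ring ∧ (spec v z i).getD 0 = v.res ((z i).getD 0) := by
    intro i
    cases hi : z i with
    | none =>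
      rw [spec_none v hi]
      simp only [Option.getD_none, v.res_zero, and_true]
      exact zero_mem _
    | some u =>
      rw [hs i u hi]
      exact ⟨h i u hi, rfl⟩
  have hnat : ∀ m : ℕ, ((m : ℕ) : M) ∈ v.ring ∧ v.res (m : M) = (m : v.resField) :=
    fun m => ⟨natCast_mem _ _, res_natCast v m⟩
  have halg : ∀ a : k, algebraMap k M a ∈ v.ring ∧
      v.res (algebraMap k M a) = algebraMap k v.resField a :=
    fun a => ⟨v.ring.algebraMap_mem a, v.res_algebraMap a⟩
  refine ⟨⟨fun i => ?_, ?_⟩, ?_⟩
  · rw [hz.1.1 i]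
    constructor
    · intro hi
      exact spec_none v hi
    · intro hi
      cases hzi : z i with
      | none => rfl
      | some u =>
        rw [hs i u hzi] at hi
        exact absurd hi (Option.some_ne_none _)
  · have h1 := (res_sum v Finset.univ
      (fun i => (coef τ i : M) * algebraMap k M (c i) * (z i).getD 0 ^ a)
      fun i _ => mul_mem (mul_mem (hnat _).1 (halg _).1) (pow_mem (hg i).1 _)).2
    rw [hz.1.2, v.res_zero] at h1
    refine Eq.trans ?_ h1.symm
    refine Finset.sum_congr rfl fun i _ => ?_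
    rw [v.res_mul (mul_mem (hnat _).1 (halg _).1) (pow_mem (hg i).1 _),
      v.res_mul (hnat _).1 (halg _).1, (hnat _).2, (halg _).2, v.res_pow (hg i).1, (hg i).2]
  · have h1 := (res_sum v Finset.univ (fun i => (coef τ i : M) * (z i).getD 0)
      fun i _ => mul_mem (hnat _).1 (hg i).1).2
    have h2 := hz.2
    unfold Bfun at h2 ⊢
    rw [h2, v.res_zero] at h1
    refine Eq.trans ?_ h1.symm
    refine Finset.sum_congr rfl fun i _ => ?_
    rw [v.res_mul (hnat _).1 (hg i).1, (hnat _).2, (hg i).2]

/-- The limit point at a place above the given one. -/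
theorem cone_limit [Algebra.IsAlgebraic k κ] {u : Fin n → Option M} (w0 : Place k M)
    (hw0 : ∀ i d, u i = some d → w0.val d ≤ 1) (v : Place k (RatFunc M))
    (hv1 : ∀ d : M, w0.val d ≤ 1 ↔ v.val (algebraMap M (RatFunc M) d) ≤ 1)
    (hv2 : ∀ d : M, w0.val d < 1 ↔ v.val (algebraMap M (RatFunc M) d) < 1)
    (hX : v.val (RatFunc.X : RatFunc M) = 1)
    {x : Fin n → Option N} {a0 : N} (ha0 : Transcendental k a0) (φ : κ →ₐ[k] N)
    (φ' : κ →ₐ[k] w0.resField) (d : Fin n → κ) (hx : ∀ i, (x i).getD 0 = φ (d i) * a0)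
    (hu : ∀ i, w0.res ((u i).getD 0) = φ' (d i)) (hn : ∀ i, u i = none ↔ x i = none) :
    ∃ ψ : κ →ₐ[k] v.resField,
      (∀ i, (spec v (cz u) i).getD 0 = ψ (d i) * v.res (RatFunc.X : RatFunc M)) ∧
      (∀ i, spec v (cz u) i = none ↔ u i = none) ∧
      (Transcendental k (v.res (RatFunc.X : RatFunc M)) → key k (spec v (cz u)) = key k x) := by
  obtain ⟨ρ, hρ⟩ := exists_resHomK v w0 hv1 hv2
  have hXr : (RatFunc.X : RatFunc M) ∈ v.ring := hX.le
  have h1 : ∀ i d, u i = some d → spec v (cz u) i =
      some (ρ (w0.res d) * v.res (RatFunc.X : RatFunc M)) := by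
    intro i d hd
    have h2 : w0.val d ≤ 1 := hw0 i d hd
    have h3 : algebraMap M (RatFunc M) d ∈ v.ring := (hv1 d).1 h2
    rw [hρ d h2, ← v.res_mul h3 hXr]
    unfold spec
    rw [cz_some hd, Option.bind_some, if_pos (mul_mem h3 hXr)]
  have h2 : ∀ i, spec v (cz u) i = none ↔ u i = none := by
    intro i
    cases hi : u i with
    | none => simp [spec_none v (cz_none hi)]
    | some d => simp [h1 i d hi]
  have h3 : ∀ i, (spec v (cz u) i).getD 0 =
      (ρ.comp φ') (d i) * v.res (RatFunc.X : RatFunc M) := by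
    intro i
    rw [AlgHom.comp_apply, ← hu i]
    cases hi : u i with
    | none =>
      rw [(h2 i).2 hi]
      simp only [Option.getD_none, w0.res_zero, map_zero, zero_mul]
    | some d =>
      rw [h1 i d hi]
      simp only [Option.getD_some]
  exact ⟨ρ.comp φ', h3, h2, fun hXt => key_cone (ρ.comp φ') φ d hXt ha0 h3 hx
    fun i => (h2 i).trans (hn i)⟩

/-- The order of the largest pole. -/
theorem exists_min {u : Fin n → Option M} {m : Fin n} (hm : u m = some 1) (w : Place k M) :
    ∃ e : ℕ, (∀ i d, u i = some d → d ≠ 0 → -(e : ℤ) ≤ w.ord d) ∧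
      ∃ i d, u i = some d ∧ d ≠ 0 ∧ w.ord d = -(e : ℤ) := by
  classical
  set F : Finset (Fin n) := Finset.univ.filter fun i => (u i).getD 0 ≠ 0 with hF
  have hmF : m ∈ F := by
    rw [hF, Finset.mem_filter]
    refine ⟨Finset.mem_univ _, ?_⟩
    rw [hm]
    exact one_ne_zero
  obtain ⟨i0, hi0, hmin⟩ := F.exists_min_image (fun i => w.ord ((u i).getD 0)) ⟨m, hmF⟩
  have h1 := hmin m hmF
  rw [hm, Option.getD_some, w.ord_one] at h1
  rw [hF, Finset.mem_filter] at hi0
  obtain ⟨d, hd⟩ : ∃ d, u i0 = some d := by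
    cases h : u i0 with
    | none =>
      rw [h] at hi0
      exact absurd rfl hi0.2
    | some d => exact ⟨d, rfl⟩
  have hd0 : d ≠ 0 := by
    have := hi0.2
    rwa [hd] at this
  rw [hd, Option.getD_some] at h1
  refine ⟨(-w.ord d).toNat, fun i e he he0 => ?_, i0, d, hd, hd0, by omega⟩
  have h2 := hmin i (by
    rw [hF, Finset.mem_filter]
    refine ⟨Finset.mem_univ _, ?_⟩
    rw [he]
    exact he0)
  rw [he, hd, Option.getD_some, Option.getD_some] at h2
  omega

/-- The relation given by a cone over a curve and a function with a single zero. -/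
theorem curve_rel [Finite k] [Algebra.IsAlgebraic k κ] (hM : IsFunctionField k M)
    {u : Fin n → Option M} (huY : YV a c τ M u) (w0 : Place k M)
    (hw0 : ∀ i d, u i = some d → w0.val d ≤ 1) {m : Fin n} (hm : u m = some 1)
    {l : Fin n} {s : M} (hl : u l = some s) (hs : Transcendental k s)
    {x : Fin n → Option N} {a0 : N} (ha0 : Transcendental k a0) (φ : κ →ₐ[k] N)
    (φ' : κ →ₐ[k] w0.resField) (d : Fin n → κ) (hx : ∀ i, (x i).getD 0 = φ (d i) * a0)
    (hu : ∀ i, w0.res ((u i).getD 0) = φ' (d i)) (hn : ∀ i, u i = none ↔ x i = none) :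
    Finsupp.single (key k x) 1 ∈ rat (YV a c τ) (PY a c τ) 1 := by
  classical
  choose mm hmm1 hmm2 using fun w : Place k M => exists_min hm w
  have hmm0 : mm w0 = 0 := by
    obtain ⟨i, e, he, he0, he1⟩ := hmm2 w0
    have h1 := (w0.ord_nonneg_iff he0).2 (hw0 i e he)
    omega
  have hne : ∃ w, mm w ≠ 0 := by
    obtain ⟨w, hw⟩ := hM.exists_zero s⁻¹ (transcendental_inv hs)
    have hs0 : s ≠ 0 := transcendental_ne_zero hs
    refine ⟨w, fun h0 => ?_⟩
    have h1 := hmm1 w l s hl hs0
    have h2 := (w.ord_pos_iff (inv_ne_zero hs0)).2 hw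
    rw [w.ord_inv] at h2
    rw [h0] at h1
    omega
  have hfin : {w | mm w ≠ 0}.Finite := by
    have h1 : ∀ i, {w : Place k M | w.ord ((u i).getD 0) ≠ 0}.Finite := by
      intro i
      obtain ⟨S, hS, -⟩ := hM.product_formula ((u i).getD 0)
      refine S.finite_toSet.subset fun w hw => ?_
      exact (hS w).2 hw
    refine (Set.finite_iUnion h1).subset fun w hw => ?_
    obtain ⟨i, e, he, he0, he1⟩ := hmm2 w
    refine Set.mem_iUnion.2 ⟨i, ?_⟩
    change w.ord ((u i).getD 0) ≠ 0
    rw [he, Option.getD_some, he1]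
    have : mm w ≠ 0 := hw
    omega
  obtain ⟨g, e, hg0, he, hg1, hg2⟩ := exists_fun hM w0 mm hfin hmm0 hne
  have hgR : algebraMap M (RatFunc M) g ≠ 0 := by
    rwa [Ne, map_eq_zero]
  have hf : algebraMap M (RatFunc M) g * RatFunc.X ^ e ≠ 0 :=
    mul_ne_zero hgR (pow_ne_zero _ RatFunc.X_ne_zero)
  have hordf : ∀ v : Place k (RatFunc M), v.ord (algebraMap M (RatFunc M) g * RatFunc.X ^ e) =
      v.ord (algebraMap M (RatFunc M) g) + e * v.ord (RatFunc.X : RatFunc M) := by
    intro v
    rw [v.ord_mul hgR (pow_ne_zero _ RatFunc.X_ne_zero),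
      Helper73.KL.ord_pow v RatFunc.X_ne_zero]
  have hz : YV a c τ (RatFunc M) (cz u) :=
    yv_sc huY (IsScalarTower.toAlgHom k M (RatFunc M)) RatFunc.X
  have hcm : φ' (d m) = 1 := by
    rw [← hu m, hm]
    exact w0.res_one
  have htr2 : Algebra.trdeg k (RatFunc M) = ((1 : ℕ) : Cardinal) + 1 :=
    HC.trdeg_ratFuncL (by rw [hM.2]; rfl)
  refine solve (V := YV a c τ) (P := PY a c τ) (HC.essFiniteType_ratFuncL hM.1) htr2 (z := cz u)
    (f := algebraMap M (RatFunc M) g * RatFunc.X ^ e) (Or.inl hz) hf le_rfl ?_ ?_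
  · intro v hv hw hwr
    left
    have hsn : ∀ i e, u i = some e → spec v (cz u) i ≠ none := by
      intro i e he h0
      have h1 := (hw.1.1 i).2 h0
      rw [huY.1.1 i, he] at h1
      exact absurd h1 (Option.some_ne_none _)
    have hint : ∀ i e, u i = some e → v.val (algebraMap M (RatFunc M) e * RatFunc.X) ≤ 1 := by
      intro i e he
      exact (spec_some v (cz_some he) (hsn i e he)).1
    -- some coordinate is a unit
    obtain ⟨i0, d0, hd0, hd1⟩ : ∃ i0 d0, u i0 = some d0 ∧
        v.val (algebraMap M (RatFunc M) d0 * RatFunc.X) = 1 := by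
      by_contra hcon
      push Not at hcon
      have h1 : ∀ i, (spec v (cz u) i).getD 0 = 0 := by
        intro i
        cases hi : u i with
        | none =>
          rw [spec_none v (cz_none hi)]
          rfl
        | some e =>
          have h2 := spec_some v (cz_some hi) (hsn i e hi)
          rw [h2.2, Option.getD_some]
          exact (v.res_eq_zero_iff h2.1).2 (lt_of_le_of_ne (hint i e hi) (hcon i e hi))
      rw [fld_eq_range, trdeg_adjoin_of_alg] at hwr
      · exact absurd hwr (by simp)
      · rintro _ ⟨i, rfl⟩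
        simp only [h1]
        exact isAlgebraic_zero
    have hd00 : d0 ≠ 0 := by
      rintro rfl
      rw [map_zero, zero_mul, map_zero] at hd1
      exact zero_ne_one hd1
    have hR : ∀ {e : M}, e ≠ 0 → algebraMap M (RatFunc M) e ≠ 0 := by
      intro e he
      rwa [Ne, map_eq_zero]
    have hord0 : v.ord (algebraMap M (RatFunc M) d0) + v.ord (RatFunc.X : RatFunc M) = 0 := by
      rw [← v.ord_mul (hR hd00) RatFunc.X_ne_zero]
      exact (v.ord_eq_zero_iff (mul_ne_zero (hR hd00) RatFunc.X_ne_zero)).2 hd1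
    by_cases htriv : ∃ g' : M, v.ord (algebraMap M (RatFunc M) g') ≠ 0
    swap
    · push Not at htriv
      exfalso
      apply hv
      rw [hordf, htriv, zero_add]
      rw [htriv, zero_add] at hord0
      rw [hord0, mul_zero]
    obtain ⟨w, ε, hε, hwe⟩ := Helper73.KL.exists_restrict (K := k) (L := M) v htriv
    have hε' : (0 : ℤ) < ε := by exact_mod_cast hε
    rw [hwe] at hord0
    have hmw : w.ord d0 = -(mm w : ℤ) := by
      refine le_antisymm ?_ (hmm1 w i0 d0 hd0 hd00)
      obtain ⟨i1, d1, hd1', hd10, hd1o⟩ := hmm2 w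
      have h1 := (v.ord_nonneg_iff (mul_ne_zero (hR hd10) RatFunc.X_ne_zero)).2 (hint i1 d1 hd1')
      rw [v.ord_mul (hR hd10) RatFunc.X_ne_zero, hwe, hd1o] at h1
      have h2 : (0 : ℤ) ≤ ε * (-(mm w : ℤ) - w.ord d0) := by
        have : (ε : ℤ) * (-(mm w : ℤ) - w.ord d0) = ε * -(mm w : ℤ) +
            v.ord (RatFunc.X : RatFunc M) := by
          linear_combination -hord0
        rw [this]
        exact h1
      have h3 := nonneg_of_mul_nonneg_right h2 hε'
      omega
    have hordX : v.ord (RatFunc.X : RatFunc M) = ε * mm w := by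
      rw [hmw] at hord0
      linear_combination hord0
    have hordf' : v.ord (algebraMap M (RatFunc M) g * RatFunc.X ^ e) =
        ε * (w.ord g + e * mm w) := by
      rw [hordf, hwe, hordX]
      ring
    have hww : w = w0 := by
      by_contra hne
      apply hv
      rw [hordf', hg2 w hne]
      ring
    subst hww
    have hX : v.val (RatFunc.X : RatFunc M) = 1 := by
      rw [← v.ord_eq_zero_iff RatFunc.X_ne_zero, hordX, hmm0]
      simp
    have hle : ∀ b : M, w.val b ≤ 1 ↔ v.val (algebraMap M (RatFunc M) b) ≤ 1 := by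
      intro b
      by_cases hb : b = 0
      · simp [hb]
      · rw [← w.ord_nonneg_iff hb, ← v.ord_nonneg_iff (hR hb), hwe]
        exact ⟨fun h => mul_nonneg hε'.le h, fun h => nonneg_of_mul_nonneg_right h hε'⟩
    have hlt : ∀ b : M, w.val b < 1 ↔ v.val (algebraMap M (RatFunc M) b) < 1 := by
      intro b
      by_cases hb : b = 0
      · simp [hb]
      · rw [← w.ord_pos_iff hb, ← v.ord_pos_iff (hR hb), hwe]
        exact ⟨fun h => mul_pos hε' h, fun h => pos_of_mul_pos_right h hε'.le⟩
    obtain ⟨ψ, h1, h2, h3⟩ := cone_limit w hw0 v hle hlt hX ha0 φ φ' d hx hu hn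
    refine ⟨h3 ?_, ?_⟩
    · refine transc_of (x := spec v (cz u)) (c := fun i => ψ (d i)) (fun i => ?_) h1
        (by exact_mod_cast hwr)
      exact (isAlgebraic_algHom_iff ψ ψ.injective).2 (Algebra.IsAlgebraic.isAlgebraic (d i))
    · rw [hordf', hmm0]
      have : (0 : ℤ) < ε * w.ord g := mul_pos hε' hg1
      simpa using this
  · obtain ⟨v, hv, hX, hXt⟩ := exists_gauss w0
    obtain ⟨ψ, h1, h2, h3⟩ := cone_limit w0 hw0 v (fun b => by rw [hv]) (fun b => by rw [hv]) hX
      ha0 φ φ' d hx hu hn
    have hunit : ∀ i b, cz u i = some b → b ∈ v.ring := by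
      intro i b hb
      cases hi : u i with
      | none =>
        rw [cz_none hi] at hb
        exact absurd hb.symm (Option.some_ne_none _)
      | some b' =>
        rw [cz_some hi] at hb
        rw [← Option.some.inj hb]
        refine mul_mem ?_ ?_
        · change v.val _ ≤ 1
          rw [hv]
          exact hw0 i b' hi
        · exact hX.le
    refine ⟨v, yv_spec v hz hunit, ?_, ?_, h3 hXt⟩
    · have h4 : Algebra.trdeg k (fld k (spec v (cz u))) ≤ ((1 : ℕ) : Cardinal) := by
        have h5 := HC.abh_adjoin (k₀ := k) v (M := RatFunc M) (s := 1) htr2.le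
          ⟨algebraMap M (RatFunc M) g, hgR, by
            rw [Algebra.algebraMap_self_apply, hv]
            exact ((w0.ord_pos_iff hg0).1 hg1).ne⟩
          (fun i : Fin n => (cz u i).getD 0) (fun i => by
            rw [Algebra.algebraMap_self_apply]
            cases hi : cz u i with
            | none => simp
            | some b => exact hunit i b hi)
        have h6 : (fun j => (spec v (cz u) j).getD 0) = fun i =>
            v.res (algebraMap (RatFunc M) (RatFunc M) ((cz u i).getD 0)) := by
          funext i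
          rw [Algebra.algebraMap_self_apply]
          cases hi : cz u i with
          | none => rw [spec_none v hi, Option.getD_none, Option.getD_none, v.res_zero]
          | some b =>
            have h7 : b ∈ v.ring := hunit i b hi
            unfold spec
            rw [hi, Option.bind_some, if_pos h7]
            rfl
        rw [fld_eq_range, h6]
        exact h5
      refine le_antisymm h4 ?_
      rw [Nat.cast_one, Cardinal.one_le_iff_ne_zero]
      intro h0
      rw [fld_eq_range] at h0
      have h5 := alg_of_adjoin h0 ⟨m, rfl⟩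
      simp only [h1 m] at h5
      have h6 : ψ (d m) = 1 := by
        have h7 : d m = 1 := φ'.injective (hcm.trans (map_one φ').symm)
        rw [h7, map_one]
      rw [h6, one_mul] at h5
      exact hXt h5
    · rw [v.ord_pos_iff hf, map_mul, map_pow, hX, one_pow, mul_one, hv]
      exact (w0.ord_pos_iff hg0).1 hg1

end rel

end Pool.Agent.Helper17.KA
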