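import Pool.Agent.Helper17.KA.Moving
import Pool.Agent.Helper17.KA.Rel

set_option autoImplicit false
set_option linter.unusedSectionVars false

/-!
Project KA (MP_0b9e0b_ag), cycles of dimension `1` over a finite field: cones with four or more
finite coordinates.
-/

namespace Pool.Agent.Helper17.KA

open Pool.Agent.Helper16
open Pool.Agent.Helper1.KL (Var VarF Key key fld spec cyc relations rat CH coef Idx)
open Pool.Agent.Helper1.KL (At0 key_eq_iff key_map restr restr_map key_restr fld_restr
  trdeg_fld_restr trdeg_fld_map essFiniteType_fld fld_eq_range IT)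
open Pool.Agent.Helper1.KA
open Pool.Agent.Helper19.KL (IsCone transc_of coef_ne mem_IT)

section near

variable {κ M : Type} [Field κ] [Field M] [Algebra κ M] {w : Place κ M} {x : M} {x0 : κ}

theorem near_le (h : w.val (x - algebraMap κ M x0) < 1) : w.val x ≤ 1 := by
  have h1 : x = (x - algebraMap κ M x0) + algebraMap κ M x0 := by ring
  rw [h1]
  exact (w.val.map_add _ _).trans (max_le h.le (w.val_algebraMap_le _))

theorem near_res (h : w.val (x - algebraMap κ M x0) < 1) :
    w.res x = w.res (algebraMap κ M x0) := by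
  have h1 : x ∈ w.ring := near_le h
  have h2 : algebraMap κ M x0 ∈ w.ring := w.ring.algebraMap_mem _
  have h3 := (w.res_eq_zero_iff (sub_mem h1 h2)).2 h
  rw [w.res_sub h1 h2] at h3
  exact sub_eq_zero.1 h3

end near

theorem coef_cast_ne (k : Type) [Field k] {p : ℕ} [Fact p.Prime] [CharP k p] {n : ℕ}
    {τ : Fin n → Option (ZMod p)} (N : Type) [Field N] [Algebra k N] {o : Fin n}
    (ho : coef τ o ≠ 0) : (coef τ o : N) ≠ 0 := by
  have hN : CharP N p := charP_of_injective_algebraMap (algebraMap k N).injective p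
  rw [Ne, CharP.cast_eq_zero_iff N p]
  intro h3
  have h4 : coef τ o < p := ZMod.val_lt _
  exact absurd (Nat.le_of_dvd (Nat.pos_of_ne_zero ho) h3) (not_le.2 h4)

section curve

variable {k : Type} [Field k] {p a : ℕ} [Fact p.Prime] [CharP k p] {n : ℕ} {c : Fin n → k}
  {τ : Fin n → Option (ZMod p)} {N κ : Type} [Field N] [Algebra k N] [Field κ] [Algebra k κ]

theorem isFunctionField_ext [FiniteDimensional k κ] {M : Type} [Field M] [Algebra k M]
    [Algebra (RatFunc κ) M] [IsScalarTower k (RatFunc κ) M]
    [FiniteDimensional (RatFunc κ) M] : IsFunctionField k M := by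
  have hff : IsFunctionField k (RatFunc κ) := by
    refine ⟨HC.essFiniteType_ratFuncL inferInstance, ?_⟩
    have h1 : Algebra.trdeg k κ = ((0 : ℕ) : Cardinal) := by
      rw [Nat.cast_zero, trdeg_eq_zero_iff]
      infer_instance
    have h2 := HC.trdeg_ratFuncL (K := k) (L := κ) h1
    rw [h2, Nat.cast_zero, zero_add]
  exact hff.of_finite

theorem mem_curve [Finite k] [FiniteDimensional k κ] {d : Fin n → Option κ}
    (hd : YV a c τ κ d) {i m j l : Fin n} (him : i ≠ m) (hij : i ≠ j) (hil : i ≠ l) (hmj : m ≠ j)
    (hml : m ≠ l) (hjl : j ≠ l) (hi : τ i ≠ none) (hj : τ j ≠ none) (hdm : d m = some 1)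
    (hl : coef τ l ≠ 0)
    {x : Fin n → Option N} (hx : YV a c τ N x) {a0 : N} (ha0 : Transcendental k a0)
    (φ : κ →ₐ[k] N) (hxd : ∀ o, (x o).getD 0 = φ ((d o).getD 0) * a0) :
    Finsupp.single (key k x) 1 ∈ rat (YV a c τ) (PY a c τ) 1 := by
  classical
  have hτm : τ m ≠ none := by
    intro h0
    rw [(hd.1.1 m).1 h0] at hdm
    exact Option.some_ne_none _ hdm.symm
  have hlκ : (coef τ l : κ) ≠ 0 := coef_cast_ne k κ hl
  obtain ⟨M, _, _, _, _, w, vals, hfin, h1, h2, h3, ⟨o0, ho0, h4⟩, h5⟩ :=
    exists_moving (a := a) (b := fun o => (coef τ o : κ) * algebraMap k κ (c o))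
      (r := fun o => (coef τ o : κ)) (D := fun o => (d o).getD 0) hjl hlκ hd.1.2 hd.2 him hij hil
      hmj hml (by rw [hdm]; rfl)
  let _ : Algebra k M := ((algebraMap κ M).comp (algebraMap k κ)).toAlgebra
  have _ : IsScalarTower k κ M := IsScalarTower.of_algebraMap_eq fun _ => rfl
  have _ : IsScalarTower k (RatFunc κ) M := IsScalarTower.of_algebraMap_eq fun r => by
    rw [IsScalarTower.algebraMap_apply k κ (RatFunc κ), ← IsScalarTower.algebraMap_apply κ
      (RatFunc κ) M]
    rfl
  have hM : IsFunctionField k M := isFunctionField_ext (κ := κ)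
  have hkM : ∀ r : k, algebraMap k M r = algebraMap κ M (algebraMap k κ r) := fun _ => rfl
  have huY : YV a c τ M (mk τ vals) := by
    refine yv_mk vals ?_ ?_
    · rw [← h1]
      refine Finset.sum_congr rfl fun o _ => ?_
      rw [map_mul, map_natCast, hkM]
    · rw [← h2]
      refine Finset.sum_congr rfl fun o _ => ?_
      rw [map_natCast]
  set v0 : Place k M := HC.under k w with hv0
  obtain ⟨φ', hφ'⟩ := HC.exists_resHomL (K := k) v0 (L := κ) (N := M) fun b hb => w.triv b hb
  have hτo : τ o0 ≠ none := by
    rcases ho0 with rfl | rfl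
    · exact hi
    · exact hj
  refine curve_rel hM huY v0 (fun o e he => ?_) (m := m) ?_ (l := o0) (s := vals o0)
    (mk_some vals hτo) ?_ ha0 φ φ' (fun o => (d o).getD 0) hxd (fun o => ?_) (fun o => ?_)
  · have ho : τ o ≠ none := by
      intro h0
      rw [(mk_none vals o).2 h0] at he
      exact Option.some_ne_none _ he.symm
    rw [mk_some vals ho] at he
    rw [← Option.some.inj he]
    exact near_le (w := w) (h5 o)
  · rw [mk_some vals hτm, h3]
  · intro hal
    have h6 : IsAlgebraic k (algebraMap (RatFunc κ) M RatFunc.X) := by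
      have h7 : algebraMap (RatFunc κ) M RatFunc.X = vals o0 -
          algebraMap κ M ((d o0).getD 0) := by
        rw [h4]
        ring
      rw [h7]
      exact hal.sub (Algebra.IsAlgebraic.isAlgebraic (R := k) ((d o0).getD 0)).algebraMap
    rw [isAlgebraic_algebraMap_iff (algebraMap (RatFunc κ) M).injective] at h6
    exact RatFunc.transcendental_X (h6.extendScalars (algebraMap k κ).injective)
  · rw [(hφ' _).2]
    by_cases ho : τ o = none
    · rw [(mk_none vals o).2 ho, (hd.1.1 o).1 ho]
      simp only [Option.getD_none, map_zero]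
    · rw [mk_some vals ho, Option.getD_some]
      exact near_res (w := w) (h5 o)
  · rw [mk_none, ← hx.1.1 o]

/-- Cones with four or more finite coordinates. -/
theorem mem_four [Finite k] (hτ : τ ∈ Idx p n) (hcard : 4 ≤ (IT τ).card)
    {x : Fin n → Option N} (hx : YV a c τ N x)
    (hr : Algebra.trdeg k (fld k x) = (1 : ℕ)) (hcone : IsCone k x) :
    Finsupp.single (key k x) 1 ∈ rat (YV a c τ) (PY a c τ) 1 := by
  classical
  -- a nonzero coordinate
  obtain ⟨m, hm0⟩ : ∃ m, (x m).getD 0 ≠ 0 := by
    by_contra hcon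
    push Not at hcon
    rw [fld_eq_range, Helper19.KL.trdeg_adjoin_of_alg] at hr
    · exact absurd hr (by simp)
    · rintro _ ⟨o, rfl⟩
      simp only [hcon o]
      exact isAlgebraic_zero
  have hτm : τ m ≠ none := by
    intro h0
    rw [(hx.1.1 m).1 h0] at hm0
    exact hm0 rfl
  -- another index with a nonzero coefficient
  obtain ⟨l, hlm, hl⟩ : ∃ l, l ≠ m ∧ coef τ l ≠ 0 := by
    by_contra hcon
    push Not at hcon
    obtain ⟨l, hl⟩ := hτ
    have hlm : l = m := by
      by_contra h
      exact hl (hcon l h)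
    subst hlm
    have h1 := hx.2
    unfold Bfun at h1
    rw [Finset.sum_eq_single l] at h1
    · rcases mul_eq_zero.1 h1 with h2 | h2
      · exact coef_cast_ne k N hl h2
      · exact hm0 h2
    · intro o _ ho
      rw [hcon o ho, Nat.cast_zero, zero_mul]
    · intro h3
      exact absurd (Finset.mem_univ _) h3
  obtain ⟨i, hi, hi'⟩ := Finset.exists_mem_notMem_of_card_lt_card
    (s := {m, l}) (t := IT τ) (lt_of_le_of_lt Finset.card_le_two (by omega))
  obtain ⟨j, hj, hj'⟩ := Finset.exists_mem_notMem_of_card_lt_card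
    (s := {m, l, i}) (t := IT τ) (lt_of_le_of_lt Finset.card_le_three (by omega))
  simp only [Finset.mem_insert, Finset.mem_singleton, not_or] at hi' hj'
  have hτi := mem_IT.1 hi
  have hτj := mem_IT.1 hj
  obtain ⟨am, hxm⟩ : ∃ am, x m = some am := by
    cases h : x m with
    | none =>
      rw [h] at hm0
      exact absurd rfl hm0
    | some am => exact ⟨am, rfl⟩
  have hgm : (x m).getD 0 = am := by rw [hxm]; rfl
  have ham : am ≠ 0 := by rwa [hgm] at hm0
  set κ : IntermediateField k N :=
    IntermediateField.adjoin k (Set.range fun o => (x o).getD 0 / am) with hκ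
  have hmem : ∀ o, (x o).getD 0 / am ∈ κ := fun o =>
    IntermediateField.subset_adjoin k _ ⟨o, rfl⟩
  have hfin : FiniteDimensional k κ := by
    rw [hκ]
    refine IntermediateField.finiteDimensional_adjoin ?_
    rintro _ ⟨o, rfl⟩
    have h1 := hcone o m
    rw [hgm] at h1
    exact h1.isIntegral
  let d : Fin n → Option κ := fun o => if x o = none then none else
    some ⟨(x o).getD 0 / am, hmem o⟩
  have hdg : ∀ o, (((d o).getD 0 : κ) : N) = (x o).getD 0 / am := by
    intro o
    simp only [d]
    by_cases h0 : x o = none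
    · rw [if_pos h0, h0]
      simp
    · rw [if_neg h0]
      rfl
  have hdY : YV a c τ κ d := by
    refine yv_of_map κ.val ?_
    have h1 := yv_sc hx (AlgHom.id k N) am⁻¹
    have h2 : (fun o => (d o).map κ.val) = sc (AlgHom.id k N) am⁻¹ x := by
      funext o
      cases ho : x o with
      | none =>
        rw [(sc_none _ _ _ _).2 ho]
        simp only [d]
        rw [if_pos ho]
        rfl
      | some e =>
        rw [sc_some _ _ ho]
        simp only [d]
        rw [if_neg (by rw [ho]; exact Option.some_ne_none _)]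
        simp only [Option.map_some]
        congr 1
        change (x o).getD 0 / am = e * am⁻¹
        rw [ho, Option.getD_some, div_eq_mul_inv]
    rw [h2]
    exact h1
  have hdm : d m = some 1 := by
    simp only [d]
    rw [if_neg (by rw [hxm]; exact Option.some_ne_none _)]
    congr 1
    apply Subtype.ext
    change (x m).getD 0 / am = 1
    rw [hgm, div_self ham]
  refine mem_curve hdY (i := i) (m := m) (j := j) (l := l) hi'.1 (Ne.symm hj'.2.2) hi'.2
    (Ne.symm hj'.1) (Ne.symm hlm) hj'.2.1 hτi hτj hdm hl hx (a0 := am) ?_ κ.val fun o => ?_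
  · refine transc_of (c := fun o => (x o).getD 0 / am) (fun o => ?_) (fun o => ?_) hr
    · have h1 := hcone o m
      rwa [hgm] at h1
    · field_simp
  · change (x o).getD 0 = (((d o).getD 0 : κ) : N) * am
    rw [hdg]
    field_simp

end curve

end Pool.Agent.Helper17.KA
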