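import Pool.Agent.Helper68.KA.LDefs

set_option autoImplicit false

/-!
Project KA (MP_0b9e0b_ag): the L-function for cycles of dimension one. Definitions.
-/

namespace Pool.Agent.Helper17.KA

open Pool.Agent.Helper1.KA Pool.Agent.Helper68.KA

/-- The trace of Frobenius on the third cohomology group of the product of the `n` curves
`y ^ p - y = t c i x ^ a + x` over the finite field `κ`: with `a i = trC κ p a t (c i)`, the sum
over the sets `s` of three indices of the products of the `a i`, `i` in `s`, plus `n - 1` times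
`#κ` times the sum of the `a i`. -/
noncomputable def trX (κ : Type) [Field κ] (p a : ℕ) {n : ℕ} (c : Fin n → κ) (t : κ) : ℤ :=
  ∑ s ∈ Finset.powersetCard 3 (Finset.univ : Finset (Fin n)), ∏ i ∈ s, trC κ p a t (c i) +
    ((n : ℤ) - 1) * Nat.card κ * ∑ i, trC κ p a t (c i)

/-- `L` is the power series with constant coefficient `1` and `T L' / L = ∑ e_N T^N`, where `e_N`
is the sum over the nonzero elements `t` of the extension `κ` of degree `N` of `k` of the numbers
`trX κ p a c t`. -/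
def IsL1 {k : Type} [Field k] (p a : ℕ) {n : ℕ} (c : Fin n → k) (L : PowerSeries ℚ) : Prop :=
  PowerSeries.constantCoeff L = 1 ∧ ∃ e : ℕ → ℚ, e 0 = 0 ∧
    (∀ (κ : Type) [Field κ] [Algebra k κ], Module.finrank k κ ≠ 0 →
      e (Module.finrank k κ) =
        ((∑ᶠ t : κˣ, trX κ p a (fun i => algebraMap k κ (c i)) t : ℤ) : ℚ)) ∧
    PowerSeries.X * PowerSeries.derivative ℚ L = L * PowerSeries.mk e

/-- The power series `U` converges absolutely for `|T| < R`. -/
def Conv (R : ℝ) (U : PowerSeries ℚ) : Prop :=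
  ∀ r : ℝ, 0 ≤ r → r < R → Summable fun N => |((PowerSeries.coeff N U : ℚ) : ℝ)| * r ^ N

/-- `L = P U` with a polynomial `P` with a zero of order `m` at `x`, and a power series `U` such
that `U` and `1 / U` converge for `|T| < R`; `|x| < R`. -/
def OrdAt (L : PowerSeries ℚ) (R : ℝ) (x : ℚ) (m : ℕ) : Prop :=
  |(x : ℝ)| < R ∧ ∃ (P : Polynomial ℚ) (U V : PowerSeries ℚ), L = (P : PowerSeries ℚ) * U ∧
    U * V = 1 ∧ Conv R U ∧ Conv R V ∧ P ≠ 0 ∧ P.rootMultiplicity x = m

/-- The number of the triples `(i, j, l)` with `i < j`, `l` in `F_p^*` and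
`c i = l ^ (a - 1) c j`. -/
noncomputable def isoN {k : Type} [Field k] (p a : ℕ) {n : ℕ} (c : Fin n → k) : ℕ :=
  Nat.card {x : Fin n × Fin n × (ZMod p)ˣ //
    x.1 < x.2.1 ∧ c x.1 = (((x.2.2 : ZMod p).val : ℕ) : k) ^ (a - 1) * c x.2.1}

/-- The bound for cycles of dimension one on `X`, over a finite field `k`. -/
def ExplicitOne {k : Type} [Field k] (p a : ℕ) {n : ℕ} (c : Fin n → k) : Prop :=
  ∃ (L : PowerSeries ℚ) (m : ℕ), IsL1 p a c L ∧
    OrdAt L (Real.sqrt ((Nat.card k : ℝ) ^ 3))⁻¹ (((Nat.card k : ℚ) ^ 2)⁻¹) m ∧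
    Module.rank ℚ (CHX p a c 1) ≤ ((n + (p - 1) * isoN p a c + m : ℕ) : Cardinal.{0})

end Pool.Agent.Helper17.KA
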