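import Pool.Agent.Helper19.KL.M6
import Pool.Agent.Helper17.KA.L1Defs

set_option autoImplicit false

/-!
Project KA (MP_0b9e0b_ag), the L-function for cycles of dimension one: the polynomial factor.
-/

namespace Pool.Agent.Helper17.KA

open Polynomial
open HC.LDW (IsLog geo isLog_lin isLog_prod)
open Helper19.KL (lin_ne rm_lin_one rm_pow rm_prod)

/-- The coefficients of the logarithmic derivative of `1 - (α X) ^ d`. -/
noncomputable def gcoef (α : ℚ) (d N : ℕ) : ℚ := if N ≠ 0 ∧ d ∣ N then -(d : ℚ) * α ^ N else 0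

theorem coeff_X_mul_der (f : PowerSeries ℚ) (N : ℕ) :
    PowerSeries.coeff N (PowerSeries.X * PowerSeries.derivative ℚ f) =
      N * PowerSeries.coeff N f := by
  rcases N with _ | N
  · simp
  · rw [PowerSeries.coeff_succ_X_mul, PowerSeries.coeff_derivative]
    push_cast
    ring

theorem isLog_pow_lin (α : ℚ) {d : ℕ} (hd : 0 < d) :
    IsLog ((1 - (C α * X) ^ d : ℚ[X]) : PowerSeries ℚ) (PowerSeries.mk (gcoef α d)) := by
  unfold IsLog
  have h1 : ((1 - (C α * X) ^ d : ℚ[X]) : PowerSeries ℚ) =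
      1 - PowerSeries.C (α ^ d) * PowerSeries.X ^ d := by
    rw [mul_pow, ← C_pow]
    push_cast
    rfl
  rw [h1]
  ext N
  rw [coeff_X_mul_der, sub_mul, one_mul, mul_assoc, map_sub, map_sub, PowerSeries.coeff_C_mul,
    PowerSeries.coeff_C_mul, PowerSeries.coeff_X_pow_mul', PowerSeries.coeff_X_pow,
    PowerSeries.coeff_one, PowerSeries.coeff_mk]
  simp only [PowerSeries.coeff_mk]
  unfold gcoef
  rcases Nat.eq_zero_or_pos N with h0 | h0
  · subst h0
    simp
  rcases lt_trichotomy N d with h | h | h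
  · have h2 : ¬ d ∣ N := fun h3 => absurd (Nat.le_of_dvd h0 h3) (not_le.2 h)
    simp [h0.ne', h2, h.ne, not_le.2 h]
  · subst h
    simp [h0.ne']
  · obtain ⟨m, rfl⟩ := Nat.exists_eq_add_of_le h.le
    have h3 : m ≠ 0 := by omega
    have h2 : d ∣ d + m ↔ d ∣ m := (Nat.dvd_add_iff_right (dvd_refl d)).symm
    rw [if_pos h.le, Nat.add_sub_cancel_left, if_neg h0.ne', if_neg h.ne']
    by_cases h4 : d ∣ m
    · rw [if_pos ⟨h0.ne', h2.2 h4⟩, if_pos ⟨h3, h4⟩]
      ring
    · rw [if_neg fun h5 => h4 (h2.1 h5.2), if_neg fun h5 => h4 h5.2]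
      ring

theorem isLog_cancel {A B a c : PowerSeries ℚ} (hA : IsLog A a) (hAB : IsLog (A * B) c)
    (h0 : A ≠ 0) : IsLog B (c - a) := by
  unfold IsLog at *
  rw [Derivation.leibniz] at hAB
  simp only [smul_eq_mul] at hAB
  refine mul_left_cancel₀ h0 ?_
  linear_combination hAB - B * hA

/-- The polynomial `1 + α X + ⋯ + (α X) ^ (d - 1)`. -/
noncomputable def gp (α : ℚ) (d : ℕ) : ℚ[X] := ∑ i ∈ Finset.range d, (C α * X) ^ i

theorem isLog_gp (α : ℚ) {d : ℕ} (hd : 0 < d) :
    IsLog ((gp α d : ℚ[X]) : PowerSeries ℚ) (PowerSeries.mk (gcoef α d) - geo α) := by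
  refine isLog_cancel (isLog_lin α) ?_ ?_
  · have h1 : ((1 - C α * X : ℚ[X]) : PowerSeries ℚ) * ((gp α d : ℚ[X]) : PowerSeries ℚ) =
        ((1 - (C α * X) ^ d : ℚ[X]) : PowerSeries ℚ) := by
      rw [← Polynomial.coe_mul]
      unfold gp
      rw [mul_neg_geom_sum]
    rw [h1]
    exact isLog_pow_lin α hd
  · intro h
    exact lin_ne α (Polynomial.coe_eq_zero_iff.1 h)

theorem gp_eval_zero (α : ℚ) {d : ℕ} (hd : 0 < d) : (gp α d).eval 0 = 1 := by
  unfold gp
  rw [Polynomial.eval_finsetSum, Finset.sum_eq_single 0]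
  · simp
  · intro i _ hi
    simp [hi]
  · intro h
    exact absurd (Finset.mem_range.2 hd) h

theorem gp_eval_ne {α : ℚ} (hα : α ≠ 0) {d : ℕ} (hd : 0 < d) : (gp α d).eval α⁻¹ ≠ 0 := by
  unfold gp
  rw [Polynomial.eval_finsetSum]
  have h1 : ∀ i ∈ Finset.range d, ((C α * X : ℚ[X]) ^ i).eval α⁻¹ = 1 := by
    intro i _
    rw [Polynomial.eval_pow, Polynomial.eval_mul, Polynomial.eval_C, Polynomial.eval_X,
      mul_inv_cancel₀ hα, one_pow]
  rw [Finset.sum_congr rfl h1, Finset.sum_const, Finset.card_range, nsmul_eq_mul, mul_one]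
  exact_mod_cast hd.ne'

theorem gp_ne (α : ℚ) {d : ℕ} (hd : 0 < d) : gp α d ≠ 0 := by
  intro h
  have := gp_eval_zero α hd
  rw [h] at this
  simp at this

theorem exists_P {α : ℚ} (hα : α ≠ 0) (M : ℕ) {ι κ : Type} (T : Finset ι) (S : ι → Finset κ)
    (hS : ∀ i ∈ T, (S i).Nonempty) (deg : ι → κ → ℕ) (hdeg : ∀ i ∈ T, ∀ j ∈ S i, 0 < deg i j) :
    ∃ P : ℚ[X], P.eval 0 = 1 ∧ P ≠ 0 ∧
      P.rootMultiplicity α⁻¹ = M + ∑ i ∈ T, ((S i).card - 1) ∧
      IsLog (P : PowerSeries ℚ) (PowerSeries.mk fun N => if N = 0 then 0 else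
        α ^ N * (-(M : ℚ) + ∑ i ∈ T, (1 - ((∑ j ∈ S i,
          if deg i j ∣ N then deg i j else 0 : ℕ) : ℚ)))) := by
  classical
  set M' := M + ∑ i ∈ T, ((S i).card - 1) with hM'
  set G : ℚ[X] := ∏ i ∈ T, ∏ j ∈ S i, gp α (deg i j) with hG
  have hG0 : G ≠ 0 := Finset.prod_ne_zero_iff.2 fun i hi =>
    Finset.prod_ne_zero_iff.2 fun j hj => gp_ne α (hdeg i hi j hj)
  have hP0 : (1 - C α * X : ℚ[X]) ^ M' * G ≠ 0 := mul_ne_zero (pow_ne_zero _ (lin_ne α)) hG0
  refine ⟨(1 - C α * X) ^ M' * G, ?_, hP0, ?_, ?_⟩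
  · rw [Polynomial.eval_mul, Polynomial.eval_pow, hG, Polynomial.eval_prod, Finset.prod_eq_one]
    · simp
    · intro i hi
      rw [Polynomial.eval_prod]
      exact Finset.prod_eq_one fun j hj => gp_eval_zero α (hdeg i hi j hj)
  · have h1 : G.rootMultiplicity α⁻¹ = 0 := by
      apply Polynomial.rootMultiplicity_eq_zero
      unfold Polynomial.IsRoot
      rw [hG, Polynomial.eval_prod]
      refine Finset.prod_ne_zero_iff.2 fun i hi => ?_
      rw [Polynomial.eval_prod]
      refine Finset.prod_ne_zero_iff.2 fun j hj => ?_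
      exact gp_eval_ne hα (hdeg i hi j hj)
    rw [Polynomial.rootMultiplicity_mul hP0, rm_pow (lin_ne α), rm_lin_one hα, h1, mul_one,
      add_zero]
  · have h1 : (((1 - C α * X) ^ M' * G : ℚ[X]) : PowerSeries ℚ) =
        ((1 - C α * X : ℚ[X]) : PowerSeries ℚ) ^ M' *
          ∏ i ∈ T, ∏ j ∈ S i, ((gp α (deg i j) : ℚ[X]) : PowerSeries ℚ) := by
      rw [hG]
      simp only [← Polynomial.coeToPowerSeries.ringHom_apply]
      rw [map_mul, map_pow, map_prod]
      congr 1
      exact Finset.prod_congr rfl fun i _ => map_prod _ _ _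
    have h2 := ((isLog_lin α).pow M').mul (isLog_prod T _ _ fun i hi =>
      isLog_prod (S i) (fun j => ((gp α (deg i j) : ℚ[X]) : PowerSeries ℚ)) _ fun j hj =>
        isLog_gp α (hdeg i hi j hj))
    rw [← h1] at h2
    have h3 : (M' • geo α + ∑ i ∈ T, ∑ j ∈ S i,
        (PowerSeries.mk (gcoef α (deg i j)) - geo α)) =
        (PowerSeries.mk fun N => if N = 0 then 0 else
          α ^ N * (-(M : ℚ) + ∑ i ∈ T, (1 - ((∑ j ∈ S i,
            if deg i j ∣ N then deg i j else 0 : ℕ) : ℚ)))) := by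
      ext N
      rw [map_add, map_nsmul, map_sum, PowerSeries.coeff_mk]
      have h4 : ∀ i ∈ T, PowerSeries.coeff N (∑ j ∈ S i,
          (PowerSeries.mk (gcoef α (deg i j)) - geo α)) =
          ∑ j ∈ S i, (gcoef α (deg i j) N - if N = 0 then 0 else -α ^ N) := by
        intro i _
        rw [map_sum]
        refine Finset.sum_congr rfl fun j _ => ?_
        rw [map_sub, PowerSeries.coeff_mk]
        unfold geo
        rw [PowerSeries.coeff_mk]
      rw [Finset.sum_congr rfl h4]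
      unfold geo gcoef
      rw [PowerSeries.coeff_mk]
      by_cases hN : N = 0
      · simp [hN]
      · simp only [ne_eq, hN, not_false_eq_true, true_and, if_false]
        have h5 : (M' : ℚ) = M + ∑ i ∈ T, (((S i).card : ℚ) - 1) := by
          rw [hM']
          push_cast
          congr 1
          refine Finset.sum_congr rfl fun i hi => ?_
          rw [Nat.cast_sub (Finset.card_pos.2 (hS i hi)), Nat.cast_one]
        rw [nsmul_eq_mul, h5]
        have h6 : ∀ i ∈ T, ∑ j ∈ S i, ((if deg i j ∣ N then -(deg i j : ℚ) * α ^ N else 0) -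
            -α ^ N) = α ^ N * ((S i).card : ℚ) - α ^ N * ((∑ j ∈ S i,
            if deg i j ∣ N then deg i j else 0 : ℕ) : ℚ) := by
          intro i _
          rw [Finset.sum_sub_distrib, Finset.sum_const, nsmul_eq_mul]
          have h7 : ∑ j ∈ S i, (if deg i j ∣ N then -(deg i j : ℚ) * α ^ N else 0) =
              -(α ^ N * ((∑ j ∈ S i, if deg i j ∣ N then deg i j else 0 : ℕ) : ℚ)) := by
            push_cast
            rw [Finset.mul_sum, ← Finset.sum_neg_distrib]
            refine Finset.sum_congr rfl fun j _ => ?_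
            split_ifs <;> ring
          rw [h7]
          ring
        have h8 : ∑ i ∈ T, (α ^ N * ((S i).card : ℚ) - α ^ N * ((∑ j ∈ S i,
            if deg i j ∣ N then deg i j else 0 : ℕ) : ℚ)) = α ^ N * ∑ i ∈ T, ((S i).card : ℚ) -
              α ^ N * ∑ i ∈ T, ((∑ j ∈ S i, if deg i j ∣ N then deg i j else 0 : ℕ) : ℚ) := by
          rw [Finset.sum_sub_distrib, Finset.mul_sum, Finset.mul_sum]
        rw [Finset.sum_congr rfl h6, h8, Finset.sum_sub_distrib, Finset.sum_sub_distrib]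
        ring
    rw [h3] at h2
    exact h2

end Pool.Agent.Helper17.KA
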