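import Pool.Agent.Helper17.KA.L1Defs

set_option autoImplicit false

/-!
Project KA (MP_0b9e0b_ag), the L-function for cycles of dimension one: the traces depend only on
the degree of the extension.
-/

namespace Pool.Agent.Helper17.KA

open Pool.Agent.Helper1.KA Pool.Agent.Helper68.KA

theorem curve_equiv {κ κ' : Type} [Field κ] [Field κ'] (σ : κ ≃+* κ') (p a : ℕ) (t c : κ)
    (x y : Option κ) : Curve p a t c x y ↔ Curve p a (σ t) (σ c) (x.map σ) (y.map σ) := by
  unfold Curve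
  constructor
  · rintro (⟨rfl, rfl⟩ | ⟨u, w, rfl, rfl, h⟩)
    · exact Or.inl ⟨rfl, rfl⟩
    · refine Or.inr ⟨σ u, σ w, rfl, rfl, ?_⟩
      rw [← map_pow, ← map_sub, h, map_add, map_mul, map_mul, map_pow]
  · rintro (⟨h1, h2⟩ | ⟨u, w, h1, h2, h⟩)
    · exact Or.inl ⟨Option.map_eq_none_iff.1 h1, Option.map_eq_none_iff.1 h2⟩
    · obtain ⟨u', rfl, rfl⟩ := Option.map_eq_some_iff.1 h1
      obtain ⟨w', rfl, rfl⟩ := Option.map_eq_some_iff.1 h2
      refine Or.inr ⟨u', w', rfl, rfl, σ.injective ?_⟩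
      rw [map_sub, map_pow, h, map_add, map_mul, map_mul, map_pow]

theorem trC_equiv {κ κ' : Type} [Field κ] [Field κ'] (σ : κ ≃+* κ') (p a : ℕ) (t c : κ) :
    trC κ p a t c = trC κ' p a (σ t) (σ c) := by
  unfold trC
  rw [Nat.card_congr σ.toEquiv]
  congr 2
  exact Nat.card_congr ((σ.toEquiv.optionCongr.prodCongr σ.toEquiv.optionCongr).subtypeEquiv
    fun z => curve_equiv σ p a t c z.1 z.2)

theorem trX_equiv {κ κ' : Type} [Field κ] [Field κ'] (σ : κ ≃+* κ') (p a : ℕ) {n : ℕ}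
    (c : Fin n → κ) (t : κ) : trX κ p a c t = trX κ' p a (fun i => σ (c i)) (σ t) := by
  unfold trX
  rw [Nat.card_congr σ.toEquiv]
  simp only [trC_equiv σ p a t]

theorem sum_trX_equiv {k κ κ' : Type} [Field k] [Field κ] [Field κ'] [Algebra k κ] [Algebra k κ']
    (σ : κ ≃ₐ[k] κ') (p a : ℕ) {n : ℕ} (c : Fin n → k) :
    ∑ᶠ t : κˣ, trX κ p a (fun i => algebraMap k κ (c i)) t =
      ∑ᶠ t : κ'ˣ, trX κ' p a (fun i => algebraMap k κ' (c i)) t := by
  rw [← finsum_comp_equiv (Units.mapEquiv (σ : κ ≃* κ')).toEquiv]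
  refine finsum_congr fun t => ?_
  rw [trX_equiv (σ : κ ≃+* κ') p a]
  congr 1
  funext i
  exact σ.commutes (c i)

theorem nonempty_algEquiv {k κ κ' : Type} [Field k] [Finite k] [Field κ] [Field κ'] [Algebra k κ]
    [Algebra k κ'] (h0 : Module.finrank k κ ≠ 0)
    (h : Module.finrank k κ = Module.finrank k κ') : Nonempty (κ ≃ₐ[k] κ') := by
  have h1 : Module.Finite k κ := Module.finite_of_finrank_pos (Nat.pos_of_ne_zero h0)
  have h2 : Module.Finite k κ' := Module.finite_of_finrank_pos (Nat.pos_of_ne_zero (h ▸ h0))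
  have h3 : Finite κ' := Module.finite_of_finite k
  obtain ⟨f⟩ := FiniteField.nonempty_algHom_of_finrank_dvd (F := k) (K := κ) (L := κ')
    (h ▸ dvd_refl _)
  refine ⟨AlgEquiv.ofBijective f ⟨f.toRingHom.injective, ?_⟩⟩
  exact (LinearMap.injective_iff_surjective_of_finrank_eq_finrank h (f := f.toLinearMap)).1
    f.toRingHom.injective

end Pool.Agent.Helper17.KA
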