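import Pool.Agent.Helper17.KA.Low

set_option autoImplicit false
set_option linter.unusedSectionVars false

/-!
Project KA (MP_0b9e0b_ag), cycles of dimension `1` over a finite field: the explicit bound.
-/

namespace Pool.Agent.Helper17.KA

open Pool.Agent.Helper16
open Pool.Agent.Helper1.KL (Var VarF Key key fld spec cyc relations rat CH coef Idx)
open Pool.Agent.Helper1.KL (fld_eq_range IT)
open Pool.Agent.Helper1.KA
open Pool.Agent.Helper19.KL (IsCone coef_ne mem_IT rank_zero_of)

/-- The indices `τ` with exactly `m` finite coordinates, all with nonzero coefficients. -/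
noncomputable def Full (p : ℕ) [NeZero p] (n m : ℕ) : Finset (Fin n → Option (ZMod p)) := by
  classical exact {τ | (∀ i, τ i ≠ some 0) ∧ (IT τ).card = m}

section one

variable {k : Type} [Field k] {p a : ℕ} [Fact p.Prime] [CharP k p] {n : ℕ} {c : Fin n → k}
  {τ : Fin n → Option (ZMod p)}

theorem coef_eq_zero_iff {i : Fin n} (hi : τ i ≠ none) : coef τ i = 0 ↔ τ i = some 0 := by
  have : NeZero p := ⟨(Fact.out : p.Prime).ne_zero⟩
  obtain ⟨ρ, hρ⟩ := Option.ne_none_iff_exists'.1 hi
  unfold coef
  rw [hρ, Option.getD_some, ZMod.val_eq_zero, Option.some.injEq]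

open scoped Classical in
/-- The contribution of the indices with two finite coordinates, one with coefficient zero. -/
noncomputable def half (p : ℕ) {n : ℕ} (τ : Fin n → Option (ZMod p)) : ℕ :=
  if ∃ i l : Fin n, i ≠ l ∧ coef τ i ≠ 0 ∧ τ l = some 0 ∧ ∀ o, o ≠ i → o ≠ l → τ o = none
  then 1 else 0

theorem sum_half [NeZero p] : ∑ τ : Fin n → Option (ZMod p), half p τ ≤ n * (n - 1) * (p - 1) := by
  classical
  unfold half
  rw [← Finset.card_filter]
  set T : Finset (Fin n → Option (ZMod p)) :=
    ((Finset.univ : Finset (Fin n)).offDiag ×ˢ Finset.univ.erase (0 : ZMod p)).image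
      (fun q => fun j => if j = q.1.1 then some q.2 else if j = q.1.2 then some 0 else none) with hT
  have hcard : T.card ≤ n * (n - 1) * (p - 1) := by
    refine Finset.card_image_le.trans ?_
    rw [Finset.card_product, Finset.offDiag_card, Finset.card_univ, Fintype.card_fin,
      Finset.card_erase_of_mem (Finset.mem_univ _), Finset.card_univ, ZMod.card,
      Nat.mul_sub n n 1, mul_one]
  refine (Finset.card_le_card fun τ hτ => ?_).trans hcard
  rw [Finset.mem_filter] at hτ
  obtain ⟨-, i, l, hil, hi, hl, h⟩ := hτ
  rw [hT, Finset.mem_image]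
  obtain ⟨ρ, hρ⟩ := Option.ne_none_iff_exists'.1 (coef_ne hi)
  refine ⟨((i, l), ρ), ?_, ?_⟩
  · rw [Finset.mem_product, Finset.mem_offDiag]
    refine ⟨⟨Finset.mem_univ _, Finset.mem_univ _, hil⟩,
      Finset.mem_erase.2 ⟨?_, Finset.mem_univ _⟩⟩
    intro h0
    apply hi
    unfold coef
    rw [hρ, show ρ = 0 from h0]
    simp
  · funext j
    by_cases hj : j = i
    · subst hj
      simp [hρ]
    by_cases hj' : j = l
    · subst hj'
      simp [hj, hl]
    · simp [hj, hj', h j hj hj']

open scoped Classical in
theorem sum_bound [Finite k] (ha : 2 ≤ a) (hak : (a : k) ≠ 0) (hc : ∀ i, c i ≠ 0)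
    (hbeta : ∀ {τ : Fin n → Option (ZMod p)}, τ ∈ Idx p n →
      (∀ (M : Type) [Field M] [Algebra k M] (y : Fin n → Option M), YV a c τ M y →
      Algebra.trdeg k (fld k y) = (1 : ℕ) → IsCone k y →
        Finsupp.single (key k y) 1 ∈ rat (YV a c τ) (PY a c τ) 1) →
      ∀ (N : Type) [Field N] [Algebra k N] (x : Fin n → Option N), YV a c τ N x →
      Algebra.trdeg k (fld k x) = (1 : ℕ) →
        Finsupp.single (key k x) 1 ∈ rat (YV a c τ) (PY a c τ) 1)
    (halpha : ∀ {τ : Fin n → Option (ZMod p)} {i j l : Fin n}, i ≠ j → i ≠ l → j ≠ l →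
      τ i ≠ none → τ j ≠ none → τ l ≠ none → coef τ l = 0 → Module.rank ℚ (CHY a c τ 1) = 0)
    (halpha2 : ∀ {τ : Fin n → Option (ZMod p)} {i l : Fin n}, i ≠ l → coef τ i ≠ 0 →
      τ l ≠ none → coef τ l = 0 → (∀ j, j ≠ i → j ≠ l → τ j = none) →
      Module.rank ℚ (CHY a c τ 1) ≤ 1) [NeZero p]
    (h : Main k p a n c 1) :
    Module.rank ℚ (CHX p a c 1) ≤ ((n + n * (n - 1) * (p - 1) +
      ∑ τ ∈ Full p n 2, Nat.card (KK a c τ) + ∑ τ ∈ Full p n 3, (Nat.card (KK a c τ) - 1) : ℕ) :
        Cardinal.{0}) := by
  classical
  have main : ∀ τ ∈ Idx p n, Module.rank ℚ (CHY a c τ 1) ≤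
      ((half p τ + (if τ ∈ Full p n 2 then Nat.card (KK a c τ) else 0) +
        (if τ ∈ Full p n 3 then Nat.card (KK a c τ) - 1 else 0) : ℕ) : Cardinal.{0}) := by
    intro τ hτ
    by_cases hfull : ∀ i, τ i ≠ some 0
    · have hall : ∀ i ∈ IT τ, coef τ i ≠ 0 := by
        intro i hi h0
        exact hfull i ((coef_eq_zero_iff (mem_IT.1 hi)).1 h0)
      have hF : ∀ m, τ ∈ Full p n m ↔ (IT τ).card = m := by
        intro m
        unfold Full
        rw [Finset.mem_filter]
        exact ⟨fun h => h.2.2, fun h => ⟨Finset.mem_univ _, hfull, h⟩⟩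
      obtain ⟨i, hi⟩ := hτ
      have hiI : i ∈ IT τ := mem_IT.2 (coef_ne hi)
      have hpos : 0 < (IT τ).card := Finset.card_pos.2 ⟨i, hiI⟩
      rcases Nat.lt_or_ge (IT τ).card 4 with h4 | h4
      · obtain hcard | hcard | hcard : (IT τ).card = 1 ∨ (IT τ).card = 2 ∨ (IT τ).card = 3 := by
          omega
        · -- one finite coordinate
          rw [rank_single hi]
          · exact bot_le
          · intro j hj
            by_contra h0
            rw [Finset.card_eq_one] at hcard
            obtain ⟨l, hl⟩ := hcard
            have h1 := mem_IT.2 h0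
            rw [hl, Finset.mem_singleton] at hiI h1
            exact hj (h1.trans hiI.symm)
        · -- two finite coordinates
          have h2 : τ ∈ Full p n 2 := (hF 2).2 hcard
          have h3 : τ ∉ Full p n 3 := fun h => by
            rw [hF, hcard] at h
            omega
          obtain ⟨j, hj, hji⟩ := Finset.exists_mem_notMem_of_card_lt_card
            (s := {i}) (t := IT τ) (by rw [Finset.card_singleton]; omega)
          rw [Finset.mem_singleton] at hji
          have h5 : ∀ o, o ≠ i → o ≠ j → τ o = none := by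
            intro o ho ho'
            by_contra h0
            have h6 : ({i, j, o} : Finset (Fin n)) ⊆ IT τ := by
              intro e he
              simp only [Finset.mem_insert, Finset.mem_singleton] at he
              rcases he with rfl | rfl | rfl
              · exact hiI
              · exact hj
              · exact mem_IT.2 h0
            have h7 := Finset.card_le_card h6
            rw [hcard, Finset.card_insert_of_notMem, Finset.card_insert_of_notMem,
              Finset.card_singleton] at h7
            · omega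
            · simp only [Finset.mem_singleton]
              exact Ne.symm ho'
            · simp only [Finset.mem_insert, Finset.mem_singleton, not_or]
              exact ⟨Ne.symm hji, Ne.symm ho⟩
          rw [if_pos h2, if_neg h3]
          refine (rank_le_card (finite_two (Ne.symm hji) hi (hall j hj) h5)).trans ?_
          rw [Nat.cast_le]
          omega
        · -- three finite coordinates
          have h2 : τ ∉ Full p n 2 := fun h => by
            rw [hF, hcard] at h
            omega
          have h3 : τ ∈ Full p n 3 := (hF 3).2 hcard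
          rw [if_neg h2, if_pos h3]
          refine (rank_three ha hak hc hall hcard).trans ?_
          rw [Nat.cast_le]
          omega
      · -- four or more
        rw [rank_zero_of fun N _ _ x hx hr => hbeta ⟨i, hi⟩ (fun M _ _ y hy hyr hyc =>
          mem_four ⟨i, hi⟩ h4 hy hyr hyc) N x hx (by exact_mod_cast hr)]
        exact bot_le
    · push Not at hfull
      obtain ⟨l, hl⟩ := hfull
      have hln : τ l ≠ none := by
        rw [hl]
        exact Option.some_ne_none _
      have hl0 : coef τ l = 0 := (coef_eq_zero_iff hln).2 hl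
      obtain ⟨i, hi⟩ := hτ
      have hil : i ≠ l := by
        rintro rfl
        exact hi hl0
      by_cases h2 : ∀ o, o ≠ i → o ≠ l → τ o = none
      · have h3 : half p τ = 1 := by
          unfold half
          rw [if_pos ⟨i, l, hil, hi, hl, h2⟩]
        refine (halpha2 hil hi hln hl0 h2).trans ?_
        rw [← Nat.cast_one, Nat.cast_le]
        omega
      · push Not at h2
        obtain ⟨j, hj, hjl, hj'⟩ := h2
        rw [halpha hj.symm hil hjl (coef_ne hi) hj' hln hl0]
        exact bot_le
  refine h.trans ?_
  rw [Nat.choose_one_right]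
  have h1 : (∑ τ : Fin n → Option (ZMod p) with τ ∈ Idx p n, Module.rank ℚ (CHY a c τ 1)) ≤
      ∑ τ : Fin n → Option (ZMod p), ((half p τ + (if τ ∈ Full p n 2 then Nat.card (KK a c τ)
        else 0) + (if τ ∈ Full p n 3 then Nat.card (KK a c τ) - 1 else 0) : ℕ) : Cardinal.{0}) := by
    rw [Finset.sum_filter]
    refine Finset.sum_le_sum fun τ _ => ?_
    by_cases hτ : τ ∈ Idx p n
    · rw [if_pos hτ]
      exact main τ hτ
    · rw [if_neg hτ]
      exact bot_le
  refine (add_le_add le_rfl h1).trans ?_
  rw [← Nat.cast_sum, ← Nat.cast_add, Nat.cast_le, Finset.sum_add_distrib, Finset.sum_add_distrib,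
    ← Finset.sum_filter, ← Finset.sum_filter, Finset.filter_mem_eq_inter, Finset.univ_inter,
    Finset.filter_mem_eq_inter, Finset.univ_inter]
  have h2 := sum_half (p := p) (n := n)
  omega

end one

end Pool.Agent.Helper17.KA
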