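import Pool.Agent.Helper17.KA.Nonempty
import Pool.Agent.Helper17.KA.Geo
import Pool.Agent.Helper17.KA.Inv
import Pool.Agent.Helper17.KA.One

set_option autoImplicit false

/-!
Project KA (MP_0b9e0b_ag): the L-function for cycles of dimension one.
-/

namespace Pool.Agent.Helper17.KA

open Pool.Agent.Helper1.KL (coef IT Key Idx)
open Pool.Agent.Helper1.KA
open Pool.Agent.Helper19.KL (mem_IT)
open HC.LDW (IsLog)
open Polynomial

section L1

variable {k : Type} [Field k] {p a : ℕ} [Fact p.Prime] [NeZero p] [CharP k p] {n : ℕ}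
  {c : Fin n → k}

omit [Fact p.Prime] in
theorem mem_Full {m : ℕ} {τ : Fin n → Option (ZMod p)} (h : τ ∈ Full p n m) :
    (∀ i ∈ IT τ, coef τ i ≠ 0) ∧ (IT τ).card = m := by
  classical
  unfold Full at h
  rw [Finset.mem_filter] at h
  refine ⟨fun i hi h0 => h.2.1 i ?_, h.2.2⟩
  obtain ⟨ρ, hρ⟩ := Option.ne_none_iff_exists'.1 (mem_IT.1 hi)
  unfold coef at h0
  rw [hρ, Option.getD_some, ZMod.val_eq_zero] at h0
  rw [hρ, h0]

/-- The bound for the sums of the traces. -/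
def BoundA {k : Type} [Field k] (p a : ℕ) [NeZero p] {n : ℕ} (c : Fin n → k) (C : ℕ) : Prop :=
  ∀ (κ : Type) [Field κ] [Finite κ] [Algebra k κ] (z : (Fin n → Option (ZMod p)) → ℕ),
    (∀ τ ∈ Full p n 3, Nat.card {D : Fin n → Option κ // YV a c τ κ D} =
      1 + (Nat.card κ - 1) * z τ) →
    |((∑ᶠ t : κˣ, trX κ p a (fun i => algebraMap k κ (c i)) t : ℤ) : ℝ) -
      (Nat.card κ : ℝ) ^ 2 * (-((n * (n - 1) * (p - 1) : ℕ) : ℝ) +
        ∑ τ ∈ Full p n 3, (1 - (z τ : ℝ)))| ≤ C * Real.sqrt ((Nat.card κ : ℝ) ^ 3)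

/-- The exponential of a power series. -/
def BoundB : Prop :=
  ∀ (C : ℕ) (R : ℝ), 0 < R → ∀ u : ℕ → ℚ, u 0 = 0 → (∀ N, |(u N : ℝ)| ≤ C * R ^ N) →
    ∃ U V : PowerSeries ℚ, PowerSeries.constantCoeff U = 1 ∧
      PowerSeries.X * PowerSeries.derivative ℚ U = U * PowerSeries.mk u ∧ U * V = 1 ∧
      Conv R⁻¹ U ∧ Conv R⁻¹ V

theorem exists_L1 [Finite k] (ha : 2 ≤ a) (hak : (a : k) ≠ 0) (hc : ∀ i, c i ≠ 0) {C : ℕ}
    (hA : BoundA p a c C) (hB : BoundB) :
    ∃ L : PowerSeries ℚ, IsL1 p a c L ∧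
      OrdAt L (Real.sqrt ((Nat.card k : ℝ) ^ 3))⁻¹ (((Nat.card k : ℚ) ^ 2)⁻¹)
        (n * (n - 1) * (p - 1) + ∑ τ ∈ Full p n 3, (Nat.card (KK a c τ) - 1)) := by
  classical
  set q : ℕ := Nat.card k with hq
  have hq1 : 1 < q := Finite.one_lt_card
  have hqQ : (1 : ℚ) < q := by exact_mod_cast hq1
  have hqR : (1 : ℝ) < q := by exact_mod_cast hq1
  set R : ℝ := Real.sqrt ((q : ℝ) ^ 3) with hR
  have hRpos : 0 < R := Real.sqrt_pos.2 (by positivity)
  have hα : ((q : ℚ) ^ 2) ≠ 0 := by positivity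
  -- the closed points
  have hex : ∀ τ : Fin n → Option (ZMod p), ∃ (deg : Key k (Fin n) → ℕ)
      (S : Finset (Key k (Fin n))), τ ∈ Full p n 3 → S.card = Nat.card (KK a c τ) ∧
      S.Nonempty ∧ (∀ Q ∈ S, 0 < deg Q) ∧ ∀ (κ : Type) [Field κ] [Finite κ] [Algebra k κ],
        Nat.card {D : Fin n → Option κ // YV a c τ κ D} =
          1 + (Nat.card κ - 1) * ∑ Q ∈ S, if deg Q ∣ Module.finrank k κ then deg Q else 0 := by
    intro τ
    by_cases hτ : τ ∈ Full p n 3
    · obtain ⟨hall, hcard⟩ := mem_Full hτ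
      obtain ⟨deg, h1, h2⟩ := card_points (c := c) ha hak hc hall hcard
      refine ⟨deg, (finite_KK ha hak hc hall hcard).toFinset, fun _ => ⟨?_, ?_, ?_, h2⟩⟩
      · rw [← Set.ncard_eq_toFinset_card _ (finite_KK ha hak hc hall hcard),
          Nat.card_coe_set_eq]
      · rw [Set.Finite.toFinset_nonempty]
        exact nonempty_KK (by omega) hall hcard
      · intro Q hQ
        exact h1 Q ((finite_KK ha hak hc hall hcard).mem_toFinset.1 hQ)
    · exact ⟨fun _ => 0, ∅, fun h => absurd h hτ⟩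
  choose deg S hS using hex
  obtain ⟨P, hP1, hP0, hPm, hPlog⟩ := exists_P hα (n * (n - 1) * (p - 1)) (Full p n 3) S
    (fun τ hτ => (hS τ hτ).2.1) deg (fun τ hτ => (hS τ hτ).2.2.1)
  set z : ℕ → (Fin n → Option (ZMod p)) → ℕ := fun N τ =>
    ∑ Q ∈ S τ, if deg τ Q ∣ N then deg τ Q else 0 with hz
  set main : ℕ → ℚ := fun N => if N = 0 then 0 else
    ((q : ℚ) ^ 2) ^ N * (-((n * (n - 1) * (p - 1) : ℕ) : ℚ) +
      ∑ τ ∈ Full p n 3, (1 - ((z N τ : ℕ) : ℚ))) with hmain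
  -- the numbers `e_N`
  have hval : ∀ N : ℕ, ∃ v : ℚ, (N = 0 → v = 0) ∧ (∀ (κ : Type) [Field κ] [Algebra k κ],
      Module.finrank k κ = N → N ≠ 0 →
        v = ((∑ᶠ t : κˣ, trX κ p a (fun i => algebraMap k κ (c i)) t : ℤ) : ℚ)) ∧
      |((v - main N : ℚ) : ℝ)| ≤ C * R ^ N := by
    intro N
    by_cases hN : N = 0
    · refine ⟨0, fun _ => rfl, fun κ _ _ _ h => absurd hN h, ?_⟩
      rw [hmain]
      simp only [if_pos hN, sub_zero, Rat.cast_zero, abs_zero]
      positivity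
    by_cases h : ∃ (κ : Type) (_ : Field κ) (_ : Algebra k κ), Module.finrank k κ = N
    · obtain ⟨κ, _, _, hκ⟩ := h
      have hfin : Module.Finite k κ := Module.finite_of_finrank_pos (by omega)
      have hfinκ : Finite κ := Module.finite_of_finite k
      refine ⟨((∑ᶠ t : κˣ, trX κ p a (fun i => algebraMap k κ (c i)) t : ℤ) : ℚ),
        fun h => absurd h hN, fun κ' _ _ hκ' _ => ?_, ?_⟩
      · obtain ⟨σ⟩ := nonempty_algEquiv (k := k) (κ := κ) (κ' := κ') (by omega) (by omega)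
        rw [sum_trX_equiv σ]
      · have h1 := hA κ (z N) (fun τ hτ => by rw [(hS τ hτ).2.2.2 κ, hκ])
        have h2 : (Nat.card κ : ℝ) = (q : ℝ) ^ N := by
          rw [Module.natCard_eq_pow_finrank (K := k) (V := κ), hκ]
          push_cast
          rfl
        have h3 : Real.sqrt ((Nat.card κ : ℝ) ^ 3) = R ^ N := by
          have h4 : R ^ 2 = (q : ℝ) ^ 3 := Real.sq_sqrt (by positivity)
          have h5 : ((q : ℝ) ^ N) ^ 3 = (R ^ N) ^ 2 := by
            rw [← pow_mul, mul_comm N 3, pow_mul, ← h4, ← pow_mul, ← pow_mul, mul_comm N 2]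
          rw [h2, h5, Real.sqrt_sq (by positivity)]
        rw [h3, h2] at h1
        refine le_trans (le_of_eq ?_) h1
        congr 1
        rw [hmain]
        simp only [if_neg hN]
        push_cast
        rw [← pow_mul, ← pow_mul, mul_comm 2 N]
    · refine ⟨main N, fun h => absurd h hN, fun κ _ _ hκ _ => absurd ⟨κ, _, _, hκ⟩ h, ?_⟩
      rw [sub_self, Rat.cast_zero, abs_zero]
      positivity
  choose e he0 he heb using hval
  obtain ⟨U, V, hU1, hUlog, hUV, hUc, hVc⟩ := hB C R hRpos (fun N => e N - main N)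
    (by rw [he0 0 rfl, hmain]; simp) heb
  refine ⟨(P : PowerSeries ℚ) * U, ⟨?_, e, he0 0 rfl, fun κ _ _ hκ => he _ κ rfl hκ, ?_⟩, ?_,
    P, U, V, rfl, hUV, hUc, hVc, hP0, ?_⟩
  · rw [map_mul, hU1, mul_one, Polynomial.constantCoeff_coe, Polynomial.coeff_zero_eq_eval_zero,
      hP1]
  · have h1 : IsLog ((P : PowerSeries ℚ) * U)
        (PowerSeries.mk main + PowerSeries.mk fun N => e N - main N) := hPlog.mul hUlog
    have h2 : (PowerSeries.mk main + PowerSeries.mk fun N => e N - main N) =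
        PowerSeries.mk e := by
      ext N
      rw [map_add, PowerSeries.coeff_mk, PowerSeries.coeff_mk, PowerSeries.coeff_mk]
      ring
    rw [h2] at h1
    exact h1
  · push_cast
    rw [abs_of_pos (by positivity)]
    refine inv_strictAnti₀ hRpos ?_
    rw [hR, Real.sqrt_lt' (by positivity)]
    have h1 : (0 : ℝ) < q ^ 3 := by positivity
    nlinarith
  · rw [hPm]
    congr 1
    exact Finset.sum_congr rfl fun τ hτ => by rw [(hS τ hτ).1]

end L1

end Pool.Agent.Helper17.KA
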