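import Pool.Agent.Helper17.KA.DivB

set_option autoImplicit false
set_option linter.unusedSectionVars false

/-!
Project KA (MP_0b9e0b_ag), cycles of dimension `1`: one or two finite coordinates with nonzero
coefficients.
-/

namespace Pool.Agent.Helper17.KA

open Pool.Agent.Helper16
open Pool.Agent.Helper1.KL (Var VarF Key key fld spec cyc relations rat CH coef Idx)
open Pool.Agent.Helper1.KL (At0 key_eq_iff key_map restr restr_map key_restr fld_restr
  trdeg_fld_restr trdeg_fld_map essFiniteType_fld fld_eq_range IT)
open Pool.Agent.Helper1.KA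
open Pool.Agent.Helper19.KL (IsCone transc_of coef_ne mem_IT key_cone rank_le_of cyc_le
  rank_zero_of)

section low

variable {k : Type} [Field k] {p a : ℕ} [Fact p.Prime] [CharP k p] {n : ℕ} {c : Fin n → k}
  {τ : Fin n → Option (ZMod p)} {N : Type} [Field N] [Algebra k N]

/-- No points if there is only one finite coordinate. -/
theorem rank_single {i : Fin n} (hi : coef τ i ≠ 0) (h : ∀ j, j ≠ i → τ j = none) :
    Module.rank ℚ (CHY a c τ 1) = 0 := by
  refine rank_zero_of fun N _ _ x hx hr => ?_
  exfalso
  have h0 : ∀ o, (x o).getD 0 = 0 := by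
    intro o
    by_cases ho : o = i
    · subst ho
      have h1 := hx.2
      unfold Bfun at h1
      rw [Finset.sum_eq_single o] at h1
      · exact (mul_eq_zero.1 h1).resolve_left (coef_cast_ne k N hi)
      · intro j _ hj
        rw [coef_none (h j hj), Nat.cast_zero, zero_mul]
      · intro h3
        exact absurd (Finset.mem_univ _) h3
    · rw [(hx.1.1 o).1 (h o ho)]
      rfl
  rw [fld_eq_range, Helper19.KL.trdeg_adjoin_of_alg] at hr
  · exact absurd hr (by simp)
  · rintro _ ⟨o, rfl⟩
    simp only [h0 o]
    exact isAlgebraic_zero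

/-- If there are two finite coordinates with nonzero coefficients, all points are on one line. -/
theorem key_two {i j : Fin n} (hij : i ≠ j) (hi : coef τ i ≠ 0) (hj : coef τ j ≠ 0)
    (h : ∀ o, o ≠ i → o ≠ j → τ o = none) {x : Fin n → Option N} (hx : YV a c τ N x)
    (hr : Algebra.trdeg k (fld k x) = (1 : ℕ)) {N' : Type} [Field N'] [Algebra k N']
    {x' : Fin n → Option N'} (hx' : YV a c τ N' x')
    (hr' : Algebra.trdeg k (fld k x') = (1 : ℕ)) : key k x = key k x' := by
  classical
  have hik := coef_cast_ne k k hi
  have hjk := coef_cast_ne k k hj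
  let d : Fin n → k := fun o => if o = i then 1 else if o = j then
    -(coef τ i : k) / (coef τ j : k) else 0
  have main : ∀ {N : Type} [Field N] [Algebra k N] {x : Fin n → Option N}, YV a c τ N x →
      ∀ o, (x o).getD 0 = Algebra.ofId k N (d o) * (x i).getD 0 := by
    intro N _ _ x hx o
    have h1 := hx.2
    unfold Bfun at h1
    rw [← Finset.sum_subset (Finset.subset_univ ({i, j} : Finset (Fin n))),
      Finset.sum_pair hij] at h1
    · by_cases ho : o = i
      · subst ho
        simp [d]
      by_cases ho' : o = j
      · subst ho'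
        simp only [d]
        rw [if_neg ho, if_pos trivial, Algebra.ofId_apply, map_div₀, map_neg, map_natCast,
          map_natCast]
        have hjN := coef_cast_ne k N hj
        field_simp
        linear_combination h1
      · simp only [d]
        rw [if_neg ho, if_neg ho', map_zero, zero_mul, (hx.1.1 o).1 (h o ho ho')]
        rfl
    · intro o _ ho
      rw [Finset.mem_insert, Finset.mem_singleton, not_or] at ho
      rw [coef_none (h o ho.1 ho.2), Nat.cast_zero, zero_mul]
  refine key_cone (κ := k) (Algebra.ofId k N) (Algebra.ofId k N') d ?_ ?_ (main hx) (main hx')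
    (fun o => by rw [← hx.1.1 o, ← hx'.1.1 o])
  · exact transc_of (c := fun o => Algebra.ofId k N (d o))
      (fun o => isAlgebraic_algebraMap (d o)) (main hx) hr
  · exact transc_of (c := fun o => Algebra.ofId k N' (d o))
      (fun o => isAlgebraic_algebraMap (d o)) (main hx') hr'

/-- The rank is at most the number of the lines. -/
theorem rank_le_card (hfin : (KK a c τ).Finite) :
    Module.rank ℚ (CHY a c τ 1) ≤ ((Nat.card (KK a c τ) : ℕ) : Cardinal.{0}) := by
  classical
  refine (rank_le_of (W := Submodule.span ℚ ((fun Q => Finsupp.single Q (1 : ℚ)) '' (KK a c τ)))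
    (cyc_le fun N _ _ x hx hr => ?_)).trans ?_
  · exact Submodule.mem_sup_right (Submodule.subset_span ⟨_, ⟨N, _, _, x, hx, hr, rfl⟩, rfl⟩)
  · refine (rank_span_le _).trans (Cardinal.mk_image_le.trans ?_)
    have := hfin.to_subtype
    rw [Nat.cast_card]

theorem finite_two {i j : Fin n} (hij : i ≠ j) (hi : coef τ i ≠ 0) (hj : coef τ j ≠ 0)
    (h : ∀ o, o ≠ i → o ≠ j → τ o = none) : (KK a c τ).Finite := by
  refine Set.Subsingleton.finite ?_
  rintro _ ⟨N, _, _, x, hx, hr, rfl⟩ _ ⟨N', _, _, x', hx', hr', rfl⟩
  exact key_two hij hi hj h hx hr hx' hr'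

end low

end Pool.Agent.Helper17.KA
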