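import Pool.Agent.Helper17.KA.Root
import Pool.Agent.Helper17.KA.Zero

set_option autoImplicit false
set_option linter.unusedSectionVars false

/-!
Project KA (MP_0b9e0b_ag), cycles of dimension `1` over a finite field: a curve through a given
point.
-/

namespace Pool.Agent.Helper17.KA

open Pool.Agent.Helper16
open Pool.Agent.Helper1.KL (Var VarF Key key fld spec cyc relations rat CH coef Idx)
open Pool.Agent.Helper1.KL (At0)
open Pool.Agent.Helper1.KA
open Pool.Agent.Helper19.KL (at0_add at0_mul at0_const at0_X at0_sum at0_neg at0_sub at0_ne)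

section split

theorem sum_split {n : ℕ} {E : Type} [AddCommGroup E] {j l : Fin n} (hjl : j ≠ l) (f : Fin n → E) :
    ∑ i, f i = (f j + f l) + ∑ i ∈ Finset.univ \ ({j, l} : Finset (Fin n)), f i := by
  classical
  rw [← Finset.sum_pair hjl, add_comm, Finset.sum_sdiff (Finset.subset_univ _)]

end split

section mk

variable {k : Type} [Field k] {p a n : ℕ} {c : Fin n → k}
  {τ : Fin n → Option (ZMod p)} {M : Type} [Field M] [Algebra k M]

/-- The point with given finite coordinates. -/
def mk {p n : ℕ} (τ : Fin n → Option (ZMod p)) {M : Type} (vals : Fin n → M) :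
    Fin n → Option M := fun o => (τ o).map fun _ => vals o

theorem mk_none (vals : Fin n → M) (o : Fin n) : mk τ vals o = none ↔ τ o = none := by
  unfold mk
  simp

theorem mk_some (vals : Fin n → M) {o : Fin n} (h : τ o ≠ none) : mk τ vals o = some (vals o) := by
  unfold mk
  obtain ⟨ρ, hρ⟩ := Option.ne_none_iff_exists'.1 h
  rw [hρ]
  rfl

theorem yv_mk (vals : Fin n → M)
    (h1 : ∑ o, (coef τ o : M) * algebraMap k M (c o) * vals o ^ a = 0)
    (h2 : ∑ o, (coef τ o : M) * vals o = 0) : YV a c τ M (mk τ vals) := by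
  refine ⟨⟨fun o => (mk_none vals o).symm, ?_⟩, ?_⟩
  · rw [← h1]
    refine Finset.sum_congr rfl fun o _ => ?_
    by_cases ho : τ o = none
    · rw [coef_none ho]
      simp
    · rw [mk_some vals ho]
      rfl
  · unfold Bfun
    rw [← h2]
    refine Finset.sum_congr rfl fun o _ => ?_
    by_cases ho : τ o = none
    · rw [coef_none ho]
      simp
    · rw [mk_some vals ho]
      rfl

end mk

section moving

variable {n : ℕ} {κ : Type} [Field κ] {a : ℕ} {b r D : Fin n → κ} {j l : Fin n}

/-- The last step. -/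
theorem fin_step (hjl : j ≠ l) (hr : r l ≠ 0) (hD2 : ∑ o, r o * D o = 0)
    {M : Type} [Field M] [Algebra κ M] (w : Place κ M) (v : Fin n → M) (y : M)
    (hv : ∀ o ∈ Finset.univ \ ({j, l} : Finset (Fin n)), w.val (v o - algebraMap κ M (D o)) < 1)
    (hy : w.val (y - algebraMap κ M (D j)) < 1)
    (heq : algebraMap κ M (b j) * y ^ a + algebraMap κ M (b l * (r l)⁻¹ ^ a) *
      (-(∑ o ∈ Finset.univ \ ({j, l} : Finset (Fin n)), algebraMap κ M (r o) * v o) -
        algebraMap κ M (r j) * y) ^ a +
      ∑ o ∈ Finset.univ \ ({j, l} : Finset (Fin n)), algebraMap κ M (b o) * v o ^ a = 0) :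
    ∃ vals : Fin n → M, (∀ o, o ≠ j → o ≠ l → vals o = v o) ∧ vals j = y ∧
      ∑ o, algebraMap κ M (b o) * vals o ^ a = 0 ∧ ∑ o, algebraMap κ M (r o) * vals o = 0 ∧
      ∀ o, w.val (vals o - algebraMap κ M (D o)) < 1 := by
  classical
  set T : Finset (Fin n) := Finset.univ \ {j, l} with hT
  set S0 : M := ∑ o ∈ T, algebraMap κ M (r o) * v o with hS0
  have hrM : algebraMap κ M (r l) ≠ 0 := by rwa [Ne, map_eq_zero]
  set z : M := (algebraMap κ M (r l))⁻¹ * (-S0 - algebraMap κ M (r j) * y) with hz
  let vals : Fin n → M := fun o => if o = j then y else if o = l then z else v o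
  have hvT : ∀ o, o ≠ j → o ≠ l → vals o = v o := by
    intro o h1 h2
    simp only [vals]
    rw [if_neg h1, if_neg h2]
  have hvj : vals j = y := if_pos rfl
  have hvl : vals l = z := by
    simp only [vals]
    rw [if_neg hjl.symm, if_pos trivial]
  have hmT : ∀ o ∈ T, o ≠ j ∧ o ≠ l := by
    intro o ho
    rw [hT, Finset.mem_sdiff, Finset.mem_insert, Finset.mem_singleton, not_or] at ho
    exact ho.2
  have hD2' := hD2
  rw [sum_split hjl] at hD2'
  have hD3 := congrArg (algebraMap κ M) hD2'
  simp only [map_add, map_mul, map_zero, map_sum] at hD3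
  refine ⟨vals, hvT, hvj, ?_, ?_, fun o => ?_⟩
  · rw [sum_split hjl, hvj, hvl, Finset.sum_congr rfl fun o ho => by
      rw [hvT o (hmT o ho).1 (hmT o ho).2]]
    rw [← heq]
    have h1 : algebraMap κ M (b l) * z ^ a = algebraMap κ M (b l * (r l)⁻¹ ^ a) *
        (-S0 - algebraMap κ M (r j) * y) ^ a := by
      rw [hz, mul_pow, map_mul, map_pow, map_inv₀, mul_assoc]
    rw [h1]
  · rw [sum_split hjl, hvj, hvl, Finset.sum_congr rfl fun o ho => by
      rw [hvT o (hmT o ho).1 (hmT o ho).2]]
    rw [hz, ← mul_assoc, mul_inv_cancel₀ hrM, one_mul, ← hS0]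
    ring
  · by_cases h1 : o = j
    · rw [h1, hvj]
      exact hy
    by_cases h2 : o = l
    · rw [h2, hvl]
      have h3 : z - algebraMap κ M (D l) = (algebraMap κ M (r l))⁻¹ *
          (-(∑ o ∈ T, algebraMap κ M (r o) * (v o - algebraMap κ M (D o))) -
            algebraMap κ M (r j) * (y - algebraMap κ M (D j))) := by
        have h4 : (algebraMap κ M (r l)) * algebraMap κ M (D l) =
            -(∑ o ∈ T, algebraMap κ M (r o) * algebraMap κ M (D o)) -
              algebraMap κ M (r j) * algebraMap κ M (D j) := by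
          linear_combination hD3
        have h5 : algebraMap κ M (D l) = (algebraMap κ M (r l))⁻¹ *
            (-(∑ o ∈ T, algebraMap κ M (r o) * algebraMap κ M (D o)) -
              algebraMap κ M (r j) * algebraMap κ M (D j)) := by
          rw [← h4, ← mul_assoc, inv_mul_cancel₀ hrM, one_mul]
        rw [h5, hz, ← mul_sub]
        congr 1
        have h6 : ∑ o ∈ T, algebraMap κ M (r o) * (v o - algebraMap κ M (D o)) =
            S0 - ∑ o ∈ T, algebraMap κ M (r o) * algebraMap κ M (D o) := by
          rw [hS0, ← Finset.sum_sub_distrib]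
          exact Finset.sum_congr rfl fun o _ => mul_sub _ _ _
        rw [h6]
        ring
      have h7 : ∀ (e : κ) {t : M}, w.val t < 1 → w.val (algebraMap κ M e * t) < 1 := by
        intro e t ht
        rw [map_mul, mul_comm]
        exact mul_lt_one_of_lt_of_le ht (w.val_algebraMap_le _)
      rw [h3, ← map_inv₀]
      refine h7 _ ?_
      refine w.val.map_sub_lt ?_ (h7 _ hy)
      rw [Valuation.map_neg]
      exact w.val.map_sum_lt one_ne_zero fun o ho => h7 _ (hv o ho)
    · rw [hvT o h1 h2]
      refine hv o ?_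
      rw [Finset.mem_sdiff, Finset.mem_insert, Finset.mem_singleton, not_or]
      exact ⟨Finset.mem_univ _, h1, h2⟩

/-- A curve through a point of the intersection of two hypersurfaces. -/
theorem exists_moving (hjl : j ≠ l) (hr : r l ≠ 0) (hD1 : ∑ o, b o * D o ^ a = 0)
    (hD2 : ∑ o, r o * D o = 0) {i m : Fin n} (him : i ≠ m) (hij : i ≠ j) (hil : i ≠ l)
    (hmj : m ≠ j) (hml : m ≠ l) (hDm : D m = 1) :
    ∃ (M : Type) (_ : Field M) (_ : Algebra κ M) (_ : Algebra (RatFunc κ) M)
      (_ : IsScalarTower κ (RatFunc κ) M) (w : Place κ M) (vals : Fin n → M),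
      FiniteDimensional (RatFunc κ) M ∧
      ∑ o, algebraMap κ M (b o) * vals o ^ a = 0 ∧ ∑ o, algebraMap κ M (r o) * vals o = 0 ∧
      vals m = 1 ∧ (∃ o, (o = i ∨ o = j) ∧ vals o = algebraMap κ M (D o) +
        algebraMap (RatFunc κ) M RatFunc.X) ∧
      ∀ o, w.val (vals o - algebraMap κ M (D o)) < 1 := by
  classical
  set T : Finset (Fin n) := Finset.univ \ {j, l} with hT
  have hmT : ∀ o, o ∈ T ↔ o ≠ j ∧ o ≠ l := by
    intro o
    rw [hT, Finset.mem_sdiff, Finset.mem_insert, Finset.mem_singleton, not_or]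
    exact ⟨fun h => h.2, fun h => ⟨Finset.mem_univ _, h⟩⟩
  obtain ⟨A0, hA0⟩ : ∃ A0 : κ, A0 = -∑ o ∈ T, r o * D o := ⟨_, rfl⟩
  obtain ⟨E0, hE0⟩ : ∃ E0 : κ, E0 = ∑ o ∈ T, b o * D o ^ a := ⟨_, rfl⟩
  have hA0' : A0 - r j * D j = r l * D l := by
    have h1 := hD2
    rw [sum_split hjl, ← hT] at h1
    rw [hA0]
    linear_combination -h1
  have hval : b j * D j ^ a + (b l * (r l)⁻¹ ^ a) * (A0 - r j * D j) ^ a + E0 = 0 := by
    have h1 := hD1
    rw [sum_split hjl, ← hT, ← hE0] at h1
    rw [hA0', mul_pow, ← h1, inv_pow]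
    field_simp
  obtain ⟨P0, hP0⟩ : ∃ P0 : Polynomial κ, P0 = Polynomial.C (b j) * Polynomial.X ^ a +
      Polynomial.C (b l * (r l)⁻¹ ^ a) * (Polynomial.C A0 + Polynomial.C (-r j) *
        Polynomial.X) ^ a + Polynomial.C E0 := ⟨_, rfl⟩
  by_cases h0 : P0 = 0
  · -- the line
    obtain ⟨w, hw⟩ := (isFunctionField_ratFunc κ).exists_zero RatFunc.X RatFunc.transcendental_X
    obtain ⟨vals, h1, h2, h3, h4, h5⟩ := fin_step (a := a) (b := b) (D := D) hjl hr hD2 w
      (fun o => algebraMap κ (RatFunc κ) (D o))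
      (algebraMap κ (RatFunc κ) (D j) + RatFunc.X) (fun o _ => by
        rw [sub_self, map_zero]
        exact zero_lt_one) (by rwa [add_sub_cancel_left]) (by
        have e1 := congrArg (Polynomial.aeval (algebraMap κ (RatFunc κ) (D j) + RatFunc.X)) h0
        rw [hP0] at e1
        simp only [map_add, map_mul, map_pow, Polynomial.aeval_C, Polynomial.aeval_X,
          map_zero] at e1
        rw [← e1, ← hT]
        have e2 : algebraMap κ (RatFunc κ) A0 =
            -∑ o ∈ T, algebraMap κ (RatFunc κ) (r o) * algebraMap κ (RatFunc κ) (D o) := by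
          rw [hA0]
          simp only [map_neg, map_sum, map_mul]
        have e3 : algebraMap κ (RatFunc κ) E0 =
            ∑ o ∈ T, algebraMap κ (RatFunc κ) (b o) * algebraMap κ (RatFunc κ) (D o) ^ a := by
          rw [hE0]
          simp only [map_sum, map_mul, map_pow]
        rw [e2, e3]
        simp only [map_neg, map_mul, map_pow, map_inv₀]
        ring)
    refine ⟨RatFunc κ, inferInstance, inferInstance, inferInstance, inferInstance, w, vals,
      inferInstance, h3, h4, ?_, ⟨j, Or.inr rfl, ?_⟩, h5⟩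
    · rw [h1 m hmj hml, hDm, map_one]
    · rw [h2]
      rfl
  · -- the general case
    let V : Fin n → RatFunc κ := fun o => algebraMap κ (RatFunc κ) (D o) +
      (if o = i then RatFunc.X else 0)
    have hV : ∀ o, At0 (V o) (D o) := by
      intro o
      have h : At0 ((if o = i then RatFunc.X else 0 : RatFunc κ)) (0 : κ) := by
        split_ifs
        · exact at0_X
        · have := at0_const (0 : κ)
          rwa [map_zero] at this
      have := at0_add (at0_const (D o)) h
      rwa [add_zero] at this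
    obtain ⟨A, hA⟩ : ∃ A : RatFunc κ, A = -∑ o ∈ T, algebraMap κ (RatFunc κ) (r o) * V o :=
      ⟨_, rfl⟩
    obtain ⟨E, hE⟩ : ∃ E : RatFunc κ, E = ∑ o ∈ T, algebraMap κ (RatFunc κ) (b o) * V o ^ a :=
      ⟨_, rfl⟩
    have hAt : At0 A A0 := by
      rw [hA, hA0]
      exact at0_neg (at0_sum _ _ _ fun o _ => at0_mul (at0_const _) (hV o))
    have hEt : At0 E E0 := by
      rw [hE, hE0]
      exact at0_sum _ _ _ fun o _ => at0_mul (at0_const _) (at0_pow (hV o) a)
    obtain ⟨P, hP⟩ : ∃ P : Polynomial (RatFunc κ),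
        P = Polynomial.C (algebraMap κ (RatFunc κ) (b j)) * Polynomial.X ^ a +
        Polynomial.C (algebraMap κ (RatFunc κ) (b l * (r l)⁻¹ ^ a)) * (Polynomial.C A +
          Polynomial.C (algebraMap κ (RatFunc κ) (-r j)) * Polynomial.X) ^ a + Polynomial.C E :=
      ⟨_, rfl⟩
    have hPAt : PAt P P0 := by
      rw [hP, hP0]
      exact pat_add (pat_add (pat_mul (pat_C (at0_const _)) (pat_pow pat_X a))
        (pat_mul (pat_C (at0_const _)) (pat_pow (pat_add (pat_C hAt)
          (pat_mul (pat_C (at0_const _)) pat_X)) a))) (pat_C hEt)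
    have hy : At0 (P.eval (algebraMap κ (RatFunc κ) (D j))) (0 : κ) := by
      rw [hP]
      simp only [Polynomial.eval_add, Polynomial.eval_mul, Polynomial.eval_pow, Polynomial.eval_C,
        Polynomial.eval_X]
      rw [← hval, sub_eq_add_neg, ← neg_mul]
      exact at0_add (at0_add (at0_mul (at0_const _) (at0_pow (at0_const _) a))
        (at0_mul (at0_const _) (at0_pow (at0_add hAt (at0_mul (at0_const _) (at0_const _))) a)))
        hEt
    obtain ⟨M, _, _, _, _, w, y, hfin, hw, hy1, hy2⟩ := exists_root hPAt h0 hy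
    have hκ : ∀ e : κ, algebraMap (RatFunc κ) M (algebraMap κ (RatFunc κ) e) = algebraMap κ M e :=
      fun e => (IsScalarTower.algebraMap_apply κ (RatFunc κ) M e).symm
    obtain ⟨vals, h1, h2, h3, h4, h5⟩ := fin_step (a := a) (b := b) (D := D) hjl hr hD2 w
      (fun o => algebraMap (RatFunc κ) M (V o)) y (fun o _ => Helper7.KL.at0_val w hw (hV o)) hy2
      (by
        rw [hP] at hy1
        simp only [Polynomial.map_add, Polynomial.map_mul, Polynomial.map_pow, Polynomial.map_C,
          Polynomial.map_X, Polynomial.eval_add, Polynomial.eval_mul, Polynomial.eval_pow,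
          Polynomial.eval_C, Polynomial.eval_X, hκ] at hy1
        rw [← hy1, ← hT]
        have e2 : algebraMap (RatFunc κ) M A =
            -∑ o ∈ T, algebraMap κ M (r o) * algebraMap (RatFunc κ) M (V o) := by
          rw [hA]
          simp only [map_neg, map_sum, map_mul, hκ]
        have e3 : algebraMap (RatFunc κ) M E =
            ∑ o ∈ T, algebraMap κ M (b o) * algebraMap (RatFunc κ) M (V o) ^ a := by
          rw [hE]
          simp only [map_sum, map_mul, map_pow, hκ]
        rw [e2, e3, map_neg]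
        ring)
    refine ⟨M, inferInstance, inferInstance, inferInstance, inferInstance, w, vals, hfin, h3, h4,
      ?_, ⟨i, Or.inl rfl, ?_⟩, h5⟩
    · rw [h1 m hmj hml]
      simp only [V]
      rw [if_neg him.symm, add_zero, hκ, hDm, map_one]
    · rw [h1 i hij hil]
      simp only [V]
      rw [if_pos trivial, map_add, hκ]

end moving

end Pool.Agent.Helper17.KA
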