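import Pool.Agent.Helper17.KA.Closed

set_option autoImplicit false
set_option linter.unusedSectionVars false

/-!
Project KA (MP_0b9e0b_ag), cycles of dimension `1`: three finite coordinates with nonzero
coefficients: there are points.
-/

namespace Pool.Agent.Helper17.KA

open Pool.Agent.Helper16
open Pool.Agent.Helper1.KL (coef IT)
open Pool.Agent.Helper1.KA
open Pool.Agent.Helper19.KL (coef_ne mem_IT cz)

theorem exists_form {L : Type} [Field L] [IsAlgClosed L] {a : ℕ} (ha : a ≠ 0)
    {b1 b2 b3 r1 r2 r3 : L} (hr3 : r3 ≠ 0) : ∃ x1 x2 x3 : L, (x1 ≠ 0 ∨ x2 ≠ 0) ∧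
      b1 * x1 ^ a + b2 * x2 ^ a + b3 * x3 ^ a = 0 ∧ r1 * x1 + r2 * x2 + r3 * x3 = 0 := by
  by_cases hdeg : (Hf a b1 b2 b3 r1 r2 r3).degree = 0
  · refine ⟨1, 0, -r1 / r3, Or.inl one_ne_zero, ?_, ?_⟩
    · have h1 : (Hf a b1 b2 b3 r1 r2 r3).coeff a = 0 := by
        apply Polynomial.coeff_eq_zero_of_natDegree_lt
        rw [Polynomial.natDegree_eq_of_degree_eq_some hdeg]
        exact Nat.pos_of_ne_zero ha
      unfold Hf at h1
      have h2 : (Polynomial.C r1 * Polynomial.X + Polynomial.C r2 : Polynomial L).natDegree ≤ 1 :=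
        Polynomial.natDegree_linear_le
      have h3 := Polynomial.coeff_pow_of_natDegree_le (m := a) h2
      rw [mul_one] at h3
      rw [Polynomial.coeff_add, Polynomial.coeff_add, Polynomial.coeff_C_mul,
        Polynomial.coeff_X_pow_self, Polynomial.coeff_C_ne_zero ha, Polynomial.coeff_C_mul,
        h3] at h1
      simp only [Polynomial.coeff_add, Polynomial.coeff_C_mul, Polynomial.coeff_X_one,
        Polynomial.coeff_C_ne_zero one_ne_zero, mul_one, add_zero] at h1
      rw [one_pow, zero_pow ha, mul_one, mul_zero, add_zero, ← h1, mul_assoc, ← mul_pow]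
      congr 3
      field_simp
    · field_simp
      ring
  · obtain ⟨y, hy⟩ := IsAlgClosed.exists_root (Hf a b1 b2 b3 r1 r2 r3) hdeg
    refine ⟨y, 1, -(r1 * y + r2) / r3, Or.inr one_ne_zero, ?_, ?_⟩
    · unfold Polynomial.IsRoot Hf at hy
      simp only [Polynomial.eval_add, Polynomial.eval_mul, Polynomial.eval_C, Polynomial.eval_pow,
        Polynomial.eval_X] at hy
      rw [one_pow, mul_one, ← hy, mul_assoc, ← mul_pow]
      congr 3
      field_simp
    · field_simp
      ring

section three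

variable {k : Type} [Field k] {p a : ℕ} [Fact p.Prime] [CharP k p] {n : ℕ} {c : Fin n → k}
  {τ : Fin n → Option (ZMod p)}

theorem nonempty_KK (ha : a ≠ 0) (hall : ∀ i ∈ IT τ, coef τ i ≠ 0) (hcard : (IT τ).card = 3) :
    (KK a c τ).Nonempty := by
  classical
  set L := AlgebraicClosure k with hL
  obtain ⟨i, hi⟩ : (IT τ).Nonempty := Finset.card_pos.1 (by omega)
  obtain ⟨j, hj, hji⟩ := Finset.exists_mem_notMem_of_card_lt_card
    (s := {i}) (t := IT τ) (by rw [Finset.card_singleton]; omega)
  rw [Finset.mem_singleton] at hji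
  obtain ⟨l, hl, hli, hlj, hI⟩ := exists_three hcard hi hj (Ne.symm hji)
  have hlL : (coef τ l : L) ≠ 0 := coef_cast_ne k L (hall l hl)
  obtain ⟨x1, x2, x3, h0, h1, h2⟩ := exists_form (L := L) ha
    (b1 := (coef τ i : L) * algebraMap k L (c i)) (b2 := (coef τ j : L) * algebraMap k L (c j))
    (b3 := (coef τ l : L) * algebraMap k L (c l)) (r1 := (coef τ i : L)) (r2 := (coef τ j : L))
    hlL
  let vals : Fin n → L := fun o => if o = i then x1 else if o = j then x2 else
    if o = l then x3 else 0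
  have hvi : vals i = x1 := by simp [vals]
  have hvj : vals j = x2 := by simp [vals, hji]
  have hvl : vals l = x3 := by simp [vals, hli, hlj]
  have hY : YV a c τ L (mk τ vals) := by
    refine yv_mk vals ?_ ?_
    · rw [sum_three (Ne.symm hji) (Ne.symm hli) (Ne.symm hlj) hI _
        (fun o ho => by rw [coef_none ho]; simp), hvi, hvj, hvl]
      exact h1
    · rw [sum_three (Ne.symm hji) (Ne.symm hli) (Ne.symm hlj) hI _
        (fun o ho => by rw [coef_none ho]; simp), hvi, hvj, hvl]
      exact h2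
  refine ⟨_, cz_mem_KK hY ?_⟩
  rcases h0 with h0 | h0
  · refine ⟨i, ?_⟩
    rw [mk_some vals (mem_IT.1 hi), Option.getD_some, hvi]
    exact h0
  · refine ⟨j, ?_⟩
    rw [mk_some vals (mem_IT.1 hj), Option.getD_some, hvj]
    exact h0

end three

end Pool.Agent.Helper17.KA
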