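import Pool.Agent.Helper19.KL.N11

set_option autoImplicit false
set_option linter.unusedSectionVars false

/-!
Project KA (MP_0b9e0b_ag), cycles of dimension `1` over a finite field: roots of polynomials which
specialise to a given root.
-/

namespace Pool.Agent.Helper17.KA

open Pool.Agent.Helper16
open Pool.Agent.Helper1.KL (At0)
open Pool.Agent.Helper19.KL (at0_add at0_mul at0_const at0_X at0_sum at0_neg at0_sub at0_ne)

section val

variable {κ M : Type} [Field κ] [Field M] [Algebra κ M] (w : Place κ M)

/-- If no root is near `y0`, all coefficients are at most the value at `y0`. -/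
theorem coeff_le_eval {y0 : M} (hy0 : w.val y0 ≤ 1) (s : Multiset M)
    (hs : ∀ r ∈ s, 1 ≤ w.val (r - y0)) (j : ℕ) :
    w.val ((s.map fun r => Polynomial.X - Polynomial.C r).prod.coeff j) ≤
      w.val ((s.map fun r => Polynomial.X - Polynomial.C r).prod.eval y0) := by
  induction s using Multiset.induction_on generalizing j with
  | empty =>
    simp only [Multiset.map_zero, Multiset.prod_zero, Polynomial.eval_one, map_one,
      Polynomial.coeff_one]
    split_ifs
    · rw [map_one]
    · rw [map_zero]
      exact zero_le_one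
  | cons r s ih =>
    have hr : 1 ≤ w.val (r - y0) := hs r (Multiset.mem_cons_self r s)
    have ih' := ih fun r' hr' => hs r' (Multiset.mem_cons_of_mem hr')
    have hr' : w.val r ≤ w.val (r - y0) := by
      have h1 : r = (r - y0) + y0 := by ring
      conv_lhs => rw [h1]
      exact (w.val.map_add _ _).trans (max_le le_rfl (hy0.trans hr))
    rw [Multiset.map_cons, Multiset.prod_cons, Polynomial.eval_mul, map_mul, Polynomial.eval_sub,
      Polynomial.eval_X, Polynomial.eval_C, w.val.map_sub_swap y0 r]
    set Q := (s.map fun r => Polynomial.X - Polynomial.C r).prod with hQ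
    have h2 : w.val ((-Polynomial.C r * Q).coeff j) ≤ w.val (r - y0) * w.val (Q.eval y0) := by
      rw [neg_mul, Polynomial.coeff_neg, Valuation.map_neg, Polynomial.coeff_C_mul, map_mul]
      exact mul_le_mul' hr' (ih' j)
    have h3 : w.val ((Polynomial.X * Q).coeff j) ≤ w.val (r - y0) * w.val (Q.eval y0) := by
      cases j with
      | zero =>
        rw [Polynomial.coeff_X_mul_zero, map_zero]
        exact bot_le
      | succ j =>
        rw [Polynomial.coeff_X_mul]
        calc w.val (Q.coeff j) ≤ w.val (Q.eval y0) := ih' j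
          _ = 1 * w.val (Q.eval y0) := (one_mul _).symm
          _ ≤ _ := mul_le_mul' hr le_rfl
    have h4 : (Polynomial.X - Polynomial.C r) * Q = Polynomial.X * Q + -Polynomial.C r * Q := by
      ring
    rw [h4, Polynomial.coeff_add]
    exact (w.val.map_add _ _).trans (max_le h3 h2)

/-- A split polynomial with a small value at `y0` and a coefficient which is not small has a root
near `y0`. -/
theorem exists_root_near {P : Polynomial M} (hP : P.Splits) {y0 : M} (hy0 : w.val y0 ≤ 1)
    (h1 : w.val (P.eval y0) < 1) {j : ℕ} (hj : 1 ≤ w.val (P.coeff j)) :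
    ∃ r : M, P.eval r = 0 ∧ w.val (r - y0) < 1 := by
  by_contra hcon
  push Not at hcon
  have hP0 : P ≠ 0 := by
    rintro rfl
    rw [Polynomial.coeff_zero, map_zero] at hj
    exact absurd hj (not_le.2 zero_lt_one)
  have h2 := hP.eq_prod_roots
  have h3 := coeff_le_eval w hy0 P.roots (fun r hr => hcon r ((Polynomial.mem_roots hP0).1 hr)) j
  have h4 : w.val (P.coeff j) ≤ w.val (P.eval y0) := by
    rw [h2, Polynomial.coeff_C_mul, Polynomial.eval_mul, Polynomial.eval_C, map_mul, map_mul]
    exact mul_le_mul' le_rfl h3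
  exact absurd (hj.trans h4) (not_le.2 h1)

end val

section pat

variable {κ : Type} [Field κ]

/-- All coefficients of `P` are regular at `0`, with the values given by `P0`. -/
def PAt (P : Polynomial (RatFunc κ)) (P0 : Polynomial κ) : Prop :=
  ∀ j, At0 (P.coeff j) (P0.coeff j)

theorem pat_C {g : RatFunc κ} {c : κ} (h : At0 g c) :
    PAt (Polynomial.C g) (Polynomial.C c) := by
  intro j
  rw [Polynomial.coeff_C, Polynomial.coeff_C]
  split_ifs
  · exact h
  · have := at0_const (0 : κ)
    rwa [map_zero] at this

theorem pat_X : PAt (Polynomial.X : Polynomial (RatFunc κ)) (Polynomial.X : Polynomial κ) := by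
  intro j
  rw [Polynomial.coeff_X, Polynomial.coeff_X]
  split_ifs
  · have := at0_const (1 : κ)
    rwa [map_one] at this
  · have := at0_const (0 : κ)
    rwa [map_zero] at this

theorem pat_add {P Q : Polynomial (RatFunc κ)} {P0 Q0 : Polynomial κ} (h : PAt P P0)
    (h' : PAt Q Q0) : PAt (P + Q) (P0 + Q0) := by
  intro j
  rw [Polynomial.coeff_add, Polynomial.coeff_add]
  exact at0_add (h j) (h' j)

theorem pat_mul {P Q : Polynomial (RatFunc κ)} {P0 Q0 : Polynomial κ} (h : PAt P P0)
    (h' : PAt Q Q0) : PAt (P * Q) (P0 * Q0) := by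
  intro j
  rw [Polynomial.coeff_mul, Polynomial.coeff_mul]
  exact at0_sum _ _ _ fun e _ => at0_mul (h _) (h' _)

theorem pat_pow {P : Polynomial (RatFunc κ)} {P0 : Polynomial κ} (h : PAt P P0) (m : ℕ) :
    PAt (P ^ m) (P0 ^ m) := by
  induction m with
  | zero =>
    rw [pow_zero, pow_zero]
    have h1 := at0_const (1 : κ)
    rw [map_one] at h1
    have := pat_C h1
    rwa [map_one, map_one] at this
  | succ m ih =>
    rw [pow_succ, pow_succ]
    exact pat_mul ih h

theorem at0_pow {g : RatFunc κ} {c : κ} (h : At0 g c) (m : ℕ) : At0 (g ^ m) (c ^ m) := by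
  induction m with
  | zero =>
    rw [pow_zero, pow_zero]
    have h1 := at0_const (1 : κ)
    rwa [map_one] at h1
  | succ m ih =>
    rw [pow_succ, pow_succ]
    exact at0_mul ih h

/-- A root near `y0` over an extension of the field of rational functions. -/
theorem exists_root {P : Polynomial (RatFunc κ)} {P0 : Polynomial κ} (h : PAt P P0) (hP0 : P0 ≠ 0)
    {y0 : κ} (hy : At0 (P.eval (algebraMap κ (RatFunc κ) y0)) (0 : κ)) :
    ∃ (M : Type) (_ : Field M) (_ : Algebra κ M) (_ : Algebra (RatFunc κ) M)
      (_ : IsScalarTower κ (RatFunc κ) M) (w : Place κ M) (y : M),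
      FiniteDimensional (RatFunc κ) M ∧ w.val (algebraMap (RatFunc κ) M RatFunc.X) < 1 ∧
      (P.map (algebraMap (RatFunc κ) M)).eval y = 0 ∧ w.val (y - algebraMap κ M y0) < 1 := by
  let M := P.SplittingField
  have _ : IsScalarTower κ (RatFunc κ) M := inferInstance
  have hfin : FiniteDimensional (RatFunc κ) M := inferInstance
  have hff : IsFunctionField κ M := (isFunctionField_ratFunc κ).of_finite
  obtain ⟨w, hw⟩ := hff.exists_zero (algebraMap (RatFunc κ) M RatFunc.X) (by
    have h1 := (RatFunc.transcendental_X (K := κ))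
    rw [Transcendental, isAlgebraic_algebraMap_iff (algebraMap (RatFunc κ) M).injective]
    exact h1)
  obtain ⟨j, hj⟩ : ∃ j, P0.coeff j ≠ 0 := by
    by_contra hcon
    push Not at hcon
    exact hP0 (Polynomial.ext fun j => by rw [hcon j, Polynomial.coeff_zero])
  have h1 : w.val ((P.map (algebraMap (RatFunc κ) M)).eval (algebraMap κ M y0)) < 1 := by
    have h2 := Helper7.KL.at0_val w hw hy
    rw [map_zero, sub_zero] at h2
    have h3 : (P.map (algebraMap (RatFunc κ) M)).eval (algebraMap κ M y0) =
        algebraMap (RatFunc κ) M (P.eval (algebraMap κ (RatFunc κ) y0)) := by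
      rw [IsScalarTower.algebraMap_apply κ (RatFunc κ) M, Polynomial.eval_map_algebraMap,
        Polynomial.aeval_algebraMap_apply, Polynomial.coe_aeval_eq_eval]
    rw [h3]
    exact h2
  have h4 : 1 ≤ w.val ((P.map (algebraMap (RatFunc κ) M)).coeff j) := by
    rw [Polynomial.coeff_map]
    have h5 := Helper7.KL.at0_val w hw (h j)
    have h6 : algebraMap (RatFunc κ) M (P.coeff j) =
        (algebraMap (RatFunc κ) M (P.coeff j) - algebraMap κ M (P0.coeff j)) +
          algebraMap κ M (P0.coeff j) := by ring
    rw [h6, Valuation.map_add_eq_of_lt_right _ (by rwa [w.triv _ hj]), w.triv _ hj]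
  obtain ⟨y, hy1, hy2⟩ := exists_root_near w (Polynomial.SplittingField.splits P)
    (w.val_algebraMap_le y0) h1 h4
  exact ⟨M, inferInstance, inferInstance, inferInstance, inferInstance, w, y, hfin, hw, hy1, hy2⟩

end pat

end Pool.Agent.Helper17.KA
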