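import Pool.Agent.Helper17.KA.Four

set_option autoImplicit false
set_option linter.unusedSectionVars false

/-!
Project KA (MP_0b9e0b_ag), cycles of dimension `1`: three finite coordinates with nonzero
coefficients.
-/

namespace Pool.Agent.Helper17.KA

open Pool.Agent.Helper16
open Pool.Agent.Helper1.KL (Var VarF Key key fld spec cyc relations rat CH coef Idx)
open Pool.Agent.Helper1.KL (At0 key_eq_iff key_map restr restr_map key_restr fld_restr
  trdeg_fld_restr trdeg_fld_map essFiniteType_fld fld_eq_range IT)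
open Pool.Agent.Helper1.KA
open Pool.Agent.Helper19.KL (IsCone transc_of coef_ne mem_IT cz cz_some cz_none key_cone
  exists_gauss spec_none res_sum res_natCast solve rank_le_of cyc_le at0_const at0_X at0_add
  at0_sum at0_mul alg_of_adjoin)

/-! ### The form of degree `a` in two variables -/

section form

variable {k : Type} [Field k]

/-- The form. -/
noncomputable def Hf (a : ℕ) (b1 b2 b3 r1 r2 r3 : k) : Polynomial k :=
  Polynomial.C b1 * Polynomial.X ^ a + Polynomial.C b2 +
    Polynomial.C (b3 * (-r3⁻¹) ^ a) * (Polynomial.C r1 * Polynomial.X + Polynomial.C r2) ^ a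

theorem Hf_ne {a : ℕ} (ha : 2 ≤ a) (hak : (a : k) ≠ 0) {b1 b2 b3 r1 r2 r3 : k} (hb3 : b3 ≠ 0)
    (hr1 : r1 ≠ 0) (hr2 : r2 ≠ 0) (hr3 : r3 ≠ 0) : Hf a b1 b2 b3 r1 r2 r3 ≠ 0 := by
  intro h0
  have h1 := congrArg (fun P => (Polynomial.derivative P).eval 0) h0
  unfold Hf at h1
  simp only [Polynomial.derivative_add, Polynomial.derivative_mul, Polynomial.derivative_C,
    Polynomial.derivative_pow, Polynomial.derivative_X, Polynomial.eval_add, Polynomial.eval_mul,
    Polynomial.eval_C, Polynomial.eval_pow, Polynomial.eval_X, Polynomial.derivative_zero,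
    Polynomial.eval_zero, zero_mul, zero_add, mul_zero, add_zero, mul_one,
    zero_pow (show a - 1 ≠ 0 by omega)] at h1
  have h2 : b3 * (-r3⁻¹) ^ a ≠ 0 :=
    mul_ne_zero hb3 (pow_ne_zero _ (neg_ne_zero.2 (inv_ne_zero hr3)))
  exact mul_ne_zero h2 (mul_ne_zero (mul_ne_zero hak (pow_ne_zero _ hr2)) hr1) h1

theorem Hf_root {a : ℕ} {b1 b2 b3 r1 r2 r3 : k} (hr3 : r3 ≠ 0) {N : Type} [Field N] [Algebra k N]
    {x1 x2 x3 : N} (h1 : algebraMap k N b1 * x1 ^ a + algebraMap k N b2 * x2 ^ a +
      algebraMap k N b3 * x3 ^ a = 0)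
    (h2 : algebraMap k N r1 * x1 + algebraMap k N r2 * x2 + algebraMap k N r3 * x3 = 0)
    (hx2 : x2 ≠ 0) : Polynomial.aeval (x1 / x2) (Hf a b1 b2 b3 r1 r2 r3) = 0 := by
  unfold Hf
  simp only [map_add, map_mul, map_pow, map_neg, map_inv₀, Polynomial.aeval_C, Polynomial.aeval_X]
  have hr3' : algebraMap k N r3 ≠ 0 := by rwa [Ne, map_eq_zero]
  have h3 : (-(algebraMap k N r3)⁻¹) * (algebraMap k N r1 * (x1 / x2) + algebraMap k N r2) =
      x3 / x2 := by
    field_simp
    linear_combination -h2
  have h4 : algebraMap k N b3 * (-(algebraMap k N r3)⁻¹) ^ a *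
      (algebraMap k N r1 * (x1 / x2) + algebraMap k N r2) ^ a =
      algebraMap k N b3 * (x3 / x2) ^ a := by
    rw [mul_assoc, ← mul_pow, h3]
  rw [h4, div_pow, div_pow]
  have h5 : x2 ^ a ≠ 0 := pow_ne_zero _ hx2
  field_simp
  linear_combination h1

end form

section three

variable {k : Type} [Field k] {p a : ℕ} [Fact p.Prime] [CharP k p] {n : ℕ} {c : Fin n → k}
  {τ : Fin n → Option (ZMod p)} {N : Type} [Field N] [Algebra k N]

/-- The one-dimensional integral closed subschemes of `YV a c τ`. -/
def KK {k : Type} [Field k] (a : ℕ) {p n : ℕ} (c : Fin n → k) (τ : Fin n → Option (ZMod p)) :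
    Set (Key k (Fin n)) :=
  {Q | ∃ (N : Type) (_ : Field N) (_ : Algebra k N) (x : Fin n → Option N), YV a c τ N x ∧
    Algebra.trdeg k (fld k x) = (1 : ℕ) ∧ Q = key k x}

theorem exists_three (hcard : (IT τ).card = 3) {i j : Fin n} (hi : i ∈ IT τ) (hj : j ∈ IT τ)
    (hij : i ≠ j) : ∃ l ∈ IT τ, l ≠ i ∧ l ≠ j ∧ ∀ o ∈ IT τ, o = i ∨ o = j ∨ o = l := by
  classical
  obtain ⟨l, hl, hl'⟩ := Finset.exists_mem_notMem_of_card_lt_card
    (s := {i, j}) (t := IT τ) (lt_of_le_of_lt Finset.card_le_two (by omega))
  simp only [Finset.mem_insert, Finset.mem_singleton, not_or] at hl'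
  refine ⟨l, hl, hl'.1, hl'.2, fun o ho => ?_⟩
  have h1 : ({i, j, l} : Finset (Fin n)) = IT τ := by
    refine Finset.eq_of_subset_of_card_le ?_ ?_
    · intro o ho
      simp only [Finset.mem_insert, Finset.mem_singleton] at ho
      rcases ho with rfl | rfl | rfl
      · exact hi
      · exact hj
      · exact hl
    · rw [hcard, Finset.card_insert_of_notMem, Finset.card_insert_of_notMem,
        Finset.card_singleton]
      · simp only [Finset.mem_singleton]
        exact Ne.symm hl'.2
      · simp only [Finset.mem_insert, Finset.mem_singleton, not_or]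
        exact ⟨hij, Ne.symm hl'.1⟩
  rw [← h1] at ho
  simpa only [Finset.mem_insert, Finset.mem_singleton] using ho

theorem sum_three {E : Type} [AddCommGroup E] {i j l : Fin n} (hij : i ≠ j) (hil : i ≠ l)
    (hjl : j ≠ l) (h : ∀ o ∈ IT τ, o = i ∨ o = j ∨ o = l) (f : Fin n → E)
    (hf : ∀ o, τ o = none → f o = 0) : ∑ o, f o = f i + f j + f l := by
  classical
  rw [← Finset.sum_subset (Finset.subset_univ ({i, j, l} : Finset (Fin n)))]
  · rw [Finset.sum_insert, Finset.sum_insert, Finset.sum_singleton, add_assoc]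
    · simp only [Finset.mem_singleton]
      exact hjl
    · simp only [Finset.mem_insert, Finset.mem_singleton, not_or]
      exact ⟨hij, hil⟩
  · intro o _ ho
    refine hf o ?_
    by_contra h1
    have := h o (mem_IT.2 h1)
    simp only [Finset.mem_insert, Finset.mem_singleton] at ho
    exact ho this

/-- The two equations. -/
theorem eqs_three {x : Fin n → Option N} (hx : YV a c τ N x) {i j l : Fin n} (hij : i ≠ j)
    (hil : i ≠ l) (hjl : j ≠ l) (h : ∀ o ∈ IT τ, o = i ∨ o = j ∨ o = l) :
    algebraMap k N ((coef τ i : k) * c i) * (x i).getD 0 ^ a +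
      algebraMap k N ((coef τ j : k) * c j) * (x j).getD 0 ^ a +
      algebraMap k N ((coef τ l : k) * c l) * (x l).getD 0 ^ a = 0 ∧
    algebraMap k N (coef τ i : k) * (x i).getD 0 + algebraMap k N (coef τ j : k) * (x j).getD 0 +
      algebraMap k N (coef τ l : k) * (x l).getD 0 = 0 := by
  have h1 := hx.1.2
  have h2 := hx.2
  unfold Bfun at h2
  rw [sum_three hij hil hjl h _ (fun o ho => by rw [coef_none ho]; simp)] at h1 h2
  simp only [map_mul, map_natCast]
  exact ⟨h1, h2⟩

/-- All points are cones. -/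
theorem cone_three (ha : 2 ≤ a) (hak : (a : k) ≠ 0) (hc : ∀ i, c i ≠ 0)
    (hall : ∀ i ∈ IT τ, coef τ i ≠ 0) (hcard : (IT τ).card = 3) {x : Fin n → Option N}
    (hx : YV a c τ N x) : IsCone k x := by
  intro i j
  by_cases hij : i = j
  · subst hij
    by_cases h0 : (x i).getD 0 = 0
    · rw [h0, zero_div]
      exact isAlgebraic_zero
    · rw [div_self h0]
      exact isAlgebraic_one
  by_cases hi : τ i = none
  · rw [(hx.1.1 i).1 hi]
    simp only [Option.getD_none, zero_div]
    exact isAlgebraic_zero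
  by_cases hj : (x j).getD 0 = 0
  · rw [hj, div_zero]
    exact isAlgebraic_zero
  have hj' : τ j ≠ none := by
    intro h0
    rw [(hx.1.1 j).1 h0] at hj
    exact hj rfl
  obtain ⟨l, hl, hli, hlj, hI⟩ := exists_three hcard (mem_IT.2 hi) (mem_IT.2 hj') hij
  obtain ⟨h1, h2⟩ := eqs_three hx hij (Ne.symm hli) (Ne.symm hlj) hI
  have hci := coef_cast_ne k k (hall i (mem_IT.2 hi))
  have hcj := coef_cast_ne k k (hall j (mem_IT.2 hj'))
  have hcl := coef_cast_ne k k (hall l hl)
  exact ⟨_, Hf_ne ha hak (mul_ne_zero hcl (hc l)) hci hcj hcl, Hf_root hcl h1 h2 hj⟩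

/-- The data of a cone. -/
theorem cone_data {x : Fin n → Option N} (hx : YV a c τ N x)
    (hr : Algebra.trdeg k (fld k x) = (1 : ℕ)) (hcone : IsCone k x) :
    ∃ (m : Fin n) (κ : Type) (_ : Field κ) (_ : Algebra k κ) (_ : FiniteDimensional k κ)
      (φ : κ →ₐ[k] N) (d : Fin n → Option κ) (am : N), YV a c τ κ d ∧ d m = some 1 ∧
      Transcendental k am ∧ ∀ o, (x o).getD 0 = φ ((d o).getD 0) * am := by
  classical
  obtain ⟨m, hm0⟩ : ∃ m, (x m).getD 0 ≠ 0 := by
    by_contra hcon
    push Not at hcon
    rw [fld_eq_range, Helper19.KL.trdeg_adjoin_of_alg] at hr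
    · exact absurd hr (by simp)
    · rintro _ ⟨o, rfl⟩
      simp only [hcon o]
      exact isAlgebraic_zero
  obtain ⟨am, hxm⟩ : ∃ am, x m = some am := by
    cases h : x m with
    | none =>
      rw [h] at hm0
      exact absurd rfl hm0
    | some am => exact ⟨am, rfl⟩
  have hgm : (x m).getD 0 = am := by rw [hxm]; rfl
  have ham : am ≠ 0 := by rwa [hgm] at hm0
  set κ : IntermediateField k N :=
    IntermediateField.adjoin k (Set.range fun o => (x o).getD 0 / am) with hκ
  have hmem : ∀ o, (x o).getD 0 / am ∈ κ := fun o =>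
    IntermediateField.subset_adjoin k _ ⟨o, rfl⟩
  have hfin : FiniteDimensional k κ := by
    rw [hκ]
    refine IntermediateField.finiteDimensional_adjoin ?_
    rintro _ ⟨o, rfl⟩
    have h1 := hcone o m
    rw [hgm] at h1
    exact h1.isIntegral
  let d : Fin n → Option κ := fun o => if x o = none then none else
    some ⟨(x o).getD 0 / am, hmem o⟩
  have hdg : ∀ o, (((d o).getD 0 : κ) : N) = (x o).getD 0 / am := by
    intro o
    simp only [d]
    by_cases h0 : x o = none
    · rw [if_pos h0, h0]
      simp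
    · rw [if_neg h0]
      rfl
  refine ⟨m, κ, inferInstance, inferInstance, hfin, κ.val, d, am, ?_, ?_, ?_, fun o => ?_⟩
  · refine yv_of_map κ.val ?_
    have h1 := yv_sc hx (AlgHom.id k N) am⁻¹
    have h2 : (fun o => (d o).map κ.val) = sc (AlgHom.id k N) am⁻¹ x := by
      funext o
      cases ho : x o with
      | none =>
        rw [(sc_none _ _ _ _).2 ho]
        simp only [d]
        rw [if_pos ho]
        rfl
      | some e =>
        rw [sc_some _ _ ho]
        simp only [d]
        rw [if_neg (by rw [ho]; exact Option.some_ne_none _)]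
        simp only [Option.map_some]
        congr 1
        change (x o).getD 0 / am = e * am⁻¹
        rw [ho, Option.getD_some, div_eq_mul_inv]
    rw [h2]
    exact h1
  · simp only [d]
    rw [if_neg (by rw [hxm]; exact Option.some_ne_none _)]
    congr 1
    apply Subtype.ext
    change (x m).getD 0 / am = 1
    rw [hgm, div_self ham]
  · refine transc_of (c := fun o => (x o).getD 0 / am) (fun o => ?_) (fun o => ?_) hr
    · have h1 := hcone o m
      rwa [hgm] at h1
    · field_simp
  · change (x o).getD 0 = (((d o).getD 0 : κ) : N) * am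
    rw [hdg]
    field_simp

/-- The set of the one-dimensional subschemes is finite. -/
theorem finite_KK (ha : 2 ≤ a) (hak : (a : k) ≠ 0) (hc : ∀ i, c i ≠ 0)
    (hall : ∀ i ∈ IT τ, coef τ i ≠ 0) (hcard : (IT τ).card = 3) : (KK a c τ).Finite := by
  classical
  set L := AlgebraicClosure k with hL
  let F : Fin n → Set (Fin n → Option L) := fun m => {D | YV a c τ L D ∧ D m = some 1}
  have hF : ∀ m, (F m).Finite := by
    intro m
    by_cases hm : τ m = none
    · refine Set.Finite.subset Set.finite_empty fun D hD => ?_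
      have h1 := (hD.1.1.1 m).1 hm
      rw [hD.2] at h1
      exact absurd h1 (Option.some_ne_none _)
    obtain ⟨i, hi, him⟩ := Finset.exists_mem_notMem_of_card_lt_card
      (s := {m}) (t := IT τ) (by rw [Finset.card_singleton]; omega)
    rw [Finset.mem_singleton] at him
    obtain ⟨l, hl, hli, hlm, hI⟩ := exists_three hcard hi (mem_IT.2 hm) him
    have hci := coef_cast_ne k k (hall i hi)
    have hcm := coef_cast_ne k k (hall m (mem_IT.2 hm))
    have hcl := coef_cast_ne k k (hall l hl)
    have hH := Hf_ne (b1 := (coef τ i : k) * c i) (b2 := (coef τ m : k) * c m) ha hak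
      (mul_ne_zero hcl (hc l)) hci hcm hcl
    have hfin : {y : L | Polynomial.aeval y (Hf a ((coef τ i : k) * c i) ((coef τ m : k) * c m)
        ((coef τ l : k) * c l) (coef τ i : k) (coef τ m : k) (coef τ l : k)) = 0}.Finite := by
      refine (Polynomial.rootSet_finite (Hf a ((coef τ i : k) * c i) ((coef τ m : k) * c m)
        ((coef τ l : k) * c l) (coef τ i : k) (coef τ m : k) (coef τ l : k)) L).subset
          fun y hy => ?_
      rw [Polynomial.mem_rootSet]
      exact ⟨hH, hy⟩
    refine Set.Finite.of_finite_image (f := fun D => (D i).getD 0) (hfin.subset ?_) ?_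
    · rintro _ ⟨D, hD, rfl⟩
      obtain ⟨h1, h2⟩ := eqs_three hD.1 him (Ne.symm hli) (Ne.symm hlm) hI
      have h3 := Hf_root hcl h1 h2 (by rw [hD.2]; exact one_ne_zero)
      rw [hD.2, Option.getD_some, div_one] at h3
      exact h3
    · intro D hD D' hD' hDD
      obtain ⟨h1, h2⟩ := eqs_three hD.1 him (Ne.symm hli) (Ne.symm hlm) hI
      obtain ⟨h1', h2'⟩ := eqs_three hD'.1 him (Ne.symm hli) (Ne.symm hlm) hI
      have hclL : algebraMap k L (coef τ l : k) ≠ 0 := by rwa [Ne, map_eq_zero]
      have hll : (D l).getD 0 = (D' l).getD 0 := by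
        have hDD' : (D i).getD 0 = (D' i).getD 0 := hDD
        rw [hDD', hD.2] at h2
        rw [hD'.2] at h2'
        have h3 : algebraMap k L (coef τ l : k) * (D l).getD 0 =
            algebraMap k L (coef τ l : k) * (D' l).getD 0 := by
          linear_combination h2 - h2'
        exact mul_left_cancel₀ hclL h3
      funext o
      by_cases ho : τ o = none
      · rw [(hD.1.1.1 o).1 ho, (hD'.1.1.1 o).1 ho]
      · have h4 : ∀ {D : Fin n → Option L}, YV a c τ L D → D o = some ((D o).getD 0) := by
          intro D hD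
          cases h : D o with
          | none => exact absurd ((hD.1.1 o).2 h) ho
          | some e => rfl
        rw [h4 hD.1, h4 hD'.1]
        rcases hI o (mem_IT.2 ho) with rfl | rfl | rfl
        · exact congrArg some hDD
        · rw [hD.2, hD'.2]
        · rw [hll]
  refine ((Set.finite_iUnion fun m => (hF m).image fun D => key k (cz D))).subset ?_
  rintro _ ⟨N, _, _, x, hx, hr, rfl⟩
  obtain ⟨m, κ, _, _, _, φ, d, am, hd, hdm, ham, hxd⟩ :=
    cone_data hx hr (cone_three ha hak hc hall hcard hx)
  obtain ⟨σ⟩ : Nonempty (κ →ₐ[k] L) := ⟨IsAlgClosed.lift⟩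
  refine Set.mem_iUnion.2 ⟨m, fun o => (d o).map σ, ⟨yv_map hd σ, ?_⟩, ?_⟩
  · simp only [hdm, Option.map_some, map_one]
  · refine key_cone ((IsScalarTower.toAlgHom k L (RatFunc L)).comp σ) φ (fun o => (d o).getD 0)
      (a := (RatFunc.X : RatFunc L)) ?_ ham ?_ hxd ?_
    · intro h1
      exact RatFunc.transcendental_X (h1.extendScalars (algebraMap k L).injective)
    · intro o
      change (cz (fun o => (d o).map σ) o).getD 0 = algebraMap L (RatFunc L) (σ ((d o).getD 0)) *
        RatFunc.X
      cases h1 : d o with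
      | none =>
        rw [cz_none (by simp only [h1]; rfl)]
        simp
      | some e =>
        rw [cz_some (a := σ e) (by simp only [h1]; rfl)]
        rfl
    · intro o
      rw [← hx.1.1 o, hd.1.1 o]
      cases h1 : d o with
      | none => simp [cz, h1]
      | some e => simp [cz, h1]

end three

end Pool.Agent.Helper17.KA
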