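import Pool.Agent.Helper17.KA.L1
import Pool.Agent.Helper19.KL.M7

set_option autoImplicit false
set_option linter.unusedSectionVars false

/-!
Project KA (MP_0b9e0b_ag), cycles of dimension one: the indices with two finite coordinates.
-/

namespace Pool.Agent.Helper17.KA

open Pool.Agent.Helper16
open Pool.Agent.Helper1.KL (Var VarF Key key fld spec cyc relations rat CH coef Idx fld_eq_range IT)
open Pool.Agent.Helper1.KA
open Pool.Agent.Helper19.KL (coef_ne mem_IT coef_eq_zero)

section two

variable {k : Type} [Field k] {p a : ℕ} [Fact p.Prime] [CharP k p] {n : ℕ} {c : Fin n → k}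
  {τ : Fin n → Option (ZMod p)} {N : Type} [Field N] [Algebra k N]

/-- If there is a point, the coefficients are related. -/
theorem rel_two {i j : Fin n} (hij : i ≠ j) (hi : coef τ i ≠ 0) (hj : coef τ j ≠ 0)
    (h : ∀ o, o ≠ i → o ≠ j → τ o = none) {x : Fin n → Option N} (hx : YV a c τ N x)
    (hr : Algebra.trdeg k (fld k x) = (1 : ℕ)) :
    (coef τ i : k) * c i + (coef τ j : k) * c j * (-(coef τ i : k) / (coef τ j : k)) ^ a = 0 := by
  classical
  have hik := coef_cast_ne k k hi
  have hjk := coef_cast_ne k k hj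
  have hjN := coef_cast_ne k N hj
  have hsum : ∀ f : Fin n → N, (∀ o, τ o = none → f o = 0) → ∑ o, f o = f i + f j := by
    intro f hf
    rw [← Finset.sum_subset (Finset.subset_univ ({i, j} : Finset (Fin n))),
      Finset.sum_pair hij]
    intro o _ ho
    rw [Finset.mem_insert, Finset.mem_singleton, not_or] at ho
    exact hf o (h o ho.1 ho.2)
  have h1 := hx.2
  unfold Bfun at h1
  rw [hsum _ fun o ho => by rw [coef_none ho, Nat.cast_zero, zero_mul]] at h1
  have h2 := hx.1.2
  rw [hsum _ fun o ho => by rw [coef_none ho, Nat.cast_zero, zero_mul, zero_mul]] at h2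
  have h3 : (x j).getD 0 = algebraMap k N (-(coef τ i : k) / (coef τ j : k)) *
      (x i).getD 0 := by
    rw [map_div₀, map_neg, map_natCast, map_natCast]
    field_simp
    linear_combination h1
  have hxi : (x i).getD 0 ≠ 0 := by
    intro h0
    rw [fld_eq_range, Helper19.KL.trdeg_adjoin_of_alg] at hr
    · exact absurd hr (by simp)
    · rintro _ ⟨o, rfl⟩
      have h4 : (x o).getD 0 = 0 := by
        by_cases ho : o = i
        · rw [ho, h0]
        by_cases ho' : o = j
        · rw [ho', h3, h0, mul_zero]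
        · rw [(hx.1.1 o).1 (h o ho ho')]
          rfl
      simp only [h4]
      exact isAlgebraic_zero
  have h5 : algebraMap k N ((coef τ i : k) * c i + (coef τ j : k) * c j *
      (-(coef τ i : k) / (coef τ j : k)) ^ a) * (x i).getD 0 ^ a = 0 := by
    rw [h3, mul_pow] at h2
    rw [map_add, map_mul, map_mul, map_mul, map_pow, map_natCast, map_natCast]
    linear_combination h2
  rcases mul_eq_zero.1 h5 with h6 | h6
  · rwa [map_eq_zero] at h6
  · exact absurd h6 (pow_ne_zero _ hxi)

theorem sum_two [NeZero p] (ha : 2 ≤ a) :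
    ∑ τ ∈ Full p n 2, Nat.card (KK a c τ) ≤ (p - 1) * isoN p a c := by
  classical
  set D := {x : Fin n × Fin n × (ZMod p)ˣ //
    x.1 < x.2.1 ∧ c x.1 = (((x.2.2 : ZMod p).val : ℕ) : k) ^ (a - 1) * c x.2.1} with hD
  have hfin : Fintype D := Fintype.ofFinite D
  let f : D × (ZMod p)ˣ → (Fin n → Option (ZMod p)) := fun y m =>
    if m = y.1.1.2.1 then some (y.2 : ZMod p) else
      if m = y.1.1.1 then some (-((y.1.1.2.2 : ZMod p) * (y.2 : ZMod p))) else none
  have h0 : ∑ τ ∈ Full p n 2, Nat.card (KK a c τ) ≤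
      ∑ τ ∈ Full p n 2, if (KK a c τ).Nonempty then 1 else 0 := by
    refine Finset.sum_le_sum fun τ hτ => ?_
    obtain ⟨hall, hcard⟩ := mem_Full hτ
    obtain ⟨i, j, hij, hI⟩ := Finset.card_eq_two.1 hcard
    have hi : coef τ i ≠ 0 := hall i (by rw [hI]; simp)
    have hj : coef τ j ≠ 0 := hall j (by rw [hI]; simp)
    have h1 : ∀ o, o ≠ i → o ≠ j → τ o = none := by
      intro o ho ho'
      by_contra h2
      have h3 := mem_IT.2 h2
      rw [hI, Finset.mem_insert, Finset.mem_singleton] at h3
      rcases h3 with h3 | h3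
      · exact ho h3
      · exact ho' h3
    by_cases hne : (KK a c τ).Nonempty
    · rw [if_pos hne]
      have hsub : (KK a c τ).Subsingleton := by
        rintro _ ⟨N, _, _, x, hx, hr, rfl⟩ _ ⟨N', _, _, x', hx', hr', rfl⟩
        exact key_two hij hi hj h1 hx hr hx' hr'
      have := hsub.coe_sort
      exact Finite.card_le_one_iff_subsingleton.2 this
    · rw [if_neg hne]
      rw [Set.not_nonempty_iff_eq_empty] at hne
      rw [hne]
      simp
  refine h0.trans ?_
  rw [← Finset.sum_filter, ← Finset.card_eq_sum_ones]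
  have hsub : (Full p n 2).filter (fun τ => (KK a c τ).Nonempty) ⊆ Finset.univ.image f := by
    intro τ hτ
    rw [Finset.mem_filter] at hτ
    obtain ⟨hτ, _, N, _, _, x, hx, hr, -⟩ := hτ
    obtain ⟨hall, hcard⟩ := mem_Full hτ
    obtain ⟨i, j, hij, hI⟩ : ∃ i j : Fin n, i < j ∧ IT τ = {i, j} := by
      obtain ⟨i, j, hij, hI⟩ := Finset.card_eq_two.1 hcard
      rcases lt_or_gt_of_ne hij with h | h
      · exact ⟨i, j, h, hI⟩
      · exact ⟨j, i, h, by rw [hI, Finset.pair_comm]⟩
    have hi : coef τ i ≠ 0 := hall i (by rw [hI]; simp)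
    have hj : coef τ j ≠ 0 := hall j (by rw [hI]; simp)
    have h1 : ∀ o, o ≠ i → o ≠ j → τ o = none := by
      intro o ho ho'
      by_contra h2
      have h3 := mem_IT.2 h2
      rw [hI, Finset.mem_insert, Finset.mem_singleton] at h3
      rcases h3 with h3 | h3
      · exact ho h3
      · exact ho' h3
    have hrel := rel_two hij.ne hi hj h1 hx hr
    have hne : ∀ {m : Fin n}, coef τ m ≠ 0 → (τ m).getD 0 ≠ 0 := fun h h0 =>
      h (coef_eq_zero.2 h0)
    have hsome : ∀ {m : Fin n}, coef τ m ≠ 0 → τ m = some ((τ m).getD 0) := by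
      intro m hm
      have h1 := coef_ne hm
      cases h2 : τ m with
      | none => exact absurd h2 h1
      | some a => rfl
    have hι : ∀ ρ : ZMod p, ((ρ.val : ℕ) : k) = ZMod.castHom (dvd_refl p) k ρ := by
      intro ρ
      rw [ZMod.castHom_apply, ZMod.natCast_val]
    have hik := coef_cast_ne k k hi
    have hjk := coef_cast_ne k k hj
    have hcond : c i = (((-((τ i).getD 0 * ((τ j).getD 0)⁻¹) : ZMod p).val : ℕ) : k) ^ (a - 1) *
        c j := by
      have h2 : (coef τ i : k) = ZMod.castHom (dvd_refl p) k ((τ i).getD 0) := hι _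
      have h3 : (coef τ j : k) = ZMod.castHom (dvd_refl p) k ((τ j).getD 0) := hι _
      have h4 : (((-((τ i).getD 0 * ((τ j).getD 0)⁻¹) : ZMod p).val : ℕ) : k) =
          -(coef τ i : k) / (coef τ j : k) := by
        rw [hι, map_neg, map_mul, map_inv₀, ← h2, ← h3]
        field_simp
      rw [h4]
      obtain ⟨b, rfl⟩ := Nat.exists_eq_add_of_le' (show 1 ≤ a by omega)
      rw [Nat.add_sub_cancel]
      rw [pow_succ] at hrel
      refine mul_left_cancel₀ hik ?_
      have h5 : (coef τ j : k) * c j * ((-(coef τ i : k) / (coef τ j : k)) ^ b *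
          (-(coef τ i : k) / (coef τ j : k))) =
          -((coef τ i : k) * ((-(coef τ i : k) / (coef τ j : k)) ^ b * c j)) := by
        field_simp
      rw [h5] at hrel
      linear_combination hrel
    rw [Finset.mem_image]
    refine ⟨(⟨(i, j, Units.mk0 (-((τ i).getD 0 * ((τ j).getD 0)⁻¹))
      (neg_ne_zero.2 (mul_ne_zero (hne hi) (inv_ne_zero (hne hj))))), hij, hcond⟩,
      Units.mk0 ((τ j).getD 0) (hne hj)), Finset.mem_univ _, ?_⟩
    funext m
    simp only [f, Units.val_mk0]
    by_cases hmj : m = j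
    · rw [if_pos hmj, hmj]
      exact (hsome hj).symm
    · rw [if_neg hmj]
      by_cases hmi : m = i
      · rw [if_pos hmi, hmi, neg_mul, neg_neg, inv_mul_cancel_right₀ (hne hj)]
        exact (hsome hi).symm
      · rw [if_neg hmi]
        exact (h1 m hmi hmj).symm
  refine (Finset.card_le_card hsub).trans (Finset.card_image_le.trans (le_of_eq ?_))
  rw [Finset.card_univ, Fintype.card_prod, ZMod.card_units, mul_comm]
  congr 1
  unfold isoN
  rw [← hD, Nat.card_eq_fintype_card]

end two

end Pool.Agent.Helper17.KA
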